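import Pool.Agent.D0H62.IT.Prod
import Pool.Agent.TH729.CC.Hom
import Pool.Agent.TH729.SQ.Comp

/-!
# Arbitrary conditions modulo squares
-/

set_option autoImplicit false
set_option linter.unusedSectionVars false
set_option linter.unusedVariables false

open MvPolynomial Set Filter Topology Pool.Agent.H581R2 Pool.Agent.TH729.SQ Pool.Agent.Y718
  Pool.Agent.Y718.X

namespace Pool.Agent.D0H62.IT

variable {n : ℕ}

/-- the rational points at which `h` is `d` times a nonzero square -/
def Rd (h : MvPolynomial (Fin n) ℚ) (d : ℚ) : Set (Fin n → ℚ) :=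
  {z | ∃ w : ℚ, w ≠ 0 ∧ eval z h = d * w ^ 2}

/-- the real points which are not zeros -/
def Vh (h : MvPolynomial (Fin n) ℚ) : Set (Fin n → ℝ) := {x | (aeval x h : ℝ) ≠ 0}

lemma Vh_SA (h : MvPolynomial (Fin n) ℚ) : SA (Vh h) := SAP.not (SAP.eq_zero (PF.aeval h))

lemma TX_nonneg {f : MvPolynomial (Fin n) ℚ} {x : Fin n → ℝ} (hx : x ∈ closure (rl (TX f))) :
    (0 : ℝ) ≤ aeval x f := by
  have hc : Continuous fun x : Fin n → ℝ => (aeval x f : ℝ) := PF.continuous (PF.aeval f)
  have : closure (rl (TX f)) ⊆ {x | (0 : ℝ) ≤ aeval x f} := by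
    refine closure_minimal ?_ (isClosed_le continuous_const hc)
    rintro _ ⟨z, hz, rfl⟩
    obtain ⟨⟨w, -, hw⟩, -⟩ := hz
    change (0 : ℝ) ≤ aeval (fun i => (z i : ℝ)) f
    rw [Pool.Agent.TH729.SQ.aeval_cast z f, ← hw]
    positivity
  exact this hx

lemma aeval_Cmul (d : ℚ) (h : MvPolynomial (Fin n) ℚ) (x : Fin n → ℝ) :
    (aeval x (C d * h) : ℝ) = d * aeval x h := by
  rw [map_mul, aeval_C]
  rfl

lemma TX_LC {h : MvPolynomial (Fin n) ℚ} {d : ℚ} (hd : d ≠ 0) (h4 : ∀ i, Dg (C d * h) i 4) :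
    LC (Vh h) (closure (rl (TX (C d * h))) ∩ Vh h) := by
  refine LC.of_clopen (O := interior (closure (rl (TX (C d * h)))))
    (C := closure (rl (TX (C d * h)))) isOpen_interior isClosed_closure ?_ ?_
  · intro x hx
    constructor
    · rintro ⟨h1, -⟩
      rw [mem_interior_iff_mem_nhds]
      refine TX_open h4 h1 (lt_of_le_of_ne (TX_nonneg h1) ?_)
      rw [aeval_Cmul]
      exact (mul_ne_zero (by exact_mod_cast hd) hx).symm
    · intro h1
      exact ⟨interior_subset h1, hx⟩
  · intro x hx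
    exact ⟨fun h => h.1, fun h => ⟨h, hx⟩⟩

/-- finitely many closed sets -/
def fam1 (h : MvPolynomial (Fin n) ℚ) : Set (Set (Fin n → ℝ)) :=
  closure '' {W | W ⊆ Vh h ∧ LC (Vh h) W}

lemma fam1_fin (h : MvPolynomial (Fin n) ℚ) : (fam1 h).Finite :=
  (fc_sa _ _ (Vh_SA h)).image _

lemma TX_mem {h : MvPolynomial (Fin n) ℚ} {d : ℚ} (hd : d ≠ 0) (h4 : ∀ i, Dg (C d * h) i 4) :
    closure (rl (TX (C d * h))) ∈ fam1 h := by
  refine ⟨_, ⟨Set.inter_subset_right, TX_LC hd h4⟩, ?_⟩
  apply Set.Subset.antisymm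
  · exact closure_minimal Set.inter_subset_left isClosed_closure
  · apply closure_mono
    rintro x hx
    refine ⟨subset_closure hx, ?_⟩
    obtain ⟨z, ⟨⟨w, hw0, hw⟩, -⟩, rfl⟩ := hx
    intro h0
    change (aeval (fun i => (z i : ℝ)) h : ℝ) = 0 at h0
    rw [Pool.Agent.TH729.SQ.aeval_cast z h] at h0
    have h1 : eval z h = 0 := by exact_mod_cast h0
    rw [map_mul, h1, mul_zero] at hw
    exact hw0 (pow_eq_zero_iff (two_ne_zero) |>.mp hw)

lemma TX_nhds {f : MvPolynomial (Fin n) ℚ} (h4 : ∀ i, Dg f i 4) {z : Fin n → ℚ} (hz : z ∈ TX f) :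
    closure (rl (TX f)) ∈ 𝓝 (fun j => (z j : ℝ)) := by
  refine TX_open h4 (subset_closure ⟨z, hz, rfl⟩) ?_
  obtain ⟨⟨w, hw0, hw⟩, -⟩ := hz
  rw [Pool.Agent.TH729.SQ.aeval_cast z f, ← hw]
  have : 0 < w ^ 2 := by positivity
  exact_mod_cast this

lemma closure_diff {S : Set (Fin n → ℚ)} {i : Fin n} {T : Set ℚ} (hT : T.Finite)
    (hS : ∀ z ∈ S, closure (rl S) ∈ 𝓝 (fun j => (z j : ℝ))) :
    closure (rl {z | z ∈ S ∧ z i ∉ T}) = closure (rl S) := by
  classical
  apply Set.Subset.antisymm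
  · apply closure_mono
    rintro _ ⟨z, hz, rfl⟩
    exact ⟨z, hz.1, rfl⟩
  · refine closure_minimal ?_ isClosed_closure
    rintro _ ⟨z, hz, rfl⟩
    rw [mem_closure_iff]
    intro O hO hzO
    set x : Fin n → ℝ := fun j => (z j : ℝ) with hx
    set U := O ∩ interior (closure (rl S)) with hU
    have hUo : IsOpen U := hO.inter isOpen_interior
    have hxU : x ∈ U := ⟨hzO, mem_interior_iff_mem_nhds.2 (hS z hz)⟩
    have hγ : Continuous fun s : ℝ => Function.update x i s := by fun_prop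
    have h1 : (fun s : ℝ => Function.update x i s) ⁻¹' U ∈ 𝓝 (x i) := by
      refine (hUo.preimage hγ).mem_nhds ?_
      change Function.update x i (x i) ∈ U
      rw [Function.update_eq_self]
      exact hxU
    have hT' : ((fun q : ℚ => (q : ℝ)) '' T).Finite := hT.image _
    obtain ⟨s, hsU, hsT⟩ := ((infinite_of_mem_nhds (x i) h1).sdiff hT').nonempty
    set y := Function.update x i s with hy
    have hyU : y ∈ U := hsU
    have hyi : y i = s := Function.update_self _ _ _
    have hVo : IsOpen {y : Fin n → ℝ | y i ∉ (fun q : ℚ => (q : ℝ)) '' T} := by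
      have h3 : IsClosed ((fun y : Fin n → ℝ => y i) ⁻¹' ((fun q : ℚ => (q : ℝ)) '' T)) :=
        hT'.isClosed.preimage (continuous_apply i)
      exact h3.isOpen_compl
    have h2 : y ∈ closure (rl S) := interior_subset hyU.2
    rw [mem_closure_iff] at h2
    obtain ⟨y', ⟨hy1, hy2⟩, z', hz', rfl⟩ := h2 _ (hUo.inter hVo)
      ⟨hyU, by change y i ∉ _; rw [hyi]; exact hsT⟩
    exact ⟨_, hy1.1, z', ⟨hz', fun hc => hy2 ⟨z' i, hc, rfl⟩⟩, rfl⟩

/-- the polynomials for which conditions modulo squares are possible -/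
def Adm (h : MvPolynomial (Fin n) ℚ) : Prop :=
  (∃ (i : Fin n) (f : Polynomial ℚ), f.natDegree ≤ 4 ∧ h = Polynomial.aeval (X i) f) ∨
  ((∀ i, h.degreeOf i ≤ 2) ∧ SA (closure (rl {z | eval z h = 0})))

/-- the closures -/
def Cls (h : MvPolynomial (Fin n) ℚ) : Set (Set (Fin n → ℝ)) :=
  {W | ∃ d, W = closure (rl (Rd h d))}

lemma Rd_zero (h : MvPolynomial (Fin n) ℚ) : Rd h 0 = {z | eval z h = 0} := by
  ext z
  constructor
  · rintro ⟨w, -, hw⟩
    rw [zero_mul] at hw
    exact hw
  · intro hz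
    refine ⟨1, one_ne_zero, ?_⟩
    rw [zero_mul]
    exact hz

lemma adm_two {h : MvPolynomial (Fin n) ℚ} (h2 : ∀ i, h.degreeOf i ≤ 2)
    (hZ : SA (closure (rl {z | eval z h = 0}))) :
    (Cls h).Finite ∧ ∀ d, SA (closure (rl (Rd h d))) := by
  have hdg : ∀ d : ℚ, ∀ i, Dg (C d * h) i 2 := fun d i z =>
    (lk_natDegree _ z i).trans ((degreeOf_C_mul_le h i d).trans (h2 i))
  have hR : ∀ d : ℚ, d ≠ 0 → Rd h d = TX (C d * h) := by
    intro d hd
    ext z
    constructor
    · rintro ⟨w, hw, hwz⟩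
      refine ⟨⟨d * w, mul_ne_zero hd hw, ?_⟩, fun i => Or.inl (hdg d i)⟩
      rw [map_mul, eval_C, hwz]
      ring
    · rintro ⟨⟨w, hw, hwz⟩, -⟩
      refine ⟨w / d, div_ne_zero hw hd, ?_⟩
      rw [map_mul, eval_C] at hwz
      field_simp
      linear_combination -hwz
  have h4 : ∀ d : ℚ, ∀ i, Dg (C d * h) i 4 := fun d i z => (hdg d i z).trans (by norm_num)
  constructor
  · refine ((fam1_fin h).union (Set.finite_singleton (closure (rl (Rd h 0))))).subset ?_
    rintro _ ⟨d, rfl⟩
    by_cases hd : d = 0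
    · subst hd
      exact Or.inr rfl
    · left
      rw [hR d hd]
      exact TX_mem hd (h4 d)
  · intro d
    by_cases hd : d = 0
    · subst hd
      rw [Rd_zero]
      exact hZ
    · rw [hR d hd]
      exact TX_SA (h4 d)

/-- the union of hyperplanes -/
def Hy (i : Fin n) (F : Set ℚ) : Set (Fin n → ℚ) := {z | z i ∈ F}

lemma Hy_SA (i : Fin n) {F : Set ℚ} (hF : F.Finite) : SA (closure (rl (Hy i F))) := by
  have : Hy i F = ⋃ t ∈ F, {z : Fin n → ℚ | z ∈ (Set.univ : Set (Fin n → ℚ)) ∧ z i = t} := by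
    ext z
    rw [Set.mem_iUnion₂]
    constructor
    · intro hz
      exact ⟨z i, hz, trivial, rfl⟩
    · rintro ⟨t, ht, -, rfl⟩
      exact ht
  rw [this]
  exact fin_SA hF fun t _ => slice_SA (fun z _ s => trivial) univ_SA

lemma ev_one (i : Fin n) (k : Polynomial ℚ) (z : Fin n → ℚ) :
    eval z (Polynomial.aeval (X i : MvPolynomial (Fin n) ℚ) k) = k.eval (z i) := by
  have h1 := eval_pf (G := (C 1 : MvPolynomial (Fin n) ℚ)) (g := fun _ => k) (J := {i}) z
  unfold pf at h1
  rw [Finset.prod_singleton, Finset.prod_singleton, map_mul, eval_C, one_mul, one_mul] at h1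
  exact h1

lemma one_data {i : Fin n} {f : Polynomial ℚ} (hf0 : f ≠ 0) (hf : f.natDegree ≤ 4) :
    ∃ (p k : Polynomial ℚ) (T : Set ℚ), f = p ^ 2 * k ∧ T.Finite ∧
      (∀ (c : ℚ) (j : Fin n), Dg (C c * Polynomial.aeval (X i : MvPolynomial (Fin n) ℚ) k) j 4) ∧
      ∀ d : ℚ, d ≠ 0 → closure (rl (Rd (Polynomial.aeval (X i : MvPolynomial (Fin n) ℚ) f) d)) =
      closure (rl (TX (C d * Polynomial.aeval (X i : MvPolynomial (Fin n) ℚ) k))) ∪
        closure (rl (Hy i {t | t ∈ T ∧ ∃ w : ℚ, w ≠ 0 ∧ f.eval t = d * w ^ 2})) := by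
  classical
  set h : MvPolynomial (Fin n) ℚ := Polynomial.aeval (X i) f with hh
  have hpf : ∀ (c : ℚ) (k : Polynomial ℚ), pf (C c) (fun _ => k) {i} =
      C c * Polynomial.aeval (X i : MvPolynomial (Fin n) ℚ) k := by
    intro c k
    unfold pf
    rw [Finset.prod_singleton]
  have hev : ∀ (k : Polynomial ℚ) (z : Fin n → ℚ),
      eval z (Polynomial.aeval (X i : MvPolynomial (Fin n) ℚ) k) = k.eval (z i) := ev_one i
  obtain ⟨p, k, hpk, hk4, hk⟩ := sq_decomp hf0 hf
  set T : Set ℚ := Tb k ∪ {t | f.IsRoot t} with hT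
  have hTf : T.Finite := (Tb_fin hk4).union (Polynomial.finite_setOfPred_isRoot hf0)
  have hC0 : ∀ c : ℚ, ∀ j, Dg (C c : MvPolynomial (Fin n) ℚ) j 0 := by
    intro c j z
    unfold lk
    rw [aeval_C]
    exact (Polynomial.natDegree_C c).le
  have hdg : ∀ (c : ℚ) (j : Fin n) (m : ℕ), k.natDegree ≤ m →
      Dg (C c * Polynomial.aeval (X i : MvPolynomial (Fin n) ℚ) k) j m := by
    intro c j m hm
    rw [← hpf]
    by_cases hj : j ∈ ({i} : Finset (Fin n))
    · exact dg_mem hj (hC0 c j) hm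
    · exact fun z => (dg_nmem hj (hC0 c j) z).trans (Nat.zero_le _)
  have h4 : ∀ (c : ℚ) (j : Fin n), Dg (C c * Polynomial.aeval (X i : MvPolynomial (Fin n) ℚ) k) j 4
    := fun c j => hdg c j 4 hk4
  have hR : ∀ d : ℚ, d ≠ 0 → Rd h d =
      {z | z ∈ TX (C d * Polynomial.aeval (X i : MvPolynomial (Fin n) ℚ) k) ∧ z i ∉ T} ∪
        Hy i {t | t ∈ T ∧ ∃ w : ℚ, w ≠ 0 ∧ f.eval t = d * w ^ 2} := by
    intro d hd
    ext z
    constructor
    · rintro ⟨w, hw, hwz⟩
      rw [hh, hev] at hwz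
      by_cases hz : z i ∈ T
      · exact Or.inr ⟨hz, w, hw, hwz⟩
      left
      refine ⟨?_, hz⟩
      have hp : p.eval (z i) ≠ 0 := by
        intro h0
        apply hz
        right
        change f.eval (z i) = 0
        rw [hpk, Polynomial.eval_mul, Polynomial.eval_pow, h0]
        ring
      rw [hpk, Polynomial.eval_mul, Polynomial.eval_pow] at hwz
      have hw' : (d * w / p.eval (z i)) ^ 2 = d * k.eval (z i) := by
        field_simp
        linear_combination -hwz
      have hw0 : d * w / p.eval (z i) ≠ 0 := div_ne_zero (mul_ne_zero hd hw) hp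
      refine ⟨⟨_, hw0, ?_⟩, fun j => ?_⟩
      · rw [map_mul, eval_C, hev, hw']
      · by_cases hj : j = i
        · subst hj
          rcases hk with hk | hk
          · exact Or.inl (hdg d j 2 hk)
          · right
            by_contra hinf
            apply hz
            left
            refine ⟨hk, d, _, hd, hw0, hw', ?_⟩
            rw [← hpf, lk_mem (Finset.mem_singleton_self j) (hC0 d j)] at hinf
            rw [Finset.erase_singleton, Finset.prod_empty, mul_one, eval_C] at hinf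
            exact hinf
        · left
          rw [← hpf]
          have hj' : j ∉ ({i} : Finset (Fin n)) := by
            rw [Finset.mem_singleton]
            exact hj
          exact fun z => (dg_nmem hj' (hC0 d j) z).trans (Nat.zero_le _)
    · rintro (⟨⟨⟨w, hw, hwz⟩, -⟩, hz⟩ | ⟨-, w, hw, hwz⟩)
      · rw [map_mul, eval_C, hev] at hwz
        have hp : p.eval (z i) ≠ 0 := by
          intro h0
          apply hz
          right
          change f.eval (z i) = 0
          rw [hpk, Polynomial.eval_mul, Polynomial.eval_pow, h0]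
          ring
        refine ⟨p.eval (z i) * w / d, div_ne_zero (mul_ne_zero hp hw) hd, ?_⟩
        rw [hh, hev, hpk, Polynomial.eval_mul, Polynomial.eval_pow]
        have h9 : k.eval (z i) = w ^ 2 / d := by
          rw [eq_div_iff hd]
          linear_combination -hwz
        rw [h9]
        field_simp
      · refine ⟨w, hw, ?_⟩
        rw [hh, hev]
        exact hwz
  refine ⟨p, k, T, hpk, hTf, h4, ?_⟩
  have hclo : ∀ d : ℚ, d ≠ 0 → closure (rl (Rd h d)) =
      closure (rl (TX (C d * Polynomial.aeval (X i : MvPolynomial (Fin n) ℚ) k))) ∪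
        closure (rl (Hy i {t | t ∈ T ∧ ∃ w : ℚ, w ≠ 0 ∧ f.eval t = d * w ^ 2})) := by
    intro d hd
    rw [hR d hd, rl_union, closure_union, closure_diff hTf fun z hz => TX_nhds (h4 d) hz]
  exact hclo

lemma adm_one {i : Fin n} {f : Polynomial ℚ} (hf : f.natDegree ≤ 4) :
    (Cls (Polynomial.aeval (X i : MvPolynomial (Fin n) ℚ) f)).Finite ∧
      ∀ d, SA (closure (rl (Rd (Polynomial.aeval (X i : MvPolynomial (Fin n) ℚ) f) d))) := by
  classical
  set h : MvPolynomial (Fin n) ℚ := Polynomial.aeval (X i) f with hh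
  have hev : ∀ (k : Polynomial ℚ) (z : Fin n → ℚ),
      eval z (Polynomial.aeval (X i : MvPolynomial (Fin n) ℚ) k) = k.eval (z i) := ev_one i
  by_cases hf0 : f = 0
  · have hR : ∀ d : ℚ, d ≠ 0 → Rd h d = ∅ := by
      intro d hd
      ext z
      constructor
      · rintro ⟨w, hw, hwz⟩
        rw [hh, hev, hf0, Polynomial.eval_zero] at hwz
        exact mul_ne_zero hd (pow_ne_zero 2 hw) hwz.symm
      · exact fun h => h.elim
    have hR0 : Rd h 0 = Set.univ := by
      rw [Rd_zero]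
      ext z
      refine ⟨fun _ => trivial, fun _ => ?_⟩
      change eval z h = 0
      rw [hh, hev, hf0, Polynomial.eval_zero]
    constructor
    · refine ((Set.finite_singleton (closure (rl (∅ : Set (Fin n → ℚ))))).union
        (Set.finite_singleton (closure (rl (Set.univ : Set (Fin n → ℚ)))))).subset ?_
      rintro _ ⟨d, rfl⟩
      by_cases hd : d = 0
      · subst hd
        rw [hR0]
        exact Or.inr rfl
      · rw [hR d hd]
        exact Or.inl rfl
    · intro d
      by_cases hd : d = 0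
      · subst hd
        rw [hR0]
        exact univ_SA
      · rw [hR d hd]
        exact empty_SA
  obtain ⟨p, k, T, hpk, hTf, h4, hclo⟩ := one_data (i := i) hf0 hf
  constructor
  · refine (((((fam1_fin (Polynomial.aeval (X i : MvPolynomial (Fin n) ℚ) k)).prod
      (hTf.finite_subsets)).image fun q : Set (Fin n → ℝ) × Set ℚ =>
        q.1 ∪ closure (rl (Hy i q.2)))).union
        (Set.finite_singleton (closure (rl (Rd h 0))))).subset ?_
    rintro _ ⟨d, rfl⟩
    by_cases hd : d = 0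
    · subst hd
      exact Or.inr rfl
    · left
      exact ⟨(_, _), ⟨TX_mem hd (h4 d), fun t ht => ht.1⟩, (hclo d hd).symm⟩
  · intro d
    by_cases hd : d = 0
    · subst hd
      have : Rd h 0 = Hy i {t | f.IsRoot t} := by
        rw [Rd_zero]
        ext z
        change eval z h = 0 ↔ f.eval (z i) = 0
        rw [hh, hev]
      rw [this]
      exact Hy_SA i (Polynomial.finite_setOfPred_isRoot hf0)
    · rw [hclo d hd]
      exact (TX_SA (h4 d)).union (Hy_SA i (hTf.subset fun t ht => ht.1))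

theorem adm_cls {h : MvPolynomial (Fin n) ℚ} (hA : Adm h) :
    (Cls h).Finite ∧ ∀ d, SA (closure (rl (Rd h d))) := by
  rcases hA with ⟨i, f, hf, rfl⟩ | ⟨h2, hZ⟩
  · exact adm_one hf
  · exact adm_two h2 hZ

end Pool.Agent.D0H62.IT
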