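import Pool.Agent.D0H62.IT.Blk

/-!
# Arbitrary conditions modulo squares: several polynomials in separate variables
-/

set_option autoImplicit false
set_option linter.unusedSectionVars false
set_option linter.unusedVariables false

open MvPolynomial Set Filter Topology Pool.Agent.H581R2 Pool.Agent.TH729.SQ Pool.Agent.Y718
  Pool.Agent.Y718.X

namespace Pool.Agent.D0H62.IT

/-- `h` is admissible: the closures of the sets of the rational points at which `h` is `d` times a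
nonzero square (`d ∈ ℚ`) are semialgebraic, and there are only finitely many of them -/
def Fam {ι : Type} (h : MvPolynomial ι ℚ) : Prop :=
  {W : Set (ι → ℝ) | ∃ d : ℚ, W = closure (rl {z : ι → ℚ | ∃ w : ℚ, w ≠ 0 ∧
    eval z h = d * w ^ 2})}.Finite ∧
  ∀ d : ℚ, SA (closure (rl {z : ι → ℚ | ∃ w : ℚ, w ≠ 0 ∧ eval z h = d * w ^ 2}))

section gen

variable {ι β : Type} [Finite ι] [Finite β]

/-- the points with a given vector of square classes -/
def Bx (h : β → MvPolynomial ι ℚ) (δ : β → ℚ) : Set (ι → ℚ) :=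
  {z | ∀ b, ∃ w : ℚ, w ≠ 0 ∧ eval z (h b) = δ b * w ^ 2}

lemma clo_inter (blk : ι → Option β) (A : β → Set (ι → ℚ))
    (hA : ∀ b z z', (∀ i, blk i = some b → z i = z' i) → z ∈ A b → z' ∈ A b) :
    closure (rl {z | ∀ b, z ∈ A b}) = ⋂ b, closure (rl (A b)) := by
  classical
  have := Fintype.ofFinite ι
  apply Set.Subset.antisymm
  · refine Set.subset_iInter fun b => closure_mono ?_
    rintro _ ⟨z, hz, rfl⟩
    exact ⟨z, hz b, rfl⟩
  · intro x hx
    rw [Metric.mem_closure_iff]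
    intro ε hε
    have h1 : ∀ b, ∃ z ∈ A b, dist x (fun i => (z i : ℝ)) < ε := by
      intro b
      have h2 := Set.mem_iInter.1 hx b
      rw [Metric.mem_closure_iff] at h2
      obtain ⟨_, ⟨z, hz, rfl⟩, h3⟩ := h2 ε hε
      exact ⟨z, hz, h3⟩
    choose z hz hzx using h1
    have h4 : ∀ i, ∃ q : ℚ, dist (x i) (q : ℝ) < ε := by
      intro i
      have h5 := Rat.denseRange_cast (𝕜 := ℝ) (x i)
      rw [Metric.mem_closure_iff] at h5
      obtain ⟨_, ⟨q, rfl⟩, h6⟩ := h5 ε hε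
      exact ⟨q, h6⟩
    choose q hq using h4
    refine ⟨_, ⟨fun i => (blk i).elim (q i) (fun b => z b i), fun b =>
      hA b (z b) _ (fun i hi => by rw [hi]; rfl) (hz b), rfl⟩, ?_⟩
    rw [dist_pi_lt_iff hε]
    intro i
    rcases hb : blk i with _ | b
    · simp only [hb]
      exact hq i
    · simp only [hb]
      exact (dist_pi_lt_iff hε).1 (hzx b) i

lemma eval_blk {h : MvPolynomial ι ℚ} {P : ι → Prop} (hh : ∀ i, ¬ P i → h.degreeOf i = 0)
    {z z' : ι → ℚ} (hz : ∀ i, P i → z i = z' i) : eval z h = eval z' h := by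
  classical
  refine MvPolynomial.eval₂Hom_congr' rfl (fun i hi _ => ?_) rfl
  by_cases hP : P i
  · exact hz i hP
  · exfalso
    have h1 := hh i hP
    rw [mem_vars] at hi
    obtain ⟨d, hd, hdi⟩ := hi
    have h2 := monomial_le_degreeOf i hd
    rw [h1] at h2
    exact Finsupp.mem_support_iff.1 hdi (Nat.le_zero.1 h2)

/-- the condition given by a set of values -/
def Sd (h : β → MvPolynomial ι ℚ) (D : Set (β → ℚ)) : Set (ι → ℚ) :=
  {z | (fun b => eval z (h b)) ∈ D}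

/-- invariant under multiplication by nonzero squares -/
def Inv (D : Set (β → ℚ)) : Prop :=
  ∀ δ ∈ D, ∀ u : β → ℚ, (∀ b, u b ≠ 0) → (fun b => δ b * u b ^ 2) ∈ D

lemma Sd_eq (h : β → MvPolynomial ι ℚ) {D : Set (β → ℚ)} (hD : Inv D) :
    rl (Sd h D) = ⋃ δ ∈ D, rl (Bx h δ) := by
  ext x
  rw [Set.mem_iUnion₂]
  constructor
  · rintro ⟨z, hz, rfl⟩
    exact ⟨_, hz, z, fun b => ⟨1, one_ne_zero, by ring⟩, rfl⟩
  · rintro ⟨δ, hδ, z, hz, rfl⟩
    choose w hw hwz using hz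
    refine ⟨z, ?_, rfl⟩
    have h1 := hD δ hδ w hw
    have h2 : (fun b => δ b * w b ^ 2) = fun b => eval z (h b) := funext fun b => (hwz b).symm
    rw [h2] at h1
    exact h1

/-- the closures of the sets with given vectors of square classes -/
def CB (h : β → MvPolynomial ι ℚ) : Set (Set (ι → ℝ)) := {W | ∃ δ, W = closure (rl (Bx h δ))}

lemma closure_Sd (h : β → MvPolynomial ι ℚ) (hfin : (CB h).Finite) {D : Set (β → ℚ)}
    (hD : Inv D) : closure (rl (Sd h D)) = ⋃₀ {W | ∃ δ ∈ D, W = closure (rl (Bx h δ))} := by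
  rw [Sd_eq h hD]
  have hf : {W | ∃ δ ∈ D, W = closure (rl (Bx h δ))}.Finite :=
    hfin.subset (by rintro W ⟨δ, -, rfl⟩; exact ⟨δ, rfl⟩)
  apply Set.Subset.antisymm
  · refine closure_minimal ?_ ?_
    · refine Set.iUnion₂_subset fun δ hδ => ?_
      exact subset_closure.trans (Set.subset_sUnion_of_mem ⟨δ, hδ, rfl⟩)
    · rw [Set.sUnion_eq_biUnion]
      refine hf.isClosed_biUnion ?_
      rintro W ⟨δ, -, rfl⟩
      exact isClosed_closure
  · refine Set.sUnion_subset ?_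
    rintro W ⟨δ, hδ, rfl⟩
    exact closure_mono (Set.subset_biUnion_of_mem (u := fun δ => rl (Bx h δ)) hδ)

lemma sUnion_SA {F : Set (Set (ι → ℝ))} (hF : F.Finite) (h : ∀ W ∈ F, SA W) : SA (⋃₀ F) := by
  induction F, hF using Set.Finite.induction_on with
  | empty => rw [Set.sUnion_empty]; exact SA.empty
  | insert ha hs ih =>
    rw [Set.sUnion_insert]
    exact (h _ (Set.mem_insert _ _)).union (ih fun a ha' => h a (Set.mem_insert_of_mem _ ha'))

lemma iInter_SA {A : β → Set (ι → ℝ)} (h : ∀ b, SA (A b)) : SA (⋂ b, A b) := by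
  have h1 : SAP (fun x : ι → ℝ => ∀ b, x ∈ A b) := SAP.forall_fin fun b => h b
  refine SAP.congr (q := fun x => x ∈ ⋂ b, A b) h1 fun x => Set.mem_iInter

lemma Bx_closure (blk : ι → Option β) {h : β → MvPolynomial ι ℚ}
    (hb : ∀ b i, blk i ≠ some b → (h b).degreeOf i = 0) (δ : β → ℚ) :
    closure (rl (Bx h δ)) = ⋂ b, closure (rl {z : ι → ℚ | ∃ w : ℚ, w ≠ 0 ∧
      eval z (h b) = δ b * w ^ 2}) := by
  refine clo_inter blk (fun b => {z : ι → ℚ | ∃ w : ℚ, w ≠ 0 ∧ eval z (h b) = δ b * w ^ 2}) ?_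
  rintro b z z' hzz ⟨w, hw, hwz⟩
  exact ⟨w, hw, by rw [← hwz]; exact (eval_blk (P := fun i => blk i = some b) (hb b) hzz).symm⟩

theorem CB_fin (blk : ι → Option β) {h : β → MvPolynomial ι ℚ}
    (hb : ∀ b i, blk i ≠ some b → (h b).degreeOf i = 0) (hF : ∀ b, Fam (h b)) :
    (CB h).Finite ∧ ∀ W ∈ CB h, SA W := by
  constructor
  · refine ((Set.Finite.pi fun b => (hF b).1).image fun W : β → Set (ι → ℝ) => ⋂ b, W b).subset ?_
    rintro _ ⟨δ, rfl⟩
    exact ⟨fun b => _, fun b _ => ⟨δ b, rfl⟩, (Bx_closure blk hb δ).symm⟩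
  · rintro _ ⟨δ, rfl⟩
    rw [Bx_closure blk hb δ]
    exact iInter_SA fun b => (hF b).2 (δ b)

/-- **Arbitrary conditions modulo squares.** -/
theorem boxes (blk : ι → Option β) {h : β → MvPolynomial ι ℚ}
    (hb : ∀ b i, blk i ≠ some b → (h b).degreeOf i = 0) (hF : ∀ b, Fam (h b)) :
    {W : Set (ι → ℝ) | ∃ D : Set (β → ℚ), Inv D ∧ W = closure (rl (Sd h D))}.Finite ∧
    ∀ D : Set (β → ℚ), Inv D → SA (closure (rl (Sd h D))) := by
  obtain ⟨h1, h2⟩ := CB_fin blk hb hF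
  constructor
  · refine (h1.finite_subsets.image fun F => Set.sUnion F).subset ?_
    rintro _ ⟨D, hD, rfl⟩
    refine ⟨_, ?_, (closure_Sd h h1 hD).symm⟩
    rintro W ⟨δ, -, rfl⟩
    exact ⟨δ, rfl⟩
  · intro D hD
    rw [closure_Sd h h1 hD]
    refine sUnion_SA (h1.subset ?_) ?_
    · rintro W ⟨δ, -, rfl⟩
      exact ⟨δ, rfl⟩
    · rintro W ⟨δ, -, rfl⟩
      exact h2 _ ⟨δ, rfl⟩

/-- **Square roots.** -/
theorem clo_cov {γ : Type} [Finite γ] (S : Set (ι → ℚ)) (φ : γ → MvPolynomial ι ℚ)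
    (hφ : ∀ z ∈ S, ∀ s, ∃ r : ℚ, r ^ 2 = eval z (φ s)) :
    closure (rl {v : γ ⊕ ι → ℚ | (fun i => v (Sum.inr i)) ∈ S ∧
      ∀ s, v (Sum.inl s) ^ 2 = eval (fun i => v (Sum.inr i)) (φ s)}) =
    {x : γ ⊕ ι → ℝ | (fun i => x (Sum.inr i)) ∈ closure (rl S) ∧
      ∀ s, x (Sum.inl s) ^ 2 = aeval (fun i => x (Sum.inr i)) (φ s)} := by
  classical
  have hcφ : ∀ s, Continuous fun x : ι → ℝ => (aeval x (φ s) : ℝ) := fun s =>
    PF.continuous (PF.aeval (φ s))
  have hpr : Continuous fun x : γ ⊕ ι → ℝ => fun i => x (Sum.inr i) := by fun_prop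
  apply Set.Subset.antisymm
  · refine closure_minimal ?_ ?_
    · rintro _ ⟨v, ⟨hv, hs⟩, rfl⟩
      refine ⟨subset_closure ⟨_, hv, rfl⟩, fun s => ?_⟩
      change ((v (Sum.inl s) : ℚ) : ℝ) ^ 2 = aeval (fun i => ((v (Sum.inr i) : ℚ) : ℝ)) (φ s)
      rw [Pool.Agent.TH729.SQ.aeval_cast (fun i => v (Sum.inr i)) (φ s), ← hs s]
      push_cast
      rfl
    · refine (isClosed_closure.preimage hpr).inter ?_
      have : {x : γ ⊕ ι → ℝ | ∀ s, x (Sum.inl s) ^ 2 = aeval (fun i => x (Sum.inr i)) (φ s)} =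
          ⋂ s, {x | x (Sum.inl s) ^ 2 = aeval (fun i => x (Sum.inr i)) (φ s)} := by
        ext x
        simp
      change IsClosed {x : γ ⊕ ι → ℝ | ∀ s, x (Sum.inl s) ^ 2 =
        aeval (fun i => x (Sum.inr i)) (φ s)}
      rw [this]
      refine isClosed_iInter fun s => isClosed_eq ?_ ((hcφ s).comp hpr)
      fun_prop
  · rintro x ⟨hx, hxs⟩
    set ρ : (ι → ℝ) → γ ⊕ ι → ℝ := fun y => Sum.elim
      (fun s => if 0 ≤ x (Sum.inl s) then √(aeval y (φ s)) else -√(aeval y (φ s))) y with hρ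
    have hρc : Continuous ρ := by
      refine continuous_pi fun k => ?_
      rcases k with s | i
      · by_cases h0 : 0 ≤ x (Sum.inl s)
        · have : (fun y => ρ y (Sum.inl s)) = fun y => √(aeval y (φ s)) := by
            funext y
            simp only [hρ, Sum.elim_inl, if_pos h0]
          rw [this]
          exact Real.continuous_sqrt.comp (hcφ s)
        · have : (fun y => ρ y (Sum.inl s)) = fun y => -√(aeval y (φ s)) := by
            funext y
            simp only [hρ, Sum.elim_inl, if_neg h0]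
          rw [this]
          exact (Real.continuous_sqrt.comp (hcφ s)).neg
      · exact continuous_apply i
    have hρx : ρ (fun i => x (Sum.inr i)) = x := by
      funext k
      rcases k with s | i
      · change (if 0 ≤ x (Sum.inl s) then √(aeval (fun i => x (Sum.inr i)) (φ s))
          else -√(aeval (fun i => x (Sum.inr i)) (φ s))) = x (Sum.inl s)
        rw [← hxs s, Real.sqrt_sq_eq_abs]
        split_ifs with h0
        · exact abs_of_nonneg h0
        · rw [abs_of_neg (lt_of_not_ge h0), neg_neg]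
      · rfl
    rw [← hρx]
    refine map_mem_closure hρc hx ?_
    rintro _ ⟨z, hz, rfl⟩
    choose r hr using hφ z hz
    refine ⟨Sum.elim (fun s => if 0 ≤ x (Sum.inl s) then |r s| else -|r s|) z, ⟨hz, fun s => ?_⟩, ?_⟩
    · change (if 0 ≤ x (Sum.inl s) then |r s| else -|r s|) ^ 2 = eval z (φ s)
      rw [← hr s]
      split_ifs
      · exact sq_abs _
      · rw [neg_sq, sq_abs]
    · funext k
      rcases k with s | i
      · change (if 0 ≤ x (Sum.inl s) then √(aeval (fun i => (z i : ℝ)) (φ s))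
          else -√(aeval (fun i => (z i : ℝ)) (φ s))) =
          (((if 0 ≤ x (Sum.inl s) then |r s| else -|r s|) : ℚ) : ℝ)
        rw [Pool.Agent.TH729.SQ.aeval_cast z (φ s), ← hr s]
        have h5 : √(((r s ^ 2 : ℚ)) : ℝ) = ((|r s| : ℚ) : ℝ) := by
          push_cast
          exact Real.sqrt_sq_eq_abs _
        rw [h5]
        split_ifs
        · rfl
        · push_cast
          rfl
      · rfl

/-- a monomial in the values -/
noncomputable def mono {γ : Type} (h : β → MvPolynomial ι ℚ) [Fintype β] (c : γ → ℚ)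
    (E : γ → β → ℕ) (s : γ) : MvPolynomial ι ℚ := C (c s) * ∏ b, h b ^ E s b

/-- **The varieties given by square roots of products.** -/
theorem roots {γ : Type} [Finite γ] [Fintype β] (blk : ι → Option β) {h : β → MvPolynomial ι ℚ}
    (hb : ∀ b i, blk i ≠ some b → (h b).degreeOf i = 0) (hF : ∀ b, Fam (h b)) (c : γ → ℚ)
    (E : γ → β → ℕ) (D : Set (β → ℚ)) (hD : Inv D) :
    SA (closure (rl {v : γ ⊕ ι → ℚ | (fun b => eval (fun i => v (Sum.inr i)) (h b)) ∈ D ∧
      ∀ s, v (Sum.inl s) ^ 2 = c s * ∏ b, eval (fun i => v (Sum.inr i)) (h b) ^ E s b})) := by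
  classical
  set D' : Set (β → ℚ) := {δ | δ ∈ D ∧ ∀ s, ∃ r : ℚ, r ^ 2 = c s * ∏ b, δ b ^ E s b} with hD'
  have hInv : Inv D' := by
    rintro δ ⟨h1, h2⟩ u hu
    refine ⟨hD δ h1 u hu, fun s => ?_⟩
    obtain ⟨r, hr⟩ := h2 s
    refine ⟨r * ∏ b, u b ^ E s b, ?_⟩
    rw [mul_pow, hr, ← Finset.prod_pow, mul_assoc, ← Finset.prod_mul_distrib]
    congr 1
    refine Finset.prod_congr rfl fun b _ => ?_
    ring
  have hev : ∀ (z : ι → ℚ) s, eval z (mono h c E s) = c s * ∏ b, eval z (h b) ^ E s b := by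
    intro z s
    unfold mono
    rw [map_mul, eval_C, map_prod]
    simp only [map_pow]
  have h1 := clo_cov (γ := γ) (Sd h D') (mono h c E) (by
    rintro z ⟨-, h2⟩ s
    obtain ⟨r, hr⟩ := h2 s
    exact ⟨r, by rw [hr, hev]⟩)
  have h2 : {v : γ ⊕ ι → ℚ | (fun i => v (Sum.inr i)) ∈ Sd h D' ∧
      ∀ s, v (Sum.inl s) ^ 2 = eval (fun i => v (Sum.inr i)) (mono h c E s)} =
      {v : γ ⊕ ι → ℚ | (fun b => eval (fun i => v (Sum.inr i)) (h b)) ∈ D ∧
      ∀ s, v (Sum.inl s) ^ 2 = c s * ∏ b, eval (fun i => v (Sum.inr i)) (h b) ^ E s b} := by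
    ext v
    constructor
    · rintro ⟨⟨h3, -⟩, h4⟩
      exact ⟨h3, fun s => by rw [h4 s, hev]⟩
    · rintro ⟨h3, h4⟩
      exact ⟨⟨h3, fun s => ⟨_, h4 s⟩⟩, fun s => by rw [h4 s, hev]⟩
  rw [← h2, h1]
  refine SAP.and ?_ (SAP.forall_fin fun s => ?_)
  · exact SAP.preimage (p := fun x => x ∈ closure (rl (Sd h D')))
      ((boxes blk hb hF).2 D' hInv) (fun i => PF.coord _)
  · refine SAP.eq ((PF.coord _).pow 2) ?_
    exact (PF.aeval (mono h c E s)).comp (φ := fun (w : γ ⊕ ι → ℝ) i => w (Sum.inr i))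
      (fun i => PF.coord _)

end gen

end Pool.Agent.D0H62.IT
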