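import Pool.Agent.Y718.FG

/-!
# The kernel of reduction in a ramified situation
-/

set_option autoImplicit false
set_option linter.unusedSectionVars false
set_option linter.unusedVariables false

open WeierstrassCurve Filter Topology Pool.Agent.Y720.MZ Pool.Agent.Y718.X

namespace Pool.Agent.D0H62.IT

variable {K : Type*} [Field K] [DecidableEq K] {v : AbsoluteValue K ℝ}

/-- the sum of two different points of the kernel of reduction -/
lemma chord_step (hv : IsNonarchimedean v) {a b c : K} (ha : v a ≤ 1) (hb : v b ≤ 1)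
    (hc : v c ≤ 1) {x y x' y' : K} (h : (cv a b c).toAffine.Nonsingular x y)
    (h' : (cv a b c).toAffine.Nonsingular x' y') (hx1 : 1 < v x) (hx' : 1 < v x')
    (ht1 : v (x' / y') ≤ v (x / y)) (hxx : x' ≠ x) (htt : x' / y' ≠ x / y) :
    ∃ x'' y'' h'', (.some x' y' h' : Pt a b c) + .some x y h = .some x'' y'' h'' ∧ 1 < v x'' ∧
      v (x'' / y'' - (x' / y' + x / y)) ≤ v (x / y) ^ 3 := by
  have heq := (cv_ns.1 h).1
  obtain ⟨hy, h1, h2, h3, h4⟩ := val_ts hv ha hb hc hx1 heq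
  have heq' := (cv_ns.1 h').1
  obtain ⟨hy', h1', h2', h3', h4'⟩ := val_ts hv ha hb hc hx' heq'
  have hxx' : x' - x ≠ 0 := sub_ne_zero.2 hxx
  set ℓ := (y' - y) / (x' - x) with hℓ
  have hℓ' : ℓ * (x' - x) = y' - y := div_mul_cancel₀ _ hxx'
  set ν := y' - ℓ * x' with hν
  have hy1 : y' = ℓ * x' + ν := by rw [hν]; ring
  have hy2 : y = ℓ * x + ν := by rw [hν]; linear_combination hℓ'
  obtain ⟨hν0, b1, b2⟩ := chord_bound hv ha hb hc h3 h2 hx' hx1 hxx heq' heq hy1 hy2 ht1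
    le_rfl htt
  obtain ⟨v1, v2⟩ := vieta_chord hxx heq' heq hy1 hy2
  obtain ⟨w1, w2, w3⟩ := third_close hv ha hb hc (x₁ := x') (x₂ := x)
    (x₃ := ℓ ^ 2 - a - x' - x) (ℓ := ℓ) (ν := ν) (by ring) v1 v2 h3 h2 hν0 b1 b2
    (by rw [← hy1]; exact hy') (by rw [← hy2]; exact hy) (by rw [← hy1]; exact ht1)
    (by rw [← hy2])
  obtain ⟨hns, hadd⟩ := add_mk h' h hxx hℓ'
  have e3 : -(ℓ * (ℓ ^ 2 - a - x' - x - x') + y') = -(ℓ * (ℓ ^ 2 - a - x' - x) + ν) := by
    rw [hν]; ring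
  refine ⟨_, _, hns, hadd, ?_, ?_⟩
  · refine one_lt_of_y hv ha hb hc ?_ (cv_ns.1 hns).1
    rw [e3, v.map_neg]
    exact w2
  · rw [e3, div_neg]
    rw [← hy1, ← hy2] at w3
    have e4 : -((ℓ ^ 2 - a - x' - x) / (ℓ * (ℓ ^ 2 - a - x' - x) + ν)) - (x' / y' + x / y) =
        -((ℓ ^ 2 - a - x' - x) / (ℓ * (ℓ ^ 2 - a - x' - x) + ν) + x' / y' + x / y) := by ring
    rw [e4, v.map_neg]
    exact w3

/-- the double of a point of the kernel of reduction -/
lemma tangent_step (hv : IsNonarchimedean v) {a b c : K} (ha : v a ≤ 1) (hb : v b ≤ 1)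
    (hc : v c ≤ 1) (h22 : v (2 : K) = 1) {x y : K} (h : (cv a b c).toAffine.Nonsingular x y)
    (hx1 : 1 < v x) :
    ∃ x'' y'' h'', (.some x y h : Pt a b c) + .some x y h = .some x'' y'' h'' ∧ 1 < v x'' ∧
      v (x'' / y'' - (x / y + x / y)) ≤ v (x / y) ^ 3 := by
  have heq := (cv_ns.1 h).1
  obtain ⟨hy, h1, h2, h3, h4⟩ := val_ts hv ha hb hc hx1 heq
  have h20 : (2 : K) ≠ 0 := by
    intro h0; rw [h0, map_zero] at h22; exact zero_ne_one h22
  have hy2 : 2 * y ≠ 0 := mul_ne_zero h20 hy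
  set ℓ := (3 * x ^ 2 + 2 * a * x + b) / (2 * y) with hℓ
  have hℓ' : ℓ * (2 * y) = 3 * x ^ 2 + 2 * a * x + b := div_mul_cancel₀ _ hy2
  set ν := y - ℓ * x with hν
  have hy1 : y = ℓ * x + ν := by rw [hν]; ring
  obtain ⟨hν0, b1, b2⟩ := tangent_bound hv ha hb hc h22 hx1 heq hy1 hℓ' (le_refl (v (x / y)))
  obtain ⟨v1, v2⟩ := vieta_tangent heq hy1 hℓ'
  obtain ⟨w1, w2, w3⟩ := third_close hv ha hb hc (x₁ := x) (x₂ := x)
    (x₃ := ℓ ^ 2 - a - x - x) (ℓ := ℓ) (ν := ν) (by ring) v1 v2 h3 h2 hν0 b1 b2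
    (by rw [← hy1]; exact hy) (by rw [← hy1]; exact hy) (by rw [← hy1])
    (by rw [← hy1])
  obtain ⟨hns, hadd⟩ := dbl_mk h hy2 hℓ'
  have e3 : -(ℓ * (ℓ ^ 2 - a - x - x - x) + y) = -(ℓ * (ℓ ^ 2 - a - x - x) + ν) := by
    rw [hν]; ring
  refine ⟨_, _, hns, hadd, ?_, ?_⟩
  · refine one_lt_of_y hv ha hb hc ?_ (cv_ns.1 hns).1
    rw [e3, v.map_neg]
    exact w2
  · rw [e3, div_neg]
    rw [← hy1] at w3
    have e4 : -((ℓ ^ 2 - a - x - x) / (ℓ * (ℓ ^ 2 - a - x - x) + ν)) - (x / y + x / y) =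
        -((ℓ ^ 2 - a - x - x) / (ℓ * (ℓ ^ 2 - a - x - x) + ν) + x / y + x / y) := by
      ring
    rw [e4, v.map_neg]
    exact w3

/-- the multiples of a point of the kernel of reduction -/
theorem mult_small (hv : IsNonarchimedean v) {a b c : K} (ha : v a ≤ 1) (hb : v b ≤ 1)
    (hc : v c ≤ 1) {p : ℕ} (hp3 : 3 ≤ p) (hp : ∀ k : ℕ, 1 ≤ k → k < p → v (k : K) = 1)
    {x y : K} (h : (cv a b c).toAffine.Nonsingular x y) (hx1 : 1 < v x) :
    ∀ n : ℕ, 1 ≤ n → n < p → ∃ x' y' h', n • (.some x y h : Pt a b c) = .some x' y' h' ∧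
      1 < v x' ∧ v (x' / y' - n * (x / y)) ≤ v (x / y) ^ 3 := by
  have heq := (cv_ns.1 h).1
  obtain ⟨hy, h1, h2, h3, h4⟩ := val_ts hv ha hb hc hx1 heq
  set r := v (x / y) with hr
  have hr3r : r ^ 3 ≤ r := by
    calc r ^ 3 = r ^ 2 * r := by ring
      _ ≤ 1 * r := by gcongr; exact pow_le_one₀ h3.le h2.le
      _ = r := one_mul r
  have hbig : ∀ k : ℕ, 1 ≤ k → k < p → ¬ v ((k : K) * (x / y)) ≤ r ^ 3 := by
    intro k hk1 hk2 hcon
    rw [map_mul, ← hr, hp k hk1 hk2, one_mul] at hcon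
    have : r ^ 2 < 1 := pow_lt_one₀ h3.le h2 two_ne_zero
    nlinarith
  intro n hn
  induction n, hn using Nat.le_induction with
  | base =>
    intro _
    refine ⟨x, y, h, one_smul _ _, hx1, ?_⟩
    rw [Nat.cast_one, one_mul, sub_self, map_zero]
    positivity
  | succ n hn ih =>
    intro hnp
    obtain ⟨x', y', h', he, hx', ht'⟩ := ih (by omega)
    have heq' := (cv_ns.1 h').1
    obtain ⟨hy', h1', h2', h3', h4'⟩ := val_ts hv ha hb hc hx' heq'
    have ht1 : v (x' / y') ≤ r := by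
      have e : x' / y' = (x' / y' - n * (x / y)) + n * (x / y) := by ring
      rw [e]
      refine na_add hv (ht'.trans hr3r) ?_
      rw [map_mul, ← hr]
      exact mul_le_of_le_one_left h3.le (na_nat hv n)
    rcases hn.lt_or_eq with hn2 | hn1
    · have hxx : x' ≠ x := by
        intro hxx
        subst hxx
        rcases eq_or_neg h' h with h5 | h5
        · rw [Affine.Point.some.injEq] at h5
          have h6 : x' / y' - n * (x' / y) = -((n - 1 : ℕ) * (x' / y)) := by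
            rw [h5.2, Nat.cast_sub hn]; push_cast; ring
          rw [h6, v.map_neg] at ht'
          exact hbig (n - 1) (by omega) (by omega) ht'
        · obtain ⟨h7, h8⟩ := neg_mk h
          rw [h8, Affine.Point.some.injEq] at h5
          have h6 : x' / y' - n * (x' / y) = -((n + 1 : ℕ) * (x' / y)) := by
            rw [h5.2, div_neg]; push_cast; ring
          rw [h6, v.map_neg] at ht'
          exact hbig (n + 1) (by omega) (by omega) ht'
      have htt : x' / y' ≠ x / y := by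
        intro htt
        have h6 : x' / y' - n * (x / y) = -((n - 1 : ℕ) * (x / y)) := by
          rw [htt, Nat.cast_sub hn]; push_cast; ring
        rw [h6, v.map_neg] at ht'
        exact hbig (n - 1) (by omega) (by omega) ht'
      obtain ⟨x'', y'', h'', e1, e2, e3⟩ := chord_step hv ha hb hc h h' hx1 hx' ht1 hxx htt
      refine ⟨x'', y'', h'', by rw [add_smul, one_smul, he, e1], e2, ?_⟩
      have e4 : x'' / y'' - ((n + 1 : ℕ) : K) * (x / y) =
          (x'' / y'' - (x' / y' + x / y)) + (x' / y' - n * (x / y)) := by push_cast; ring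
      rw [e4]
      exact na_add hv e3 ht'
    · subst hn1
      have h22 : v (2 : K) = 1 := by exact_mod_cast hp 2 (by norm_num) (by omega)
      obtain ⟨x'', y'', h'', e1, e2, e3⟩ := tangent_step hv ha hb hc h22 h hx1
      refine ⟨x'', y'', h'', by rw [add_smul, one_smul, e1], e2, ?_⟩
      have e4 : x'' / y'' - ((1 + 1 : ℕ) : K) * (x / y) = x'' / y'' - (x / y + x / y) := by
        push_cast; ring
      rw [e4]
      exact e3

/-- the multiple by `p` -/
theorem mult_p (hv : IsNonarchimedean v) {a b c : K} (ha : v a ≤ 1) (hb : v b ≤ 1)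
    (hc : v c ≤ 1) {p : ℕ} (hp3 : 3 ≤ p) (hp : ∀ k : ℕ, 1 ≤ k → k < p → v (k : K) = 1)
    {x y : K} (h : (cv a b c).toAffine.Nonsingular x y) (hx1 : 1 < v x) :
    p • (.some x y h : Pt a b c) = 0 ∨ ∃ x' y' h', p • (.some x y h : Pt a b c) = .some x' y' h' ∧
      1 < v x' ∧ v (x' / y' - p * (x / y)) ≤ v (x / y) ^ 3 := by
  have heq := (cv_ns.1 h).1
  obtain ⟨hy, h1, h2, h3, h4⟩ := val_ts hv ha hb hc hx1 heq
  obtain ⟨x', y', h', he, hx', ht'⟩ := mult_small hv ha hb hc hp3 hp h hx1 (p - 1) (by omega)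
    (by omega)
  have heq' := (cv_ns.1 h').1
  obtain ⟨hy', h1', h2', h3', h4'⟩ := val_ts hv ha hb hc hx' heq'
  set r := v (x / y) with hr
  have hr3r : r ^ 3 ≤ r := by
    calc r ^ 3 = r ^ 2 * r := by ring
      _ ≤ 1 * r := by gcongr; exact pow_le_one₀ h3.le h2.le
      _ = r := one_mul r
  have hbig : ∀ k : ℕ, 1 ≤ k → k < p → ¬ v ((k : K) * (x / y)) ≤ r ^ 3 := by
    intro k hk1 hk2 hcon
    rw [map_mul, ← hr, hp k hk1 hk2, one_mul] at hcon
    have : r ^ 2 < 1 := pow_lt_one₀ h3.le h2 two_ne_zero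
    nlinarith
  have hsum : p • (.some x y h : Pt a b c) = .some x' y' h' + .some x y h := by
    rw [← he]
    conv_lhs => rw [show p = (p - 1) + 1 by omega, add_smul, one_smul]
  have hc1 : ((p - 1 : ℕ) : K) = (p : K) - 1 := by
    rw [Nat.cast_sub (by omega)]; push_cast; ring
  have ht1 : v (x' / y') ≤ r := by
    have e : x' / y' = (x' / y' - ((p - 1 : ℕ) : K) * (x / y)) + ((p - 1 : ℕ) : K) * (x / y) := by
      ring
    rw [e]
    refine na_add hv (ht'.trans hr3r) ?_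
    rw [map_mul, ← hr]
    exact mul_le_of_le_one_left h3.le (na_nat hv _)
  have hc2 : ((p - 2 : ℕ) : K) = (p : K) - 2 := by
    rw [Nat.cast_sub (by omega)]; push_cast; ring
  have htt : x' / y' ≠ x / y := by
    intro htt
    have h6 : x' / y' - ((p - 1 : ℕ) : K) * (x / y) = -(((p - 2 : ℕ) : K) * (x / y)) := by
      rw [htt, hc1, hc2]; ring
    rw [h6, v.map_neg] at ht'
    exact hbig (p - 2) (by omega) (by omega) ht'
  by_cases hxx : x' = x
  · left
    subst hxx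
    rcases eq_or_neg h' h with h5 | h5
    · exfalso
      rw [Affine.Point.some.injEq] at h5
      exact htt (by rw [h5.2])
    · rw [hsum, h5, neg_add_cancel]
  · right
    obtain ⟨x'', y'', h'', e1, e2, e3⟩ := chord_step hv ha hb hc h h' hx1 hx' ht1 hxx htt
    refine ⟨x'', y'', h'', by rw [hsum, e1], e2, ?_⟩
    have e4 : x'' / y'' - (p : K) * (x / y) =
        (x'' / y'' - (x' / y' + x / y)) + (x' / y' - ((p - 1 : ℕ) : K) * (x / y)) := by
      rw [hc1]; ring
    rw [e4]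
    exact na_add hv e3 ht'

end Pool.Agent.D0H62.IT
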