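import Pool.Agent.D0H6.TC.Dyn
import Pool.Agent.D0H62.IT.Ker
import Pool.Agent.Y718.GY

/-!
# Explicit torsion for the invariants 0 and 1728
-/

set_option autoImplicit false
set_option linter.unusedSectionVars false
set_option linter.unusedVariables false

open WeierstrassCurve Pool.Agent.Y720.MZ Pool.Agent.Y718.X Pool.Agent.D0H6.TC

namespace Pool.Agent.D0H62.IT

/-- the doubling map on `X² / k` for `Y² = X³ + k X` -/
def db2 (r : ℚ) : ℚ := (r - 1) ^ 4 / (16 * r * (r + 1) ^ 2)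

/-- no torsion -/
structure N2 (r : ℚ) : Prop where
  z : r ≠ 0
  m : r ≠ -1
  e : r ≠ 1

lemma v_16 : v 16 = 4 := by
  have := v_tw 4 (m := 1) (by norm_num)
  norm_num at this
  exact_mod_cast this

lemma v_db2 {r : ℚ} (h : N2 r) :
    db2 r ≠ 0 ∧ v (db2 r) = 4 * v (r - 1) - (4 + v r + 2 * v (r + 1)) := by
  have h0 := h.z
  have h1 : r + 1 ≠ 0 := fun h1 => h.m (by linarith)
  have h2 : r - 1 ≠ 0 := fun h1 => h.e (by linarith)
  refine ⟨?_, ?_⟩
  · unfold db2
    positivity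
  · unfold db2
    rw [v_div (by positivity) (by positivity), v_pow h2, v_mul (by positivity) (by positivity),
      v_mul (by norm_num) h0, v_pow h1, v_16]
    push_cast
    ring

lemma db2_neg {r : ℚ} (h : N2 r) (hv : v r < 0) : v (db2 r) = v r - 4 := by
  have h0 := h.z
  have e1 : v (r + 1) = v r := (va h0 one_ne_zero (by rw [v_one]; exact hv)).2
  have e2 : v (r - 1) = v r := by
    have := (va h0 (y := -1) (by norm_num) (by rw [v_neg, v_one]; exact hv)).2
    rwa [← sub_eq_add_neg] at this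
  rw [(v_db2 h).2, e1, e2]
  ring

lemma db2_pos {r : ℚ} (h : N2 r) (hv : 0 < v r) : v (db2 r) = - 4 - v r := by
  have h0 := h.z
  have e1 : v (r + 1) = 0 := by
    have := (va one_ne_zero h0 (by rw [v_one]; exact hv)).2
    rw [add_comm, this, v_one]
  have e2 : v (r - 1) = 0 := by
    have := (va (x := -1) (by norm_num) h0 (by rw [v_neg, v_one]; exact hv)).2
    have e : r - 1 = -1 + r := by ring
    rw [e, this, v_neg, v_one]
  rw [(v_db2 h).2, e1, e2]
  ring

lemma db2_zero {r : ℚ} (h : N2 r) (hv : v r = 0) : v (db2 r) ≠ 0 := by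
  have h0 := h.z
  have h1 : r + 1 ≠ 0 := fun h1 => h.m (by linarith)
  have h2 : r - 1 ≠ 0 := fun h1 => h.e (by linarith)
  have a1 : 1 ≤ v (r + 1) := v_odd_add h0 one_ne_zero hv v_one h1
  have a2 : 1 ≤ v (r - 1) := by
    have e : r - 1 = r + (-1) := by ring
    rw [e]
    exact v_odd_add h0 (by norm_num) hv (by rw [v_neg, v_one]) (by rwa [← e])
  -- one of the two valuations is one
  have a3 : v (r + 1) = 1 ∨ v (r - 1) = 1 := by
    by_contra hcon
    push Not at hcon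
    have b1 : 2 ≤ v (r + 1) := by omega
    have b2 : 2 ≤ v (r - 1) := by omega
    have e : (r + 1) + -(r - 1) = 2 := by ring
    have hs : (r + 1) + -(r - 1) ≠ 0 := by rw [e]; norm_num
    have := vmin hs
    rw [e, v_neg, v_two] at this
    omega
  rw [(v_db2 h).2, hv]
  rcases a3 with a3 | a3
  · rw [a3]
    omega
  · rw [a3]
    omega

lemma n2_of_v {r : ℚ} (h0 : r ≠ 0) (h : v r ≠ 0) : N2 r := by
  refine ⟨h0, ?_, ?_⟩
  · rintro rfl
    rw [v_neg, v_one] at h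
    exact h rfl
  · rintro rfl
    exact h v_one

lemma step2 {r : ℚ} (h : N2 r) : N2 (db2 r) ∧ v (db2 (db2 r)) < 0 := by
  have h0 := (v_db2 h).1
  have hne : v (db2 r) ≠ 0 := by
    rcases lt_trichotomy (v r) 0 with h1 | h1 | h1
    · rw [db2_neg h h1]; omega
    · exact db2_zero h h1
    · rw [db2_pos h h1]; omega
  have hN := n2_of_v h0 hne
  refine ⟨hN, ?_⟩
  rcases lt_or_gt_of_ne hne with h1 | h1
  · rw [db2_neg hN h1]; omega
  · rw [db2_pos hN h1]; omega

theorem orbit2 {u : ℕ → ℚ} (h0 : N2 (u 0)) (h : ∀ n, u (n + 1) = db2 (u n)) :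
    Function.Injective fun n => u (n + 2) := by
  have hN : ∀ n, N2 (u n) := by
    intro n
    induction n with
    | zero => exact h0
    | succ n ih => rw [h]; exact (step2 ih).1
  have hv : ∀ n, v (u (n + 2)) < 0 := by
    intro n
    rw [h, h]
    exact (step2 (hN n)).2
  have hm : StrictMono fun n => - v (u (n + 2)) := by
    refine strictMono_nat_of_lt_succ fun n => ?_
    have h1 : u (n + 1 + 2) = db2 (u (n + 2)) := h (n + 2)
    have h2 := db2_neg (hN (n + 2)) (hv n)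
    simp only [h1, h2]
    omega
  intro i j hij
  exact hm.injective (by simp only [hij])

section pts

variable {a b c : ℚ}

/-- a function which takes infinitely many values on the doubles of a point -/
lemma inf_of_orbit {P : Pt a b c} {φ : Pt a b c → ℚ} {k : ℕ}
    (h : Function.Injective fun n : ℕ => φ ((2 ^ (n + k)) • P)) (m : ℕ) (hm : m ≠ 0) :
    m • P ≠ 0 := by
  intro h0
  have h1 : (Set.range fun n : ℕ => (2 ^ (n + k)) • P).Finite := by
    refine (((Finset.range m).image fun j => j • P).finite_toSet).subset ?_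
    rintro _ ⟨n, rfl⟩
    simp only [Finset.coe_image, Set.mem_image, Finset.coe_range, Set.mem_Iio]
    exact ⟨_, Nat.mod_lt _ (Nat.pos_of_ne_zero hm), (nsmul_eq_mod_nsmul _ h0).symm⟩
  exact Set.infinite_range_of_injective (f := fun n : ℕ => (2 ^ (n + k)) • P)
    (fun i j hij => h (congrArg φ hij)) h1

/-- the invariant of a point for `j = 0` -/
def r0 (a b c : ℚ) : Pt a b c → ℚ
  | 0 => 0
  | .some x _ _ => (3 * x + a) ^ 3 / (27 * c - a ^ 3)

/-- the invariant of a point for `j = 1728` -/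
def r1 (a b c : ℚ) : Pt a b c → ℚ
  | 0 => 0
  | .some x _ _ => (3 * x + a) ^ 2 / (9 * b - 3 * a ^ 2)

lemma eq0 (hj : a ^ 2 = 3 * b) {x y : ℚ} (h : y ^ 2 = x ^ 3 + a * x ^ 2 + b * x + c) :
    27 * y ^ 2 = (3 * x + a) ^ 3 + (27 * c - a ^ 3) := by
  linear_combination 27 * h - 9 * x * hj

lemma eq1 (hj : 27 * c - 9 * a * b + 2 * a ^ 3 = 0) {x y : ℚ}
    (h : y ^ 2 = x ^ 3 + a * x ^ 2 + b * x + c) :
    27 * y ^ 2 = (3 * x + a) * ((3 * x + a) ^ 2 + (9 * b - 3 * a ^ 2)) := by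
  linear_combination 27 * h + hj

/-- doubling for `j = 0` -/
lemma dbl0 (hj : a ^ 2 = 3 * b) {x y : ℚ} (h : (cv a b c).toAffine.Nonsingular x y)
    (hy : y ≠ 0) : ∃ x' y' h', (.some x y h : Pt a b c) + .some x y h = .some x' y' h' ∧
      (3 * x' + a) * (4 * ((3 * x + a) ^ 3 + (27 * c - a ^ 3))) =
        (3 * x + a) * ((3 * x + a) ^ 3 - 8 * (27 * c - a ^ 3)) := by
  have hy2 : 2 * y ≠ 0 := mul_ne_zero two_ne_zero hy
  set ℓ := (3 * x ^ 2 + 2 * a * x + b) / (2 * y) with hℓ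
  have hℓ' : ℓ * (2 * y) = 3 * x ^ 2 + 2 * a * x + b := div_mul_cancel₀ _ hy2
  obtain ⟨hns, hadd⟩ := dbl_mk h hy2 hℓ'
  refine ⟨_, _, hns, hadd, ?_⟩
  have e0 := eq0 hj (cv_ns.1 h).1
  have e1 : 3 * (ℓ * (2 * y)) = (3 * x + a) ^ 2 := by
    rw [hℓ']
    linear_combination -hj
  have e2 : 9 * (ℓ ^ 2 * (4 * y ^ 2)) = (3 * x + a) ^ 4 := by
    linear_combination (3 * (ℓ * (2 * y)) + (3 * x + a) ^ 2) * e1
  rw [← e0]
  have e3 : (3 * x + a) ^ 3 = 27 * y ^ 2 - (27 * c - a ^ 3) := by linear_combination -e0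
  have e4 : (3 * x + a) ^ 4 = (3 * x + a) * (27 * y ^ 2 - (27 * c - a ^ 3)) := by
    rw [← e3]; ring
  have e5 : (3 * x + a) * ((3 * x + a) ^ 3 - 8 * (27 * c - a ^ 3)) =
      (3 * x + a) * (27 * y ^ 2 - 9 * (27 * c - a ^ 3)) := by
    rw [e3]; ring
  rw [e5]
  linear_combination 9 * e2 + 9 * e4

/-- doubling for `j = 1728` -/
lemma dbl1 (hj : 27 * c - 9 * a * b + 2 * a ^ 3 = 0) {x y : ℚ}
    (h : (cv a b c).toAffine.Nonsingular x y)
    (hy : y ≠ 0) : ∃ x' y' h', (.some x y h : Pt a b c) + .some x y h = .some x' y' h' ∧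
      (3 * x' + a) * (4 * ((3 * x + a) * ((3 * x + a) ^ 2 + (9 * b - 3 * a ^ 2)))) =
        ((3 * x + a) ^ 2 - (9 * b - 3 * a ^ 2)) ^ 2 := by
  have hy2 : 2 * y ≠ 0 := mul_ne_zero two_ne_zero hy
  set ℓ := (3 * x ^ 2 + 2 * a * x + b) / (2 * y) with hℓ
  have hℓ' : ℓ * (2 * y) = 3 * x ^ 2 + 2 * a * x + b := div_mul_cancel₀ _ hy2
  obtain ⟨hns, hadd⟩ := dbl_mk h hy2 hℓ'
  refine ⟨_, _, hns, hadd, ?_⟩
  have e0 := eq1 hj (cv_ns.1 h).1
  have e1 : 9 * (ℓ * (2 * y)) = 3 * (3 * x + a) ^ 2 + (9 * b - 3 * a ^ 2) := by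
    rw [hℓ']
    ring
  have e2 : 81 * (ℓ ^ 2 * (4 * y ^ 2)) = (3 * (3 * x + a) ^ 2 + (9 * b - 3 * a ^ 2)) ^ 2 := by
    linear_combination (9 * (ℓ * (2 * y)) + 3 * (3 * x + a) ^ 2 + (9 * b - 3 * a ^ 2)) * e1
  rw [← e0]
  have e3 : 3 * (ℓ ^ 2 - a - x - x) + a = 3 * ℓ ^ 2 - 2 * (3 * x + a) := by ring
  rw [e3]
  linear_combination e2 - 8 * (3 * x + a) * e0

lemma some_ne {x y : ℚ} (h : (cv a b c).toAffine.Nonsingular x y) :
    (.some x y h : Pt a b c) ≠ 0 := Affine.Point.some_ne_zero h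

/-- the orbit for `j = 0` -/
theorem nontors0 (hj : a ^ 2 = 3 * b) (hL : 27 * c - a ^ 3 ≠ 0) {x y : ℚ}
    (h : (cv a b c).toAffine.Nonsingular x y)
    (hN : Nt ((3 * x + a) ^ 3 / (27 * c - a ^ 3))) (m : ℕ) (hm : m ≠ 0) :
    m • (.some x y h : Pt a b c) ≠ 0 := by
  set P : Pt a b c := .some x y h with hP
  have key : ∀ Q : Pt a b c, Q ≠ 0 → Nt (r0 a b c Q) → Q + Q ≠ 0 ∧ r0 a b c (Q + Q) =
      dbl (r0 a b c Q) := by
    intro Q hQ0 hQ
    rcases Q with _ | ⟨x, y, h⟩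
    · exact absurd rfl hQ0
    · have hQ' : Nt ((3 * x + a) ^ 3 / (27 * c - a ^ 3)) := hQ
      have e0 := eq0 hj (cv_ns.1 h).1
      have hy : y ≠ 0 := by
        rintro rfl
        apply hQ'.m
        rw [div_eq_iff hL]
        linear_combination -e0
      obtain ⟨x', y', h', hadd, he⟩ := dbl0 hj h hy
      rw [hadd]
      refine ⟨some_ne h', ?_⟩
      change (3 * x' + a) ^ 3 / (27 * c - a ^ 3) = dbl ((3 * x + a) ^ 3 / (27 * c - a ^ 3))
      set L := 27 * c - a ^ 3 with hLd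
      set ξ := 3 * x + a with hξ
      set ξ' := 3 * x' + a with hξ'
      have hS : ξ ^ 3 + L ≠ 0 := by
        rw [← e0]
        positivity
      have hξ'e : ξ' = ξ * (ξ ^ 3 - 8 * L) / (4 * (ξ ^ 3 + L)) := by
        rw [eq_div_iff (mul_ne_zero (by norm_num) hS)]
        exact he
      rw [hξ'e]
      unfold dbl
      have hS' : ξ ^ 3 / L + 1 ≠ 0 := by
        intro h0
        apply hS
        field_simp at h0
        linarith
      field_simp
      ring
  have hall : ∀ n : ℕ, (2 ^ n) • P ≠ 0 ∧ Nt (r0 a b c ((2 ^ n) • P)) := by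
    intro n
    induction n with
    | zero =>
      rw [pow_zero, one_smul]
      exact ⟨some_ne h, hN⟩
    | succ n ih =>
      rw [pow_succ, mul_two, add_smul]
      obtain ⟨h1, h2⟩ := key _ ih.1 ih.2
      refine ⟨h1, ?_⟩
      rw [h2]
      exact (step ih.2).nt
  refine inf_of_orbit (φ := r0 a b c) (k := 1) ?_ m hm
  refine orbit_injective (u := fun n => r0 a b c ((2 ^ n) • P)) (hall 0).2 fun n => ?_
  rw [pow_succ, mul_two, add_smul]
  exact (key _ (hall n).1 (hall n).2).2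

/-- the orbit for `j = 1728` -/
theorem nontors1 (hj : 27 * c - 9 * a * b + 2 * a ^ 3 = 0) (hK : 9 * b - 3 * a ^ 2 ≠ 0) {x y : ℚ}
    (h : (cv a b c).toAffine.Nonsingular x y)
    (hN : N2 ((3 * x + a) ^ 2 / (9 * b - 3 * a ^ 2))) (m : ℕ) (hm : m ≠ 0) :
    m • (.some x y h : Pt a b c) ≠ 0 := by
  set P : Pt a b c := .some x y h with hP
  have key : ∀ Q : Pt a b c, Q ≠ 0 → N2 (r1 a b c Q) → Q + Q ≠ 0 ∧ r1 a b c (Q + Q) =
      db2 (r1 a b c Q) := by
    intro Q hQ0 hQ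
    rcases Q with _ | ⟨x, y, h⟩
    · exact absurd rfl hQ0
    · have hQ' : N2 ((3 * x + a) ^ 2 / (9 * b - 3 * a ^ 2)) := hQ
      have e0 := eq1 hj (cv_ns.1 h).1
      have hξ0 : 3 * x + a ≠ 0 := by
        intro h0
        apply hQ'.z
        rw [h0]
        ring
      have hs0 : (3 * x + a) ^ 2 + (9 * b - 3 * a ^ 2) ≠ 0 := by
        intro h0
        apply hQ'.m
        rw [div_eq_iff hK]
        linear_combination h0
      have hy : y ≠ 0 := by
        rintro rfl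
        have : (3 * x + a) * ((3 * x + a) ^ 2 + (9 * b - 3 * a ^ 2)) = 0 := by
          rw [← e0]; ring
        exact mul_ne_zero hξ0 hs0 this
      obtain ⟨x', y', h', hadd, he⟩ := dbl1 hj h hy
      rw [hadd]
      refine ⟨some_ne h', ?_⟩
      change (3 * x' + a) ^ 2 / (9 * b - 3 * a ^ 2) = db2 ((3 * x + a) ^ 2 / (9 * b - 3 * a ^ 2))
      set K := 9 * b - 3 * a ^ 2 with hKd
      set ξ := 3 * x + a with hξ
      set ξ' := 3 * x' + a with hξ'
      have hξ'e : ξ' = (ξ ^ 2 - K) ^ 2 / (4 * (ξ * (ξ ^ 2 + K))) := by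
        rw [eq_div_iff (mul_ne_zero (by norm_num) (mul_ne_zero hξ0 hs0))]
        exact he
      rw [hξ'e]
      unfold db2
      have hS' : ξ ^ 2 / K + 1 ≠ 0 := by
        intro h0
        apply hs0
        field_simp at h0
        linarith
      field_simp
      ring
  have hall : ∀ n : ℕ, (2 ^ n) • P ≠ 0 ∧ N2 (r1 a b c ((2 ^ n) • P)) := by
    intro n
    induction n with
    | zero =>
      rw [pow_zero, one_smul]
      exact ⟨some_ne h, hN⟩
    | succ n ih =>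
      rw [pow_succ, mul_two, add_smul]
      obtain ⟨h1, h2⟩ := key _ ih.1 ih.2
      refine ⟨h1, ?_⟩
      rw [h2]
      exact (step2 ih.2).1
  refine inf_of_orbit (φ := r1 a b c) (k := 2) ?_ m hm
  refine orbit2 (u := fun n => r1 a b c ((2 ^ n) • P)) (hall 0).2 fun n => ?_
  rw [pow_succ, mul_two, add_smul]
  exact (key _ (hall n).1 (hall n).2).2

end pts

end Pool.Agent.D0H62.IT
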