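import Pool.Agent.D0H62.IT.Fib

/-!
# Connected sets of real points
-/

set_option autoImplicit false
set_option linter.unusedSectionVars false
set_option linter.unusedVariables false

open MvPolynomial Set Filter Topology Pool.Agent.H581R2 Pool.Agent.TH729.SQ Pool.Agent.Y718
  Pool.Agent.Y718.X

namespace Pool.Agent.D0H62.IT

/-- an exceptional set for `h`: outside of `Z` the closures are open, and `h` has no zeros -/
def Ex {ι : Type} (h : MvPolynomial ι ℚ) (Z : Set (ι → ℝ)) : Prop :=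
  (∀ x : ι → ℝ, (aeval x h : ℝ) = 0 → x ∈ Z) ∧
  ∀ d : ℚ, ∀ x ∈ closure (rl {z : ι → ℚ | ∃ w : ℚ, w ≠ 0 ∧ eval z h = d * w ^ 2}), x ∉ Z →
    closure (rl {z : ι → ℚ | ∃ w : ℚ, w ≠ 0 ∧ eval z h = d * w ^ 2}) ∈ 𝓝 x

section types

variable {n : ℕ}

lemma ex_two {h : MvPolynomial (Fin n) ℚ} (h2 : ∀ i, h.degreeOf i ≤ 2) :
    Ex h {x | (aeval x h : ℝ) = 0} := by
  refine ⟨fun x hx => hx, fun d x hx hxZ => ?_⟩
  have hc : Continuous fun x : Fin n → ℝ => (aeval x h : ℝ) := PF.continuous (PF.aeval h)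
  have hxZ' : (aeval x h : ℝ) ≠ 0 := hxZ
  by_cases hd : d = 0
  · exfalso
    apply hxZ'
    have hcl : closure (rl (Rd h 0)) ⊆ {x | (aeval x h : ℝ) = 0} := by
      refine closure_minimal ?_ (isClosed_eq hc continuous_const)
      rintro _ ⟨z, hz, rfl⟩
      rw [Rd_zero] at hz
      change (aeval (fun i => (z i : ℝ)) h : ℝ) = 0
      rw [Pool.Agent.TH729.SQ.aeval_cast z h]
      have h1 : eval z h = 0 := hz
      rw [h1, Rat.cast_zero]
    subst hd
    exact hcl hx
  · have hdg : ∀ i, Dg (C d * h) i 2 := fun i z =>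
      (lk_natDegree _ z i).trans ((degreeOf_C_mul_le h i d).trans (h2 i))
    have h4 : ∀ i, Dg (C d * h) i 4 := fun i z => (hdg i z).trans (by norm_num)
    have hR : Rd h d = TX (C d * h) := by
      ext z
      constructor
      · rintro ⟨w, hw, hwz⟩
        refine ⟨⟨d * w, mul_ne_zero hd hw, ?_⟩, fun i => Or.inl (hdg i)⟩
        rw [map_mul, eval_C, hwz]
        ring
      · rintro ⟨⟨w, hw, hwz⟩, -⟩
        refine ⟨w / d, div_ne_zero hw hd, ?_⟩
        rw [map_mul, eval_C] at hwz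
        field_simp
        linear_combination -hwz
    change x ∈ closure (rl (Rd h d)) at hx
    change closure (rl (Rd h d)) ∈ 𝓝 x
    rw [hR] at hx ⊢
    refine TX_open h4 hx (lt_of_le_of_ne (TX_nonneg hx) ?_)
    rw [aeval_Cmul]
    exact (mul_ne_zero (by exact_mod_cast hd) hxZ').symm

lemma aeval_one (i : Fin n) (k : Polynomial ℚ) (x : Fin n → ℝ) :
    (aeval x (Polynomial.aeval (X i : MvPolynomial (Fin n) ℚ) k) : ℝ) =
      Polynomial.aeval (x i) k := by
  have h := Polynomial.aeval_algHom_apply (aeval x : MvPolynomial (Fin n) ℚ →ₐ[ℚ] ℝ)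
    (X i : MvPolynomial (Fin n) ℚ) k
  rw [aeval_X] at h
  exact h.symm

lemma ex_one {i : Fin n} {f : Polynomial ℚ} (hf0 : f ≠ 0) (hf : f.natDegree ≤ 4) :
    ∃ T : Set ℝ, T.Finite ∧ Ex (Polynomial.aeval (X i : MvPolynomial (Fin n) ℚ) f)
      {x | x i ∈ T} := by
  classical
  obtain ⟨p, k, T, hpk, hTf, h4, hclo⟩ := one_data (i := i) hf0 hf
  have hroots : {s : ℝ | Polynomial.aeval s f = 0}.Finite := by
    have hne : f.map (algebraMap ℚ ℝ) ≠ 0 := by
      rw [Polynomial.map_ne_zero_iff (algebraMap ℚ ℝ).injective]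
      exact hf0
    refine (Polynomial.finite_setOfPred_isRoot hne).subset ?_
    intro s hs
    change (f.map (algebraMap ℚ ℝ)).eval s = 0
    rw [Polynomial.eval_map_algebraMap]
    exact hs
  refine ⟨((fun q : ℚ => (q : ℝ)) '' T) ∪ {s : ℝ | Polynomial.aeval s f = 0},
    (hTf.image _).union hroots, fun x hx => ?_, fun d x hx hxZ => ?_⟩
  · right
    rw [aeval_one] at hx
    exact hx
  · have hcoord : Continuous fun x : Fin n → ℝ => x i := continuous_apply i
    have hxT : x i ∉ (fun q : ℚ => (q : ℝ)) '' T := fun h => hxZ (Or.inl h)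
    have hxf : (Polynomial.aeval (x i) f : ℝ) ≠ 0 := fun h => hxZ (Or.inr h)
    by_cases hd : d = 0
    · exfalso
      apply hxf
      have hc : Continuous fun x : Fin n → ℝ => (Polynomial.aeval (x i) f : ℝ) := by
        have h1 : Continuous fun x : Fin n → ℝ =>
            (aeval x (Polynomial.aeval (X i : MvPolynomial (Fin n) ℚ) f) : ℝ) :=
          PF.continuous (PF.aeval _)
        simpa only [aeval_one] using h1
      have hcl : closure (rl (Rd (Polynomial.aeval (X i : MvPolynomial (Fin n) ℚ) f) 0)) ⊆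
          {x | (Polynomial.aeval (x i) f : ℝ) = 0} := by
        refine closure_minimal ?_ (isClosed_eq hc continuous_const)
        rintro _ ⟨z, hz, rfl⟩
        rw [Rd_zero] at hz
        have h1 : f.eval (z i) = 0 := by
          rw [← ev_one i f z]
          exact hz
        change (Polynomial.aeval ((z i : ℝ)) f : ℝ) = 0
        have h2 : ((z i : ℚ) : ℝ) = algebraMap ℚ ℝ (z i) := rfl
        rw [h2, Polynomial.aeval_algebraMap_apply, Polynomial.coe_aeval_eq_eval, h1, map_zero]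
      subst hd
      exact hcl hx
    · have hcl := hclo d hd
      change x ∈ closure (rl (Rd (Polynomial.aeval (X i : MvPolynomial (Fin n) ℚ) f) d)) at hx
      change closure (rl (Rd (Polynomial.aeval (X i : MvPolynomial (Fin n) ℚ) f) d)) ∈ 𝓝 x
      rw [hcl] at hx ⊢
      rcases hx with hx | hx
      · refine mem_of_superset (TX_open (h4 d) hx (lt_of_le_of_ne (TX_nonneg hx) ?_))
          Set.subset_union_left
        rw [aeval_Cmul, aeval_one]
        have hk : (Polynomial.aeval (x i) k : ℝ) ≠ 0 := by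
          intro h0
          apply hxf
          rw [hpk, map_mul, h0, mul_zero]
        exact (mul_ne_zero (by exact_mod_cast hd) hk).symm
      · exfalso
        apply hxT
        have hTc : IsClosed ((fun x : Fin n → ℝ => x i) ⁻¹' ((fun q : ℚ => (q : ℝ)) '' T)) :=
          (hTf.image _).isClosed.preimage hcoord
        refine closure_minimal ?_ hTc hx
        rintro _ ⟨z, hz, rfl⟩
        exact ⟨z i, hz.1, rfl⟩

end types

section gen

variable {ι β : Type} [Finite ι] [Finite β]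

/-- the closure is open outside of the exceptional sets -/
theorem boxes_open (blk : ι → Option β) {h : β → MvPolynomial ι ℚ}
    (hb : ∀ b i, blk i ≠ some b → (h b).degreeOf i = 0) (hF : ∀ b, Fam (h b))
    {Z : β → Set (ι → ℝ)} (hZ : ∀ b, Ex (h b) (Z b)) {D : Set (β → ℚ)} (hD : Inv D)
    {x : ι → ℝ} (hx : x ∈ closure (rl (Sd h D))) (hxZ : ∀ b, x ∉ Z b) :
    closure (rl (Sd h D)) ∈ 𝓝 x := by
  obtain ⟨h1, -⟩ := CB_fin blk hb hF
  rw [closure_Sd h h1 hD] at hx ⊢
  obtain ⟨W, ⟨δ, hδ, rfl⟩, hxW⟩ := hx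
  refine mem_of_superset ?_ (Set.subset_sUnion_of_mem ⟨δ, hδ, rfl⟩)
  rw [Bx_closure blk hb δ] at hxW ⊢
  rw [Filter.iInter_mem]
  intro b
  exact (hZ b).2 (δ b) x (Set.mem_iInter.1 hxW b) (hxZ b)

/-- connected sets and closed sets which are open at their points -/
lemma conn_gen {E : Type*} [TopologicalSpace E] {K U : Set E} (hK : IsClosed K)
    (hU : IsPreconnected U) (h : ∀ x ∈ U, x ∈ K → K ∈ 𝓝 x) : U ⊆ K ∨ Disjoint U K := by
  have hcov : U ⊆ interior K ∪ Kᶜ := by
    intro x hx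
    by_cases hxK : x ∈ K
    · exact Or.inl (mem_interior_iff_mem_nhds.2 (h x hx hxK))
    · exact Or.inr hxK
  rcases hU.subset_or_subset isOpen_interior hK.isOpen_compl
    (Set.disjoint_compl_right_iff_subset.mpr interior_subset) hcov with h1 | h1
  · exact Or.inl (h1.trans interior_subset)
  · exact Or.inr (Set.disjoint_left.2 fun x hx => h1 hx)

end gen

section sys

variable {J : Type} [Finite J] {κ : J → Type} [∀ j, Fintype (κ j)] {ι β : Type} [Finite ι]
  [Fintype β]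

/-- the rational points of the system -/
def Sys (h : β → MvPolynomial ι ℚ) (D : Set (β → ℚ)) (c : ∀ j, κ j → ℚ) (E : ∀ j, κ j → β → ℕ)
    (c0 : J → ℚ) (E0 : J → β → ℕ) : Set ((Σ j, κ j) ⊕ ι → ℚ) :=
  {v | (fun b => eval (fun i => v (Sum.inr i)) (h b)) ∈ D ∧
      ∀ j, ∑ s, mon (c j s) (E j s) (fun b => eval (fun i => v (Sum.inr i)) (h b)) *
        v (Sum.inl ⟨j, s⟩) ^ 2 =
        mon (c0 j) (E0 j) (fun b => eval (fun i => v (Sum.inr i)) (h b))}

/-- **Connected sets of real points of the system.** -/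
theorem sys_conn (blk : ι → Option β) {h : β → MvPolynomial ι ℚ}
    (hb : ∀ b i, blk i ≠ some b → (h b).degreeOf i = 0) (hF : ∀ b, Fam (h b))
    {Z : β → Set (ι → ℝ)} (hZ : ∀ b, Ex (h b) (Z b))
    (c : ∀ j, κ j → ℚ) (E : ∀ j, κ j → β → ℕ) (c0 : J → ℚ) (E0 : J → β → ℕ)
    (D : Set (β → ℚ)) (hD : Inv D) (U : Set ((Σ j, κ j) ⊕ ι → ℝ)) (hU : IsPreconnected U)
    (hUZ : ∀ x ∈ U, ∀ b, (fun i => x (Sum.inr i)) ∉ Z b)
    (hUe : ∀ x ∈ U, ∀ j, ∑ s, c j s * (∏ b, (aeval (fun i => x (Sum.inr i)) (h b) : ℝ) ^ E j s b) *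
      x (Sum.inl ⟨j, s⟩) ^ 2 = c0 j * ∏ b, (aeval (fun i => x (Sum.inr i)) (h b) : ℝ) ^ E0 j b)
    (hUs : ∀ x ∈ U, ∀ j, ∃ s, (c j s : ℝ) * x (Sum.inl ⟨j, s⟩) ≠ 0) :
    U ⊆ closure (rl (Sys h D c E c0 E0)) ∨ Disjoint U (closure (rl (Sys h D c E c0 E0))) := by
  classical
  have : Fintype J := Fintype.ofFinite J
  set D' : Set (β → ℚ) := {δ | δ ∈ D ∧
    ∀ j, Bj (none : Option (Set (κ j))) (fun s => mon (c j s) (E j s) δ) (mon (c0 j) (E0 j) δ)}
    with hD'
  have hInv : Inv D' := by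
    rintro δ ⟨h1, h2⟩ u hu
    refine ⟨hD δ h1 u hu, fun j => ?_⟩
    exact bj_inv none (w := fun s => ∏ b, u b ^ E j s b) (w0 := ∏ b, u b ^ E0 j b)
      (fun s => Finset.prod_ne_zero_iff.2 fun b _ => pow_ne_zero _ (hu b))
      (Finset.prod_ne_zero_iff.2 fun b _ => pow_ne_zero _ (hu b))
      (fun s => mon_sq _ _ _ _) (mon_sq _ _ _ _) (h2 j)
  have hmp : ∀ (a : ℚ) (e : β → ℕ) (y : ι → ℝ), (aeval y (mp h a e) : ℝ) =
      a * ∏ b, (aeval y (h b) : ℝ) ^ e b := by
    intro a e y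
    unfold mp
    rw [map_mul, aeval_C, map_prod]
    simp only [map_pow]
    rfl
  have hcast : ∀ (z : ι → ℚ) (f : MvPolynomial ι ℚ), (aeval (rv z) f : ℝ) =
      ((eval z f : ℚ) : ℝ) := fun z f => Pool.Agent.TH729.SQ.aeval_cast z f
  have hcm : ∀ f : MvPolynomial ι ℚ, Continuous fun x : (Σ j, κ j) ⊕ ι → ℝ =>
      (aeval (fun i => x (Sum.inr i)) f : ℝ) := fun f =>
    (PF.continuous (PF.aeval f)).comp (by fun_prop)
  have hpr : Continuous fun x : (Σ j, κ j) ⊕ ι → ℝ => fun i => x (Sum.inr i) := by fun_prop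
  -- the closure over the complement of the exceptional set
  have key : ∀ x ∈ U, x ∈ closure (rl (Sys h D c E c0 E0)) ↔
      (fun i => x (Sum.inr i)) ∈ closure (rl (Sd h D')) := by
    intro x hx
    have hn : ∀ j, ∃ s, (aeval (fun i => x (Sum.inr i)) (mp h (c j s) (E j s)) : ℝ) *
        x (Sum.inl ⟨j, s⟩) ≠ 0 := by
      intro j
      obtain ⟨s, hs⟩ := hUs x hx j
      refine ⟨s, ?_⟩
      rw [hmp]
      have h1 : ∏ b, (aeval (fun i => x (Sum.inr i)) (h b) : ℝ) ^ E j s b ≠ 0 :=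
        Finset.prod_ne_zero_iff.2 fun b _ => pow_ne_zero _ fun h0 => hUZ x hx b ((hZ b).1 _ h0)
      have h2 : (c j s : ℝ) ≠ 0 := left_ne_zero_of_mul hs
      have h3 : x (Sum.inl ⟨j, s⟩) ≠ 0 := right_ne_zero_of_mul hs
      exact mul_ne_zero (mul_ne_zero h2 h1) h3
    constructor
    · intro hxc
      choose s hs using hn
      have ho : IsOpen {y : (Σ j, κ j) ⊕ ι → ℝ | ∀ j,
          (aeval (fun i => y (Sum.inr i)) (mp h (c j (s j)) (E j (s j))) : ℝ) *
            y (Sum.inl ⟨j, s j⟩) ≠ 0} := by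
        have : {y : (Σ j, κ j) ⊕ ι → ℝ | ∀ j,
            (aeval (fun i => y (Sum.inr i)) (mp h (c j (s j)) (E j (s j))) : ℝ) *
            y (Sum.inl ⟨j, s j⟩) ≠ 0} = ⋂ j, {y : (Σ j, κ j) ⊕ ι → ℝ |
            (aeval (fun i => y (Sum.inr i)) (mp h (c j (s j)) (E j (s j))) : ℝ) *
            y (Sum.inl ⟨j, s j⟩) ≠ 0} := by
          ext y
          simp
        rw [this]
        refine isOpen_iInter_of_finite fun j => isOpen_ne_fun ?_ continuous_const
        exact (hcm _).mul (continuous_apply _)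
      rw [mem_closure_iff_nhds] at hxc ⊢
      intro t ht
      obtain ⟨_, ⟨hy1, hy2⟩, v, ⟨hv1, hv2⟩, rfl⟩ := hxc _
        (inter_mem (hpr.continuousAt.preimage_mem_nhds ht) (ho.mem_nhds hs))
      refine ⟨_, hy1, fun i => v (Sum.inr i), ⟨hv1, fun j => ?_⟩, rfl⟩
      refine ⟨fun s => v (Sum.inl ⟨j, s⟩), hv2 j, s j, ?_⟩
      have h1 := hy2 j
      change (aeval (rv fun i => v (Sum.inr i)) (mp h (c j (s j)) (E j (s j))) : ℝ) *
        (v (Sum.inl ⟨j, s j⟩) : ℝ) ≠ 0 at h1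
      rw [hcast, eval_mp] at h1
      exact_mod_cast h1
    · intro hxc
      have h5 := sys_closure (Sd h D') (fun j s => mp h (c j s) (E j s))
        (fun j => mp h (c0 j) (E0 j)) (fun j => none) (by
          rintro z ⟨-, h2⟩ j
          simp only [eval_mp]
          exact h2 j)
      have h6 : x ∈ closure {x : (Σ j, κ j) ⊕ ι → ℝ |
          (fun i => x (Sum.inr i)) ∈ closure (rl (Sd h D')) ∧
          Qm (fun j s => mp h (c j s) (E j s)) (fun j => mp h (c0 j) (E0 j)) (fun j => none)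
            (fun s => x (Sum.inl s)) (fun i => x (Sum.inr i))} := by
        refine subset_closure ⟨hxc, fun j => ⟨?_, hn j⟩⟩
        have h7 := hUe x hx j
        unfold qf
        simp only [hmp]
        exact h7
      rw [← h5] at h6
      refine closure_mono ?_ h6
      rintro _ ⟨v, ⟨hv1, hv2⟩, rfl⟩
      refine ⟨v, ⟨hv1.1, fun j => ?_⟩, rfl⟩
      have h8 : Rj (none : Option (Set (κ j)))
        (fun s => aeval (rv fun i => v (Sum.inr i)) (mp h (c j s) (E j s)))
        (aeval (rv fun i => v (Sum.inr i)) (mp h (c0 j) (E0 j)))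
        (fun s => rv (fun s => v (Sum.inl s)) ⟨j, s⟩) := hv2 j
      simp only [hcast, eval_mp] at h8
      exact (eq_iff_mode _ _ (fun s => v (Sum.inl ⟨j, s⟩))).2 ⟨none, hv1.2 j, h8⟩
  -- the projection
  have hπ : IsPreconnected ((fun x : (Σ j, κ j) ⊕ ι → ℝ => fun i => x (Sum.inr i)) '' U) :=
    hU.image _ hpr.continuousOn
  rcases conn_gen (K := closure (rl (Sd h D'))) isClosed_closure hπ (by
    rintro _ ⟨x, hx, rfl⟩ hxK
    exact boxes_open blk hb hF hZ hInv hxK (hUZ x hx)) with h1 | h1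
  · left
    intro x hx
    exact (key x hx).2 (h1 ⟨x, hx, rfl⟩)
  · right
    rw [Set.disjoint_left] at h1 ⊢
    intro x hx hxc
    exact h1 ⟨x, hx, rfl⟩ ((key x hx).1 hxc)

end sys

end Pool.Agent.D0H62.IT
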