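import Pool.Agent.D0H62.IT.Cls
import Pool.Agent.Y718.GX

/-!
# Explicit nondegeneracy for the invariants 0 and 1728
-/

set_option autoImplicit false
set_option linter.unusedSectionVars false
set_option linter.unusedVariables false

open WeierstrassCurve Pool.Agent.Y720.MZ Pool.Agent.Y718.X Pool.Agent.D0H6.TC

namespace Pool.Agent.D0H62.IT

section pts

variable {a b c : ℚ}

lemma tors_y {x y : ℚ} (h : (cv a b c).toAffine.Nonsingular x y) (hy : y = 0) :
    ∃ m : ℕ, m ≠ 0 ∧ m • (.some x y h : Pt a b c) = 0 := by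
  refine ⟨2, two_ne_zero, ?_⟩
  rw [two_smul]
  exact dbl_zero h (by rw [hy, mul_zero])

lemma tors_x {x y x' y' : ℚ} (h : (cv a b c).toAffine.Nonsingular x y)
    (h' : (cv a b c).toAffine.Nonsingular x' y')
    (hadd : (.some x y h : Pt a b c) + .some x y h = .some x' y' h') (hx : x' = x) :
    ∃ m : ℕ, m ≠ 0 ∧ m • (.some x y h : Pt a b c) = 0 := by
  subst hx
  rcases eq_or_neg h' h with h1 | h1
  · exfalso
    rw [h1] at hadd
    have : (.some x' y h : Pt a b c) = 0 := by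
      have h2 : (.some x' y h : Pt a b c) + .some x' y h = .some x' y h + 0 := by
        rw [hadd, add_zero]
      exact add_left_cancel h2
    exact some_ne h this
  · refine ⟨3, by norm_num, ?_⟩
    rw [h1] at hadd
    have : (3 : ℕ) • (.some x' y h : Pt a b c) = (.some x' y h + .some x' y h) + .some x' y h := by
      rw [show (3 : ℕ) = 1 + 1 + 1 from rfl, add_smul, add_smul, one_smul]
    rw [this, hadd, neg_add_cancel]

lemma tors_dbl {P Q : Pt a b c} (h : P + P = Q) (hQ : ∃ m : ℕ, m ≠ 0 ∧ m • Q = 0) :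
    ∃ m : ℕ, m ≠ 0 ∧ m • P = 0 := by
  obtain ⟨m, hm, h0⟩ := hQ
  refine ⟨m * 2, mul_ne_zero hm two_ne_zero, ?_⟩
  rw [mul_smul, two_smul, h, h0]

/-- torsion for `j = 0` -/
theorem tors0 (hj : a ^ 2 = 3 * b) (hL : 27 * c - a ^ 3 ≠ 0) {x y : ℚ}
    (h : (cv a b c).toAffine.Nonsingular x y)
    (hN : ¬ Nt ((3 * x + a) ^ 3 / (27 * c - a ^ 3))) :
    ∃ m : ℕ, m ≠ 0 ∧ m • (.some x y h : Pt a b c) = 0 := by
  have main : ∀ (x y : ℚ) (h : (cv a b c).toAffine.Nonsingular x y), 3 * x + a = 0 →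
      ∃ m : ℕ, m ≠ 0 ∧ m • (.some x y h : Pt a b c) = 0 := by
    intro x y h hξ
    by_cases hy : y = 0
    · exact tors_y h hy
    · obtain ⟨x', y', h', hadd, he⟩ := dbl0 hj h hy
      rw [hξ, zero_mul] at he
      have h1 : 3 * x' + a = 0 := by
        refine (mul_eq_zero.1 he).resolve_right ?_
        refine mul_ne_zero (by norm_num) ?_
        have : (0 : ℚ) ^ 3 + (27 * c - a ^ 3) = 27 * c - a ^ 3 := by ring
        rw [this]
        exact hL
      exact tors_x h h' hadd (by linarith)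
  have e0 := eq0 hj (cv_ns.1 h).1
  by_cases c1 : (3 * x + a) ^ 3 / (27 * c - a ^ 3) = 0
  · refine main x y h ?_
    rcases div_eq_zero_iff.1 c1 with h1 | h1
    · exact pow_eq_zero_iff (by norm_num) |>.mp h1
    · exact absurd h1 hL
  by_cases c2 : (3 * x + a) ^ 3 / (27 * c - a ^ 3) = -1
  · rw [div_eq_iff hL] at c2
    refine tors_y h ?_
    have : y ^ 2 = 0 := by linear_combination (1 / 27) * e0 + (1 / 27) * c2
    exact pow_eq_zero_iff (by norm_num) |>.mp this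
  by_cases c3 : (3 * x + a) ^ 3 / (27 * c - a ^ 3) = 8
  · rw [div_eq_iff hL] at c3
    have hy : y ≠ 0 := by
      rintro rfl
      apply hL
      linear_combination -(1 / 9) * e0 - (1 / 9) * c3
    obtain ⟨x', y', h', hadd, he⟩ := dbl0 hj h hy
    refine tors_dbl hadd (main x' y' h' ?_)
    have h1 : (3 * x' + a) * (4 * ((3 * x + a) ^ 3 + (27 * c - a ^ 3))) = 0 := by
      rw [he, c3]
      ring
    refine (mul_eq_zero.1 h1).resolve_right ?_
    rw [c3]
    intro h2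
    apply hL
    linear_combination (1 / 36) * h2
  by_cases c4 : (3 * x + a) ^ 3 / (27 * c - a ^ 3) = -4
  · rw [div_eq_iff hL] at c4
    by_cases hy : y = 0
    · exact tors_y h hy
    obtain ⟨x', y', h', hadd, he⟩ := dbl0 hj h hy
    refine tors_x h h' hadd ?_
    have h1 : (27 * c - a ^ 3) * (x' - x) = 0 := by
      rw [c4] at he
      linear_combination -(1 / 36) * he
    have := (mul_eq_zero.1 h1).resolve_left hL
    linarith
  · exact absurd ⟨c1, c2, c3, c4⟩ hN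

/-- torsion for `j = 1728` -/
theorem tors1 (hj : 27 * c - 9 * a * b + 2 * a ^ 3 = 0) (hK : 9 * b - 3 * a ^ 2 ≠ 0) {x y : ℚ}
    (h : (cv a b c).toAffine.Nonsingular x y)
    (hN : ¬ N2 ((3 * x + a) ^ 2 / (9 * b - 3 * a ^ 2))) :
    ∃ m : ℕ, m ≠ 0 ∧ m • (.some x y h : Pt a b c) = 0 := by
  have main : ∀ (x y : ℚ) (h : (cv a b c).toAffine.Nonsingular x y), 3 * x + a = 0 →
      ∃ m : ℕ, m ≠ 0 ∧ m • (.some x y h : Pt a b c) = 0 := by
    intro x y h hξ
    have e0 := eq1 hj (cv_ns.1 h).1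
    rw [hξ, zero_mul] at e0
    refine tors_y h ?_
    have : y ^ 2 = 0 := by linarith
    exact pow_eq_zero_iff (by norm_num) |>.mp this
  have e0 := eq1 hj (cv_ns.1 h).1
  by_cases c1 : (3 * x + a) ^ 2 / (9 * b - 3 * a ^ 2) = 0
  · refine main x y h ?_
    rcases div_eq_zero_iff.1 c1 with h1 | h1
    · exact pow_eq_zero_iff (by norm_num) |>.mp h1
    · exact absurd h1 hK
  by_cases c2 : (3 * x + a) ^ 2 / (9 * b - 3 * a ^ 2) = -1
  · rw [div_eq_iff hK] at c2
    refine tors_y h ?_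
    have : y ^ 2 = 0 := by linear_combination (1 / 27) * e0 + (1 / 27) * (3 * x + a) * c2
    exact pow_eq_zero_iff (by norm_num) |>.mp this
  by_cases c3 : (3 * x + a) ^ 2 / (9 * b - 3 * a ^ 2) = 1
  · rw [div_eq_iff hK] at c3
    by_cases hy : y = 0
    · exact tors_y h hy
    obtain ⟨x', y', h', hadd, he⟩ := dbl1 hj h hy
    refine tors_dbl hadd (main x' y' h' ?_)
    have hS : 4 * ((3 * x + a) * ((3 * x + a) ^ 2 + (9 * b - 3 * a ^ 2))) ≠ 0 := by
      rw [← e0]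
      positivity
    have h1 : (3 * x' + a) * (4 * ((3 * x + a) * ((3 * x + a) ^ 2 + (9 * b - 3 * a ^ 2)))) = 0 := by
      rw [he, c3]
      ring
    exact (mul_eq_zero.1 h1).resolve_right hS
  · exact absurd ⟨c1, c2, c3⟩ hN

end pts

/-- the quadratic invariant -/
def gI (q : Polynomial ℚ) : ℚ :=
  12 * q.coeff 0 * q.coeff 4 - 3 * q.coeff 1 * q.coeff 3 + q.coeff 2 ^ 2

/-- the cubic invariant -/
def gJ (q : Polynomial ℚ) : ℚ :=
  72 * q.coeff 0 * q.coeff 2 * q.coeff 4 + 9 * q.coeff 1 * q.coeff 2 * q.coeff 3 -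
    27 * q.coeff 0 * q.coeff 3 ^ 2 - 27 * q.coeff 1 ^ 2 * q.coeff 4 - 2 * q.coeff 2 ^ 3

/-- the covariant -/
def gG (q : Polynomial ℚ) : ℚ := 3 * q.coeff 1 ^ 2 - 8 * q.coeff 0 * q.coeff 2

/-- explicit nondegeneracy for `j = 0` -/
def Go0 (q : Polynomial ℚ) : Prop := gJ q ≠ 0 ∧ gG q ≠ 0 ∧
  gG q ^ 3 ≠ 64 * q.coeff 0 ^ 3 * gJ q ∧ gG q ^ 3 ≠ -512 * q.coeff 0 ^ 3 * gJ q ∧
  gG q ^ 3 ≠ 256 * q.coeff 0 ^ 3 * gJ q

/-- explicit nondegeneracy for `j = 1728` -/
def Go1 (q : Polynomial ℚ) : Prop := gI q ≠ 0 ∧ gG q ≠ 0 ∧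
  gG q ^ 2 ≠ 48 * q.coeff 0 ^ 2 * gI q ∧ gG q ^ 2 ≠ -48 * q.coeff 0 ^ 2 * gI q

lemma disc_IJ (q : Polynomial ℚ) : 27 * Db q = 4 * gI q ^ 3 - gJ q ^ 2 := by
  unfold Db dsc Pool.Agent.Y718.X.Ab Bb Cb gI gJ
  ring

lemma xi_eq {q : Polynomial ℚ} {w : ℚ} (hw0 : w ≠ 0) (hw : w ^ 2 = q.coeff 0) :
    3 * xs w (q.coeff 1) (q.coeff 2) + Ab q = gG q / (4 * q.coeff 0) := by
  unfold xs Pool.Agent.Y718.X.Ab gG
  have h0 : q.coeff 0 ≠ 0 := by
    rw [← hw]
    exact pow_ne_zero 2 hw0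
  rw [hw]
  field_simp
  ring

theorem inf_iff0 {q : Polynomial ℚ} {w : ℚ} (hw0 : w ≠ 0) (hw : w ^ 2 = q.coeff 0)
    (hI : gI q = 0) : Inf q ↔ Go0 q := by
  have h0 : q.coeff 0 ≠ 0 := by
    rw [← hw]
    exact pow_ne_zero 2 hw0
  have hD := disc_IJ q
  rw [hI] at hD
  have hj : Ab q ^ 2 = 3 * Bb q := by
    have : Ab q ^ 2 - 3 * Bb q = gI q := by unfold Pool.Agent.Y718.X.Ab Bb gI; ring
    linarith
  have hL : 27 * Cb q - Ab q ^ 3 = - gJ q := by
    have : gJ q = -2 * Ab q ^ 3 + 9 * Ab q * Bb q - 27 * Cb q := by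
      unfold Pool.Agent.Y718.X.Ab Bb Cb gJ; ring
    rw [this]
    linear_combination -3 * Ab q * hj
  have hDJ : Db q ≠ 0 ↔ gJ q ≠ 0 := by
    constructor
    · rintro h1 h2
      apply h1
      rw [h2] at hD
      linarith
    · rintro h1 h2
      apply h1
      rw [h2] at hD
      have : gJ q ^ 2 = 0 := by linarith
      exact pow_eq_zero_iff (by norm_num) |>.mp this
  have hξ := fun (w : ℚ) (hw0 : w ≠ 0) (hw : w ^ 2 = q.coeff 0) => xi_eq hw0 hw
  have hr : ∀ (w : ℚ), w ≠ 0 → w ^ 2 = q.coeff 0 →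
      (3 * xs w (q.coeff 1) (q.coeff 2) + Ab q) ^ 3 / (27 * Cb q - Ab q ^ 3) =
      -(gG q ^ 3 / (64 * q.coeff 0 ^ 3 * gJ q)) := by
    intro w hw0 hw
    rw [hξ w hw0 hw, hL]
    rw [div_pow, div_neg, div_div]
    congr 2
    ring
  have hNt : gJ q ≠ 0 → (Nt (-(gG q ^ 3 / (64 * q.coeff 0 ^ 3 * gJ q))) ↔ Go0 q) := by
    intro hJ
    have hne : 64 * q.coeff 0 ^ 3 * gJ q ≠ 0 :=
      mul_ne_zero (mul_ne_zero (by norm_num) (pow_ne_zero 3 h0)) hJ
    constructor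
    · rintro ⟨h1, h2, h3, h4⟩
      refine ⟨hJ, ?_, ?_, ?_, ?_⟩
      · intro h5
        apply h1
        rw [h5]
        simp
      · intro h5
        apply h2
        rw [h5, div_self hne]
      · intro h5
        apply h3
        rw [h5, neg_eq_iff_eq_neg, div_eq_iff hne]
        ring
      · intro h5
        apply h4
        rw [h5, neg_inj, div_eq_iff hne]
        ring
    · rintro ⟨-, h1, h2, h3, h4⟩
      refine ⟨?_, ?_, ?_, ?_⟩
      · rw [neg_ne_zero]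
        exact div_ne_zero (pow_ne_zero 3 h1) hne
      · intro h5
        rw [neg_inj, div_eq_one_iff_eq hne] at h5
        exact h2 h5
      · intro h5
        apply h3
        rw [neg_eq_iff_eq_neg, div_eq_iff hne] at h5
        rw [h5]
        ring
      · intro h5
        apply h4
        rw [neg_inj, div_eq_iff hne] at h5
        rw [h5]
        ring
  constructor
  · rintro ⟨hD0, w', hw0', hw', hinf⟩
    have hJ := hDJ.1 hD0
    rw [← hNt hJ, ← hr w' hw0' hw']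
    have hns := ns_of_dsc (x := xs w' (q.coeff 1) (q.coeff 2))
      (y := ys w' (q.coeff 1) (q.coeff 2) (q.coeff 3)) hD0 (by
      rw [bb_eq hw', cb_eq hw']
      exact s_eqn hw0')
    by_contra hcon
    obtain ⟨m, hm, h1⟩ := tors0 hj (by rw [hL]; exact neg_ne_zero.2 hJ) hns hcon
    exact hinf hns m hm h1
  · intro hG
    refine ⟨hDJ.2 hG.1, w, hw0, hw, fun hns m hm => ?_⟩
    refine nontors0 hj (by rw [hL]; exact neg_ne_zero.2 hG.1) hns ?_ m hm
    rw [hr w hw0 hw]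
    exact (hNt hG.1).2 hG

theorem inf_iff1 {q : Polynomial ℚ} {w : ℚ} (hw0 : w ≠ 0) (hw : w ^ 2 = q.coeff 0)
    (hJ : gJ q = 0) : Inf q ↔ Go1 q := by
  have h0 : q.coeff 0 ≠ 0 := by
    rw [← hw]
    exact pow_ne_zero 2 hw0
  have hD := disc_IJ q
  rw [hJ] at hD
  have hj : 27 * Cb q - 9 * Ab q * Bb q + 2 * Ab q ^ 3 = 0 := by
    have : gJ q = -2 * Ab q ^ 3 + 9 * Ab q * Bb q - 27 * Cb q := by
      unfold Pool.Agent.Y718.X.Ab Bb Cb gJ; ring
    linarith
  have hK : 9 * Bb q - 3 * Ab q ^ 2 = -3 * gI q := by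
    unfold Pool.Agent.Y718.X.Ab Bb gI
    ring
  have hDI : Db q ≠ 0 ↔ gI q ≠ 0 := by
    constructor
    · rintro h1 h2
      apply h1
      rw [h2] at hD
      linarith
    · rintro h1 h2
      apply h1
      rw [h2] at hD
      have : gI q ^ 3 = 0 := by linarith
      exact pow_eq_zero_iff (by norm_num) |>.mp this
  have hr : ∀ (w : ℚ), w ≠ 0 → w ^ 2 = q.coeff 0 →
      (3 * xs w (q.coeff 1) (q.coeff 2) + Ab q) ^ 2 / (9 * Bb q - 3 * Ab q ^ 2) =
      -(gG q ^ 2 / (48 * q.coeff 0 ^ 2 * gI q)) := by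
    intro w hw0 hw
    rw [xi_eq hw0 hw, hK, div_pow, div_div, ← div_neg]
    congr 1
    ring
  have hNt : gI q ≠ 0 → (N2 (-(gG q ^ 2 / (48 * q.coeff 0 ^ 2 * gI q))) ↔ Go1 q) := by
    intro hI
    have hne : 48 * q.coeff 0 ^ 2 * gI q ≠ 0 :=
      mul_ne_zero (mul_ne_zero (by norm_num) (pow_ne_zero 2 h0)) hI
    constructor
    · rintro ⟨h1, h2, h3⟩
      refine ⟨hI, ?_, ?_, ?_⟩
      · intro h5
        apply h1
        rw [h5]
        simp
      · intro h5
        apply h2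
        rw [h5, div_self hne]
      · intro h5
        apply h3
        rw [h5, neg_eq_iff_eq_neg, div_eq_iff hne]
        ring
    · rintro ⟨-, h1, h2, h3⟩
      refine ⟨?_, ?_, ?_⟩
      · rw [neg_ne_zero]
        exact div_ne_zero (pow_ne_zero 2 h1) hne
      · intro h5
        rw [neg_inj, div_eq_one_iff_eq hne] at h5
        exact h2 h5
      · intro h5
        apply h3
        rw [neg_eq_iff_eq_neg, div_eq_iff hne] at h5
        rw [h5]
        ring
  constructor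
  · rintro ⟨hD0, w', hw0', hw', hinf⟩
    have hI := hDI.1 hD0
    rw [← hNt hI, ← hr w' hw0' hw']
    have hns := ns_of_dsc (x := xs w' (q.coeff 1) (q.coeff 2))
      (y := ys w' (q.coeff 1) (q.coeff 2) (q.coeff 3)) hD0 (by
      rw [bb_eq hw', cb_eq hw']
      exact s_eqn hw0')
    by_contra hcon
    obtain ⟨m, hm, h1⟩ := tors1 hj (by rw [hK]; exact mul_ne_zero (by norm_num) hI) hns hcon
    exact hinf hns m hm h1
  · intro hG
    refine ⟨hDI.2 hG.1, w, hw0, hw, fun hns m hm => ?_⟩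
    refine nontors1 hj (by rw [hK]; exact mul_ne_zero (by norm_num) hG.1) hns ?_ m hm
    rw [hr w hw0 hw]
    exact (hNt hG.1).2 hG

end Pool.Agent.D0H62.IT
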