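import Pool.Agent.D0H62.IT.Exp

/-!
# Double covers with fibres of invariants 0 and 1728
-/

set_option autoImplicit false
set_option linter.unusedSectionVars false
set_option linter.unusedVariables false
set_option linter.unusedSimpArgs false

open WeierstrassCurve Pool.Agent.Y720.MZ Pool.Agent.Y718.X Pool.Agent.D0H6.TC
  Pool.Agent.TH729.SQ Pool.Agent.H581R2 Set

namespace Pool.Agent.D0H62.IT

/-- explicit nondegeneracy -/
def Gd4 (q : Polynomial ℚ) : Prop := (gI q = 0 ∧ Go0 q) ∨ (gJ q = 0 ∧ Go1 q)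

theorem gd_inf {q : Polynomial ℚ} (hw : ∃ w : ℚ, w ≠ 0 ∧ w ^ 2 = q.coeff 0) (h : Gd4 q) :
    Inf q := by
  obtain ⟨w, hw0, hw⟩ := hw
  rcases h with ⟨h1, h2⟩ | ⟨h1, h2⟩
  · exact (inf_iff0 hw0 hw h1).2 h2
  · exact (inf_iff1 hw0 hw h1).2 h2

theorem inf_gd {q : Polynomial ℚ} (hw : ∃ w : ℚ, w ≠ 0 ∧ w ^ 2 = q.coeff 0)
    (hIJ : gI q = 0 ∨ gJ q = 0) (h : Inf q) : Gd4 q := by
  obtain ⟨w, hw0, hw⟩ := hw
  rcases hIJ with h1 | h1
  · exact Or.inl ⟨h1, (inf_iff0 hw0 hw h1).1 h⟩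
  · exact Or.inr ⟨h1, (inf_iff1 hw0 hw h1).1 h⟩

variable {n : ℕ}

/-- the good points of the double cover -/
def gp (f : MvPolynomial (Fin n) ℚ) : Set (Fin (n + 1) → ℚ) :=
  {u | u 0 ≠ 0 ∧ u 0 ^ 2 = MvPolynomial.eval (fun k => u k.succ) f ∧
    ∀ i, Dg f i 2 ∨ Gd4 (lk f (fun k => u k.succ) (Pi.single i 1))}

lemma sq_lk {f : MvPolynomial (Fin n) ℚ} {z : Fin n → ℚ} (i : Fin n)
    (h : ∃ w : ℚ, w ≠ 0 ∧ w ^ 2 = MvPolynomial.eval z f) :
    ∃ w : ℚ, w ≠ 0 ∧ w ^ 2 = (lk f z (Pi.single i 1)).coeff 0 := by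
  obtain ⟨w, hw0, hw⟩ := h
  exact ⟨w, hw0, by rw [lk_zero, hw]⟩

lemma gp_sub (f : MvPolynomial (Fin n) ℚ) : gp f ⊆ dcX f := by
  rintro u ⟨h0, h1, h2⟩
  exact ⟨h0, h1, fun i => (h2 i).imp_right fun h => gd_inf (sq_lk i ⟨u 0, h0, h1⟩) h⟩

theorem gp_eq {f : MvPolynomial (Fin n) ℚ}
    (hf : ∀ z : Fin n → ℚ, (∃ w : ℚ, w ≠ 0 ∧ w ^ 2 = MvPolynomial.eval z f) → ∀ i,
      Dg f i 2 ∨ gI (lk f z (Pi.single i 1)) = 0 ∨ gJ (lk f z (Pi.single i 1)) = 0) :
    gp f = dcX f := by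
  refine Subset.antisymm (gp_sub f) ?_
  rintro u ⟨h0, h1, h2⟩
  refine ⟨h0, h1, fun i => ?_⟩
  rcases hf _ ⟨u 0, h0, h1⟩ i with h3 | h3
  · exact Or.inl h3
  · exact (h2 i).imp_right fun h => inf_gd (sq_lk i ⟨u 0, h0, h1⟩) h3 h

/-- the directions of the axes -/
lemma deg_single {f : MvPolynomial (Fin n) ℚ} {i : Fin n} {d : ℕ} (h : Dg f i d) :
    DegLe f (Pi.single i 1) d := h

lemma dcX_sub {f : MvPolynomial (Fin n) ℚ} (hf : ∀ i, Dg f i 4) : dcX f ⊆ dcN f := by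
  rintro u ⟨h0, h1, h2⟩
  refine ⟨h0, h1, fun i => Pi.single i 1, ?_, fun k => ⟨hf k, ?_⟩⟩
  · exact Pi.linearIndependent_single_one (Fin n) ℚ
  · refine (h2 k).imp_right fun h => ⟨0, fun _ _ => rfl, ?_⟩
    have : (fun k => u (Fin.succ k)) + ∑ j, (0 : Fin n → ℚ) j • (Pi.single j 1 : Fin n → ℚ) =
      fun k => u (Fin.succ k) := by simp
    rw [this]
    exact h

lemma dcX_up (f : MvPolynomial (Fin n) ℚ) : dcX f = Pool.Agent.Y718.up f (TX f) := by
  ext u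
  constructor
  · rintro ⟨h0, hu, hN⟩
    exact ⟨⟨⟨u 0, h0, hu⟩, hN⟩, hu⟩
  · rintro ⟨⟨⟨w, hw0, hw⟩, hN⟩, hu⟩
    refine ⟨?_, hu, hN⟩
    intro h0
    rw [h0] at hu
    apply hw0
    have : w ^ 2 = 0 := by rw [hw, ← hu]; ring
    exact pow_eq_zero_iff (two_ne_zero) |>.mp this

theorem dcX_closure (f : MvPolynomial (Fin n) ℚ) : closure (rl (dcX f)) =
    {x : Fin (n + 1) → ℝ | (fun k => x k.succ) ∈ closure (rl (TX f)) ∧
      x 0 ^ 2 = MvPolynomial.aeval (fun k => x k.succ) f} := by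
  rw [dcX_up, Pool.Agent.Y718.up_closure f (fun z hz => by obtain ⟨w, -, hw⟩ := hz.1; exact ⟨w, hw⟩)]

/-- **The dichotomy for connected sets.** -/
theorem dcX_mazur (f : MvPolynomial (Fin n) ℚ) (hf : ∀ i, Dg f i 4) (U : Set (Fin (n + 1) → ℝ))
    (hU : ∀ x ∈ U, x 0 ≠ 0 ∧ x 0 ^ 2 = MvPolynomial.aeval (fun k => x k.succ) f)
    (hUc : IsPreconnected U) :
    U ⊆ closure (rl (dcX f)) ∨ Disjoint U (closure (rl (dcX f))) := by
  rw [dcX_closure]
  have hπ : Continuous fun u : Fin (n + 1) → ℝ => fun i : Fin n => u i.succ := by fun_prop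
  have hUπ : IsPreconnected ((fun u : Fin (n + 1) → ℝ => fun i : Fin n => u i.succ) '' U) :=
    hUc.image _ hπ.continuousOn
  have hpos : ∀ x ∈ U, (0 : ℝ) < MvPolynomial.aeval (fun k => x k.succ) f := by
    intro x hx
    obtain ⟨h0, h1⟩ := hU x hx
    rw [← h1]; positivity
  have hcov : ((fun u : Fin (n + 1) → ℝ => fun i : Fin n => u i.succ) '' U) ⊆
      interior (closure (rl (TX f))) ∪ (closure (rl (TX f)))ᶜ := by
    rintro _ ⟨x, hx, rfl⟩
    by_cases hxW : (fun i : Fin n => x i.succ) ∈ closure (rl (TX f))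
    · exact Or.inl (mem_interior_iff_mem_nhds.mpr (TX_open hf hxW (hpos x hx)))
    · exact Or.inr hxW
  rcases hUπ.subset_or_subset isOpen_interior isClosed_closure.isOpen_compl
    (Set.disjoint_compl_right_iff_subset.mpr interior_subset) hcov with h1 | h1
  · left
    intro x hx
    exact ⟨interior_subset (h1 ⟨x, hx, rfl⟩), (hU x hx).2⟩
  · right
    rw [Set.disjoint_left]
    rintro x hx ⟨hx1, -⟩
    exact h1 ⟨x, hx, rfl⟩ hx1

/-- coefficients -/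
lemma coeffs (c0 c1 c2 c3 c4 : ℚ) (q : Polynomial ℚ)
    (hq : q = Polynomial.C c0 + Polynomial.C c1 * Polynomial.X +
      Polynomial.C c2 * Polynomial.X ^ 2 + Polynomial.C c3 * Polynomial.X ^ 3 +
      Polynomial.C c4 * Polynomial.X ^ 4) :
    q.coeff 0 = c0 ∧ q.coeff 1 = c1 ∧ q.coeff 2 = c2 ∧ q.coeff 3 = c3 ∧ q.coeff 4 = c4 := by
  subst hq
  refine ⟨?_, ?_, ?_, ?_, ?_⟩ <;>
    simp [Polynomial.coeff_X, Polynomial.coeff_C, Polynomial.coeff_X_pow]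

lemma IJ_binomial {z A B : ℚ} {a b : ℕ} (ha : a ≤ 1) (hb : b = 3 ∨ b = 4) (q : Polynomial ℚ)
    (hq : q = Polynomial.C A * (Polynomial.C z + Polynomial.X) ^ a +
      Polynomial.C B * (Polynomial.C z + Polynomial.X) ^ b) : gI q = 0 ∨ gJ q = 0 := by
  have ha' : a = 0 ∨ a = 1 := by omega
  rcases ha' with rfl | rfl <;> rcases hb with rfl | rfl
  · obtain ⟨h0, h1, h2, h3, h4⟩ := coeffs (A + B * z ^ 3) (3 * B * z ^ 2) (3 * B * z) B 0 q (by
      rw [hq]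
      simp only [map_add, map_mul, map_pow, map_ofNat, map_zero]
      ring)
    left
    unfold gI
    rw [h0, h1, h2, h3, h4]
    ring
  · obtain ⟨h0, h1, h2, h3, h4⟩ := coeffs (A + B * z ^ 4) (4 * B * z ^ 3) (6 * B * z ^ 2)
      (4 * B * z) B q (by
      rw [hq]
      simp only [map_add, map_mul, map_pow, map_ofNat, map_zero]
      ring)
    right
    unfold gJ
    rw [h0, h1, h2, h3, h4]
    ring
  · obtain ⟨h0, h1, h2, h3, h4⟩ := coeffs (A * z + B * z ^ 3) (A + 3 * B * z ^ 2) (3 * B * z) B 0 q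
      (by
      rw [hq]
      simp only [map_add, map_mul, map_pow, map_ofNat, map_zero]
      ring)
    right
    unfold gJ
    rw [h0, h1, h2, h3, h4]
    ring
  · obtain ⟨h0, h1, h2, h3, h4⟩ := coeffs (A * z + B * z ^ 4) (A + 4 * B * z ^ 3) (6 * B * z ^ 2)
      (4 * B * z) B q (by
      rw [hq]
      simp only [map_add, map_mul, map_pow, map_ofNat, map_zero]
      ring)
    left
    unfold gI
    rw [h0, h1, h2, h3, h4]
    ring

lemma lk_monomial (m : Fin n →₀ ℕ) (c : ℚ) (z : Fin n → ℚ) (i : Fin n) :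
    ∃ A : ℚ, lk (MvPolynomial.monomial m c) z (Pi.single i 1) =
      Polynomial.C A * (Polynomial.C (z i) + Polynomial.X) ^ m i := by
  classical
  refine ⟨c * ∏ k ∈ Finset.univ.erase i, z k ^ m k, ?_⟩
  unfold lk
  rw [MvPolynomial.aeval_monomial, Finsupp.prod_fintype _ _ (fun i => pow_zero _),
    ← Finset.mul_prod_erase Finset.univ _ (Finset.mem_univ i)]
  have h1 : ∏ k ∈ Finset.univ.erase i, (Polynomial.C (z k) +
      Polynomial.C ((Pi.single i 1 : Fin n → ℚ) k) * Polynomial.X) ^ m k =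
      ∏ k ∈ Finset.univ.erase i, Polynomial.C (z k ^ m k) := by
    refine Finset.prod_congr rfl fun k hk => ?_
    rw [Pi.single_eq_of_ne (Finset.ne_of_mem_erase hk), map_zero, zero_mul, add_zero, map_pow]
  rw [h1, Pi.single_eq_same, map_one, one_mul, map_mul, map_prod, Polynomial.algebraMap_eq]
  ring

lemma lk_sum (f : MvPolynomial (Fin n) ℚ) (z : Fin n → ℚ) (i : Fin n) :
    lk f z (Pi.single i 1) = ∑ m ∈ f.support, lk (MvPolynomial.monomial m (f.coeff m)) z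
      (Pi.single i 1) := by
  conv_lhs => rw [f.as_sum]
  unfold lk
  rw [map_sum]

theorem lk_binomial {f : MvPolynomial (Fin n) ℚ} {i : Fin n} {a b : ℕ}
    (h : ∀ m ∈ f.support, m i = a ∨ m i = b) (z : Fin n → ℚ) :
    ∃ A B : ℚ, lk f z (Pi.single i 1) = Polynomial.C A * (Polynomial.C (z i) + Polynomial.X) ^ a +
      Polynomial.C B * (Polynomial.C (z i) + Polynomial.X) ^ b := by
  rw [lk_sum]
  refine Finset.sum_induction _ (fun q => ∃ A B : ℚ, q = Polynomial.C A *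
    (Polynomial.C (z i) + Polynomial.X) ^ a + Polynomial.C B *
    (Polynomial.C (z i) + Polynomial.X) ^ b) ?_ ?_ ?_
  · rintro q q' ⟨A, B, rfl⟩ ⟨A', B', rfl⟩
    exact ⟨A + A', B + B', by rw [map_add, map_add]; ring⟩
  · exact ⟨0, 0, by simp⟩
  · intro m hm
    obtain ⟨A, hA⟩ := lk_monomial m (f.coeff m) z i
    rcases h m hm with h1 | h1
    · exact ⟨A, 0, by rw [hA, h1]; simp⟩
    · exact ⟨0, A, by rw [hA, h1]; simp⟩

theorem dg_support {f : MvPolynomial (Fin n) ℚ} {i : Fin n} {d : ℕ}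
    (h : ∀ m ∈ f.support, m i ≤ d) : Dg f i d := by
  intro z
  rw [lk_sum]
  refine Polynomial.natDegree_sum_le_of_forall_le _ _ fun m hm => ?_
  obtain ⟨A, hA⟩ := lk_monomial m (f.coeff m) z i
  rw [hA]
  refine (Polynomial.natDegree_C_mul_le _ _).trans ?_
  refine (Polynomial.natDegree_pow_le).trans ?_
  have h1 : (Polynomial.C (z i) + Polynomial.X).natDegree ≤ 1 := by compute_degree
  calc m i * (Polynomial.C (z i) + Polynomial.X).natDegree ≤ m i * 1 := Nat.mul_le_mul_left _ h1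
    _ = m i := mul_one _
    _ ≤ d := h m hm

theorem ex_binomial {f : MvPolynomial (Fin n) ℚ}
    (h : ∀ i, (∀ m ∈ f.support, m i ≤ 2) ∨
      ∃ a b : ℕ, a ≤ 1 ∧ (b = 3 ∨ b = 4) ∧ ∀ m ∈ f.support, m i = a ∨ m i = b) :
    ∀ i, Dg f i 4 ∧ (Dg f i 2 ∨ ∀ z : Fin n → ℚ,
      gI (lk f z (Pi.single i 1)) = 0 ∨ gJ (lk f z (Pi.single i 1)) = 0) := by
  intro i
  rcases h i with h1 | ⟨a, b, ha, hb, h1⟩
  · exact ⟨dg_support fun m hm => (h1 m hm).trans (by norm_num), Or.inl (dg_support h1)⟩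
  · refine ⟨dg_support fun m hm => ?_, Or.inr fun z => ?_⟩
    · rcases h1 m hm with h2 | h2 <;> rcases hb with rfl | rfl <;> omega
    · obtain ⟨A, B, hq⟩ := lk_binomial h1 z
      exact IJ_binomial ha hb _ hq

end Pool.Agent.D0H62.IT
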