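import Pool.Agent.D0H62.IT.Qd

/-!
# Families of quadrics
-/

set_option autoImplicit false
set_option linter.unusedSectionVars false
set_option linter.unusedVariables false

open MvPolynomial Set Filter Topology Pool.Agent.H581R2 Pool.Agent.TH729.SQ

namespace Pool.Agent.D0H62.IT

/-- the real vector -/
def rv {ι : Type} (z : ι → ℚ) : ι → ℝ := fun i => (z i : ℝ)

lemma rl_rv {ι : Type} (S : Set (ι → ℚ)) : rl S = rv '' S := by
  ext x
  constructor
  · rintro ⟨z, hz, rfl⟩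
    exact ⟨z, hz, rfl⟩
  · rintro ⟨z, hz, rfl⟩
    exact ⟨z, hz, rfl⟩

/-- **Fibrations.** -/
theorem fibr {γ ι : Type} [Finite γ] [Finite ι] (S : Set (ι → ℚ)) (Q : (γ → ℝ) → (ι → ℝ) → Prop)
    (hlift : ∀ (y : γ → ℝ) (x : ι → ℝ), Q y x → ∃ F : (ι → ℝ) → (γ → ℝ), ContinuousAt F x ∧
      F x = y ∧ ∀ᶠ z in 𝓝 x, Q (F z) z)
    (hdens : ∀ z ∈ S, ∀ y : γ → ℝ, Q y (rv z) → y ∈ closure (rl {y' : γ → ℚ | Q (rv y') (rv z)})) :
    closure (rl {v : γ ⊕ ι → ℚ | (fun i => v (Sum.inr i)) ∈ S ∧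
      Q (rv fun s => v (Sum.inl s)) (rv fun i => v (Sum.inr i))}) =
    closure {x : γ ⊕ ι → ℝ | (fun i => x (Sum.inr i)) ∈ closure (rl S) ∧
      Q (fun s => x (Sum.inl s)) (fun i => x (Sum.inr i))} := by
  apply Set.Subset.antisymm
  · apply closure_mono
    rintro _ ⟨v, ⟨hv, hQ⟩, rfl⟩
    exact ⟨subset_closure ⟨_, hv, rfl⟩, hQ⟩
  · refine closure_minimal ?_ isClosed_closure
    rintro x ⟨hx, hQ⟩
    obtain ⟨F, hF, hFx, hev⟩ := hlift _ _ hQ
    set x2 : ι → ℝ := fun i => x (Sum.inr i) with hx2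
    -- the section
    have hG : ContinuousAt (fun z : ι → ℝ => (Sum.elim (F z) z : γ ⊕ ι → ℝ)) x2 := by
      refine continuousAt_pi.2 fun k => ?_
      rcases k with s | i
      · exact (continuous_apply s).continuousAt.comp hF
      · exact (continuous_apply i).continuousAt
    have hGx : (Sum.elim (F x2) x2 : γ ⊕ ι → ℝ) = x := by
      rw [hFx]
      funext k
      rcases k with s | i <;> rfl
    have h1 : x2 ∈ closure (rl S ∩ {z | Q (F z) z}) := by
      rw [mem_closure_iff_nhds] at hx ⊢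
      intro t ht
      obtain ⟨z, hz1, hz2⟩ := hx _ (inter_mem ht hev)
      exact ⟨z, hz1.1, hz2, hz1.2⟩
    have h2 := (hG.continuousWithinAt (s := rl S ∩ {z | Q (F z) z})).mem_closure_image h1
    rw [hGx] at h2
    refine closure_minimal ?_ isClosed_closure h2
    rintro _ ⟨_, ⟨⟨z, hz, rfl⟩, hQz⟩, rfl⟩
    have h3 := hdens z hz (F (rv z)) hQz
    have hH : Continuous fun y : γ → ℝ => (Sum.elim y (rv z) : γ ⊕ ι → ℝ) := by
      refine continuous_pi fun k => ?_
      rcases k with s | i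
      · exact continuous_apply s
      · exact continuous_const
    refine map_mem_closure (f := fun y : γ → ℝ => (Sum.elim y (rv z) : γ ⊕ ι → ℝ)) hH h3 ?_
    rintro _ ⟨y', hy', rfl⟩
    refine ⟨Sum.elim y' z, ⟨hz, hy'⟩, ?_⟩
    funext k
    rcases k with s | i <;> rfl

/-- lifting in one quadric -/
lemma lift_one {κ ι : Type} [Fintype κ] [Finite ι] {φ : κ → (ι → ℝ) → ℝ} {φ0 : (ι → ℝ) → ℝ}
    (hφ : ∀ s, Continuous (φ s)) (hφ0 : Continuous φ0) {y : κ → ℝ} {x : ι → ℝ}
    (h : qf (fun s => φ s x) y = φ0 x) (hn : ∃ s, φ s x * y s ≠ 0) :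
    ∃ F : (ι → ℝ) → (κ → ℝ), ContinuousAt F x ∧ F x = y ∧
      ∀ᶠ z in 𝓝 x, qf (fun s => φ s z) (F z) = φ0 z ∧ ∃ s, φ s z * F z s ≠ 0 := by
  classical
  obtain ⟨s0, hs0⟩ := hn
  have ha : φ s0 x ≠ 0 := left_ne_zero_of_mul hs0
  have hy : y s0 ≠ 0 := right_ne_zero_of_mul hs0
  set R : (ι → ℝ) → ℝ := fun z => φ0 z - ∑ s ∈ Finset.univ.erase s0, φ s z * y s ^ 2 with hR
  have hRc : Continuous R := by
    refine hφ0.sub (continuous_finsetSum _ fun s _ => (hφ s).mul continuous_const)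
  set ρ : (ι → ℝ) → ℝ := fun z => R z / (φ s0 z * y s0 ^ 2) with hρ
  have hRx : R x = φ s0 x * y s0 ^ 2 := by
    rw [hR]
    simp only
    rw [← h]
    unfold qf
    rw [← Finset.add_sum_erase Finset.univ _ (Finset.mem_univ s0)]
    ring
  have hρx : ρ x = 1 := by
    rw [hρ]
    simp only
    rw [hRx, div_self (mul_ne_zero ha (pow_ne_zero 2 hy))]
  have hρc : ContinuousAt ρ x := by
    refine ContinuousAt.div hRc.continuousAt ((hφ s0).mul continuous_const).continuousAt ?_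
    exact mul_ne_zero ha (pow_ne_zero 2 hy)
  refine ⟨fun z => Function.update y s0 (y s0 * √(ρ z)), ?_, ?_, ?_⟩
  · refine continuousAt_pi.2 fun s => ?_
    by_cases hs : s = s0
    · subst hs
      have : (fun z => Function.update y s (y s * √(ρ z)) s) = fun z => y s * √(ρ z) := by
        funext z
        rw [Function.update_self]
      rw [this]
      exact continuousAt_const.mul (Real.continuous_sqrt.continuousAt.comp hρc)
    · have : (fun z => Function.update y s0 (y s0 * √(ρ z)) s) = fun _ => y s := by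
        funext z
        rw [Function.update_of_ne hs]
      rw [this]
      exact continuousAt_const
  · simp only
    rw [hρx, Real.sqrt_one, mul_one, Function.update_eq_self]
  · have e1 : ∀ᶠ z in 𝓝 x, 0 < ρ z := by
      refine hρc.eventually (lt_mem_nhds ?_)
      rw [hρx]
      exact one_pos
    have e2 : ∀ᶠ z in 𝓝 x, φ s0 z ≠ 0 := (hφ s0).continuousAt.eventually_ne ha
    filter_upwards [e1, e2] with z hz1 hz2
    refine ⟨?_, s0, ?_⟩
    · unfold qf
      rw [← Finset.add_sum_erase Finset.univ _ (Finset.mem_univ s0), Function.update_self,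
        mul_pow, Real.sq_sqrt hz1.le]
      have h1 : φ s0 z * (y s0 ^ 2 * ρ z) = R z := by
        rw [hρ]
        simp only
        field_simp
      rw [h1, hR]
      simp only
      have h2 : ∑ s ∈ Finset.univ.erase s0, φ s z *
          (Function.update y s0 (y s0 * √(ρ z)) s) ^ 2 =
          ∑ s ∈ Finset.univ.erase s0, φ s z * y s ^ 2 := by
        refine Finset.sum_congr rfl fun s hs => ?_
        rw [Function.update_of_ne (Finset.ne_of_mem_erase hs)]
      rw [h2]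
      ring
    · rw [Function.update_self]
      exact mul_ne_zero hz2 (mul_ne_zero hy (Real.sqrt_pos.2 hz1).ne')

section sys

variable {J : Type} [Finite J] {κ : J → Type} [∀ j, Fintype (κ j)] {ι β : Type} [Finite ι]
  [Fintype β]

/-- the fibre conditions: nonsingular points of a quadric, or a linear space -/
def Rj {K : Type} [Fintype K] (m : Option (Set K)) (δ : K → ℝ) (c : ℝ) (y : K → ℝ) : Prop :=
  match m with
  | none => qf δ y = c ∧ ∃ s, δ s * y s ≠ 0
  | some B => ∀ s, s ∉ B → y s = 0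

/-- the base conditions -/
def Bj {K : Type} [Fintype K] (m : Option (Set K)) (δ : K → ℚ) (c : ℚ) : Prop :=
  match m with
  | none => ∃ y : K → ℚ, qf δ y = c ∧ ∃ s, δ s * y s ≠ 0
  | some B => c = 0 ∧ ∀ s ∈ B, δ s = 0

lemma eq_iff_mode {K : Type} [Fintype K] (δ : K → ℚ) (c : ℚ) (y : K → ℚ) :
    qf δ y = c ↔ ∃ m : Option (Set K), Bj m δ c ∧ Rj m (rv δ) (c : ℝ) (rv y) := by
  have hc : qf (rv δ) (rv y) = ((qf δ y : ℚ) : ℝ) := qf_cast δ y
  constructor
  · intro h
    by_cases hn : ∃ s, δ s * y s ≠ 0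
    · refine ⟨none, ⟨y, h, hn⟩, ?_, ?_⟩
      · rw [hc, h]
      · obtain ⟨s, hs⟩ := hn
        exact ⟨s, by unfold rv; exact_mod_cast hs⟩
    · push Not at hn
      refine ⟨some {s | δ s = 0}, ⟨?_, fun s hs => hs⟩, fun s hs => ?_⟩
      · rw [← h]
        unfold qf
        refine Finset.sum_eq_zero fun s _ => ?_
        rw [pow_two, ← mul_assoc, hn s, zero_mul]
      · have h1 : y s = 0 := (mul_eq_zero.1 (hn s)).resolve_left hs
        unfold rv
        rw [h1, Rat.cast_zero]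
  · rintro ⟨m, hB, hR⟩
    rcases m with _ | B
    · have := hR.1
      rw [hc] at this
      exact_mod_cast this
    · rw [hB.1]
      unfold qf
      refine Finset.sum_eq_zero fun s _ => ?_
      by_cases hs : s ∈ B
      · rw [hB.2 s hs, zero_mul]
      · have h1 : (y s : ℝ) = 0 := hR s hs
        have h2 : y s = 0 := by exact_mod_cast h1
        rw [h2]
        ring

lemma dens_mode {K : Type} [Fintype K] (m : Option (Set K)) (δ : K → ℚ) (c : ℚ) (hB : Bj m δ c)
    (y : K → ℝ) (hR : Rj m (rv δ) (c : ℝ) y) :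
    y ∈ closure (rl {y' : K → ℚ | Rj m (rv δ) (c : ℝ) (rv y')}) := by
  classical
  rcases m with _ | B
  · obtain ⟨y0, h0, hn0⟩ := hB
    refine closure_mono ?_ (quad_dense h0 hn0 hR.1 hR.2)
    rintro _ ⟨u, ⟨hu1, s, hs⟩, rfl⟩
    refine ⟨u, ⟨?_, s, ?_⟩, rfl⟩
    · have hc : qf (rv δ) (rv u) = ((qf δ u : ℚ) : ℝ) := qf_cast δ u
      rw [hc, hu1]
    · unfold rv
      exact_mod_cast hs
  · have h1 : Continuous fun u : K → ℝ => fun s => if s ∈ B then u s else 0 := by
      refine continuous_pi fun s => ?_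
      by_cases hs : s ∈ B
      · simp only [if_pos hs]
        exact continuous_apply s
      · simp only [if_neg hs]
        exact continuous_const
    have h2 : (fun s => if s ∈ B then y s else 0) = y := by
      funext s
      by_cases hs : s ∈ B
      · rw [if_pos hs]
      · rw [if_neg hs]
        exact (hR s hs).symm
    rw [← h2]
    refine map_mem_closure h1 (rat_dense y) ?_
    rintro _ ⟨u, rfl⟩
    refine ⟨fun s => if s ∈ B then u s else 0, fun s hs => ?_, ?_⟩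
    · change (((if s ∈ B then u s else 0) : ℚ) : ℝ) = 0
      rw [if_neg hs, Rat.cast_zero]
    · funext s
      by_cases hs : s ∈ B
      · simp only [if_pos hs]
      · simp only [if_neg hs, Rat.cast_zero]

lemma lift_mode {K : Type} [Fintype K] (m : Option (Set K)) {φ : K → (ι → ℝ) → ℝ}
    {φ0 : (ι → ℝ) → ℝ} (hφ : ∀ s, Continuous (φ s)) (hφ0 : Continuous φ0) {y : K → ℝ}
    {x : ι → ℝ} (h : Rj m (fun s => φ s x) (φ0 x) y) :
    ∃ F : (ι → ℝ) → (K → ℝ), ContinuousAt F x ∧ F x = y ∧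
      ∀ᶠ z in 𝓝 x, Rj m (fun s => φ s z) (φ0 z) (F z) := by
  rcases m with _ | B
  · exact lift_one hφ hφ0 h.1 h.2
  · exact ⟨fun _ => y, continuousAt_const, rfl, Eventually.of_forall fun z => h⟩

/-- the fibre conditions of the system -/
def Qm (φ : ∀ j, κ j → MvPolynomial ι ℚ) (φ0 : J → MvPolynomial ι ℚ)
    (m : ∀ j, Option (Set (κ j))) (y : (Σ j, κ j) → ℝ) (x : ι → ℝ) : Prop :=
  ∀ j, Rj (m j) (fun s => aeval x (φ j s)) (aeval x (φ0 j)) (fun s => y ⟨j, s⟩)

/-- the system with given modes -/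
theorem sys_closure (S : Set (ι → ℚ)) (φ : ∀ j, κ j → MvPolynomial ι ℚ)
    (φ0 : J → MvPolynomial ι ℚ) (m : ∀ j, Option (Set (κ j)))
    (hS : ∀ z ∈ S, ∀ j, Bj (m j) (fun s => eval z (φ j s)) (eval z (φ0 j))) :
    closure (rl {v : (Σ j, κ j) ⊕ ι → ℚ | (fun i => v (Sum.inr i)) ∈ S ∧
      Qm φ φ0 m (rv fun s => v (Sum.inl s)) (rv fun i => v (Sum.inr i))}) =
    closure {x : (Σ j, κ j) ⊕ ι → ℝ | (fun i => x (Sum.inr i)) ∈ closure (rl S) ∧
      Qm φ φ0 m (fun s => x (Sum.inl s)) (fun i => x (Sum.inr i))} := by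
  classical
  have hc : ∀ f : MvPolynomial ι ℚ, Continuous fun x : ι → ℝ => (aeval x f : ℝ) := fun f =>
    PF.continuous (PF.aeval f)
  refine fibr S (Qm φ φ0 m) ?_ ?_
  · intro y x h
    choose F hF hFx hev using fun j => lift_mode (m j) (fun s => hc (φ j s)) (hc (φ0 j)) (h j)
    refine ⟨fun z k => F k.1 z k.2, ?_, ?_, ?_⟩
    · refine continuousAt_pi.2 fun k => ?_
      exact (continuous_apply k.2).continuousAt.comp (hF k.1)
    · funext k
      exact congrFun (hFx k.1) k.2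
    · have h9 := eventually_all.2 hev
      filter_upwards [h9] with z hz
      exact hz
  · intro z hz y h
    have hcast : ∀ f : MvPolynomial ι ℚ, (aeval (rv z) f : ℝ) = ((eval z f : ℚ) : ℝ) :=
      fun f => Pool.Agent.TH729.SQ.aeval_cast z f
    have h1 : ∀ j, (fun s => y ⟨j, s⟩) ∈ closure (rl {y' : κ j → ℚ |
        Rj (m j) (rv fun s => eval z (φ j s)) ((eval z (φ0 j) : ℚ) : ℝ) (rv y')}) := by
      intro j
      refine dens_mode (m j) _ _ (hS z hz j) _ ?_
      have h2 : Rj (m j) (fun s => aeval (rv z) (φ j s)) (aeval (rv z) (φ0 j))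
        (fun s => y ⟨j, s⟩) := h j
      simp only [hcast] at h2
      exact h2
    have : Fintype J := Fintype.ofFinite J
    rw [Metric.mem_closure_iff]
    intro ε hε
    have h3 : ∀ j, ∃ y' : κ j → ℚ, Rj (m j) (rv fun s => eval z (φ j s))
        ((eval z (φ0 j) : ℚ) : ℝ) (rv y') ∧ dist (fun s => y ⟨j, s⟩) (rv y') < ε := by
      intro j
      have h4 := h1 j
      rw [Metric.mem_closure_iff] at h4
      obtain ⟨_, ⟨y', hy', rfl⟩, h5⟩ := h4 ε hε
      exact ⟨y', hy', h5⟩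
    choose y' hy' hd using h3
    refine ⟨_, ⟨fun k => y' k.1 k.2, fun j => ?_, rfl⟩, ?_⟩
    · have h6 := hy' j
      simp only [hcast]
      exact h6
    · rw [dist_pi_lt_iff hε]
      rintro ⟨j, s⟩
      exact (dist_pi_lt_iff hε).1 (hd j) s

lemma sa_mode {α : Type} {K : Type} [Fintype K] (m : Option (Set K)) {δ y : K → (α → ℝ) → ℝ}
    {c : (α → ℝ) → ℝ} (hδ : ∀ s, PF (δ s)) (hy : ∀ s, PF (y s)) (hc : PF c) :
    SAP (fun x => Rj m (fun s => δ s x) (c x) (fun s => y s x)) := by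
  classical
  rcases m with _ | B
  · refine SAP.and (SAP.eq ?_ hc) (SAP.exists_fin fun s => (SAP.eq_zero ((hδ s).mul (hy s))).not)
    exact PF.sum _ fun s _ => (hδ s).mul ((hy s).pow 2)
  · refine SAP.forall_fin fun s => ?_
    by_cases hs : s ∈ B
    · exact SAP.congr (SAP.const True) fun v => ⟨fun _ => trivial, fun _ h => absurd hs h⟩
    · exact SAP.congr (SAP.eq_zero (hy s)) fun v => ⟨fun h => h hs, fun h _ => h⟩

/-- unions over finite types -/
lemma iUnion_SA {α σ : Type} [Finite α] {D : α → Set (σ → ℚ)} (h : ∀ a, SA (closure (rl (D a)))) :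
    SA (closure (rl {v | ∃ a, v ∈ D a})) := by
  have h1 : closure (rl {v | ∃ a, v ∈ D a}) = ⋃ a, closure (rl (D a)) := by
    rw [← closure_iUnion_of_finite]
    congr 1
    ext x
    rw [Set.mem_iUnion]
    constructor
    · rintro ⟨z, ⟨a, ha⟩, rfl⟩
      exact ⟨a, z, ha, rfl⟩
    · rintro ⟨a, z, ha, rfl⟩
      exact ⟨z, ⟨a, ha⟩, rfl⟩
  rw [h1]
  have h2 : SAP (fun x : σ → ℝ => ∃ a, x ∈ closure (rl (D a))) := SAP.exists_fin fun a => h a
  exact SAP.congr (q := fun x => x ∈ ⋃ a, closure (rl (D a))) h2 fun x => Set.mem_iUnion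

/-- a monomial in the values -/
def mon (c : ℚ) (E : β → ℕ) (δ : β → ℚ) : ℚ := c * ∏ b, δ b ^ E b

/-- the polynomial -/
noncomputable def mp (h : β → MvPolynomial ι ℚ) (c : ℚ) (E : β → ℕ) : MvPolynomial ι ℚ :=
  C c * ∏ b, h b ^ E b

lemma eval_mp (h : β → MvPolynomial ι ℚ) (c : ℚ) (E : β → ℕ) (z : ι → ℚ) :
    eval z (mp h c E) = mon c E (fun b => eval z (h b)) := by
  unfold mp mon
  rw [map_mul, eval_C, map_prod]
  simp only [map_pow]

lemma mon_sq (c : ℚ) (E : β → ℕ) (δ u : β → ℚ) :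
    mon c E (fun b => δ b * u b ^ 2) = mon c E δ * (∏ b, u b ^ E b) ^ 2 := by
  unfold mon
  rw [mul_assoc, ← Finset.prod_pow, ← Finset.prod_mul_distrib]
  congr 1
  refine Finset.prod_congr rfl fun b _ => ?_
  ring

lemma bj_inv {K : Type} [Fintype K] (m : Option (Set K)) {δ δ' w : K → ℚ} {c c' w0 : ℚ}
    (hw : ∀ s, w s ≠ 0) (hw0 : w0 ≠ 0) (hδ : ∀ s, δ' s = δ s * w s ^ 2) (hc : c' = c * w0 ^ 2)
    (h : Bj m δ c) : Bj m δ' c' := by
  rcases m with _ | B
  · obtain ⟨y, hy, s, hs⟩ := h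
    refine ⟨fun s => y s * w0 / w s, ?_, s, ?_⟩
    · rw [hc, ← hy]
      unfold qf
      rw [Finset.sum_mul]
      refine Finset.sum_congr rfl fun s _ => ?_
      rw [hδ]
      have := hw s
      field_simp
    · rw [hδ]
      have h1 := hw s
      have h2 : δ s ≠ 0 := left_ne_zero_of_mul hs
      have h3 : y s ≠ 0 := right_ne_zero_of_mul hs
      positivity
  · refine ⟨by rw [hc, h.1, zero_mul], fun s hs => ?_⟩
    rw [hδ, h.2 s hs, zero_mul]

/-- **Systems of diagonal quadrics in separate variables.** -/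
theorem systems (blk : ι → Option β) {h : β → MvPolynomial ι ℚ}
    (hb : ∀ b i, blk i ≠ some b → (h b).degreeOf i = 0) (hF : ∀ b, Fam (h b))
    (c : ∀ j, κ j → ℚ) (E : ∀ j, κ j → β → ℕ) (c0 : J → ℚ) (E0 : J → β → ℕ)
    (D : Set (β → ℚ)) (hD : Inv D) :
    SA (closure (rl {v : (Σ j, κ j) ⊕ ι → ℚ |
      (fun b => eval (fun i => v (Sum.inr i)) (h b)) ∈ D ∧
      ∀ j, ∑ s, mon (c j s) (E j s) (fun b => eval (fun i => v (Sum.inr i)) (h b)) *
        v (Sum.inl ⟨j, s⟩) ^ 2 =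
        mon (c0 j) (E0 j) (fun b => eval (fun i => v (Sum.inr i)) (h b))})) := by
  classical
  have : Fintype J := Fintype.ofFinite J
  set T := {v : (Σ j, κ j) ⊕ ι → ℚ |
      (fun b => eval (fun i => v (Sum.inr i)) (h b)) ∈ D ∧
      ∀ j, ∑ s, mon (c j s) (E j s) (fun b => eval (fun i => v (Sum.inr i)) (h b)) *
        v (Sum.inl ⟨j, s⟩) ^ 2 =
        mon (c0 j) (E0 j) (fun b => eval (fun i => v (Sum.inr i)) (h b))} with hT
  set Dm : (∀ j, Option (Set (κ j))) → Set (β → ℚ) := fun m => {δ | δ ∈ D ∧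
    ∀ j, Bj (m j) (fun s => mon (c j s) (E j s) δ) (mon (c0 j) (E0 j) δ)} with hDm
  have hInv : ∀ m, Inv (Dm m) := by
    rintro m δ ⟨h1, h2⟩ u hu
    refine ⟨hD δ h1 u hu, fun j => ?_⟩
    refine bj_inv (m j) (w := fun s => ∏ b, u b ^ E j s b) (w0 := ∏ b, u b ^ E0 j b)
      (fun s => Finset.prod_ne_zero_iff.2 fun b _ => pow_ne_zero _ (hu b))
      (Finset.prod_ne_zero_iff.2 fun b _ => pow_ne_zero _ (hu b))
      (fun s => mon_sq _ _ _ _) (mon_sq _ _ _ _) (h2 j)
  set Tm : (∀ j, Option (Set (κ j))) → Set ((Σ j, κ j) ⊕ ι → ℚ) := fun m =>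
    {v : (Σ j, κ j) ⊕ ι → ℚ | (fun i => v (Sum.inr i)) ∈ Sd h (Dm m) ∧
      Qm (fun j s => mp h (c j s) (E j s)) (fun j => mp h (c0 j) (E0 j)) m
        (rv fun s => v (Sum.inl s)) (rv fun i => v (Sum.inr i))} with hTm
  have hcast : ∀ (z : ι → ℚ) (f : MvPolynomial ι ℚ), (aeval (rv z) f : ℝ) =
      ((eval z f : ℚ) : ℝ) := fun z f => Pool.Agent.TH729.SQ.aeval_cast z f
  have hTU : T = {v | ∃ m, v ∈ Tm m} := by
    ext v
    set δ : β → ℚ := fun b => eval (fun i => v (Sum.inr i)) (h b) with hδ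
    have key : ∀ j, (∑ s, mon (c j s) (E j s) δ * v (Sum.inl ⟨j, s⟩) ^ 2 = mon (c0 j) (E0 j) δ ↔
        ∃ m : Option (Set (κ j)), Bj m (fun s => mon (c j s) (E j s) δ) (mon (c0 j) (E0 j) δ) ∧
          Rj m (rv fun s => mon (c j s) (E j s) δ) ((mon (c0 j) (E0 j) δ : ℚ) : ℝ)
            (rv fun s => v (Sum.inl ⟨j, s⟩))) := fun j => eq_iff_mode _ _ _
    constructor
    · rintro ⟨h1, h2⟩
      choose m hm1 hm2 using fun j => (key j).1 (h2 j)
      refine ⟨m, ⟨h1, hm1⟩, fun j => ?_⟩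
      have h4 := hm2 j
      simp only [hcast, eval_mp]
      exact h4
    · rintro ⟨m, ⟨h1, h2⟩, h3⟩
      refine ⟨h1, fun j => (key j).2 ⟨m j, h2 j, ?_⟩⟩
      have h4 : Rj (m j) (fun s => aeval (rv fun i => v (Sum.inr i)) (mp h (c j s) (E j s)))
        (aeval (rv fun i => v (Sum.inr i)) (mp h (c0 j) (E0 j)))
        (fun s => rv (fun s => v (Sum.inl s)) ⟨j, s⟩) := h3 j
      simp only [hcast, eval_mp] at h4
      exact h4
  rw [hTU]
  refine iUnion_SA fun m => ?_
  have h5 := sys_closure (Sd h (Dm m)) (fun j s => mp h (c j s) (E j s))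
    (fun j => mp h (c0 j) (E0 j)) m (by
      rintro z ⟨-, h2⟩ j
      simp only [eval_mp]
      exact h2 j)
  change SA (closure (rl {v : (Σ j, κ j) ⊕ ι → ℚ | (fun i => v (Sum.inr i)) ∈ Sd h (Dm m) ∧
      Qm (fun j s => mp h (c j s) (E j s)) (fun j => mp h (c0 j) (E0 j)) m
        (rv fun s => v (Sum.inl s)) (rv fun i => v (Sum.inr i))}))
  rw [h5]
  refine SA.closure (SAP.and ?_ (SAP.forall_fin fun j => ?_))
  · exact SAP.preimage (p := fun x => x ∈ closure (rl (Sd h (Dm m))))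
      ((boxes blk hb hF).2 _ (hInv m)) (fun i => PF.coord _)
  · have hpf : ∀ f : MvPolynomial ι ℚ, PF (fun x : (Σ j, κ j) ⊕ ι → ℝ =>
        (aeval (fun i => x (Sum.inr i)) f : ℝ)) := fun f =>
      (PF.aeval f).comp (φ := fun (w : (Σ j, κ j) ⊕ ι → ℝ) i => w (Sum.inr i))
        (fun i => PF.coord _)
    exact sa_mode (m j) (fun s => hpf _) (fun s => PF.coord _) (hpf _)

/-- **Values of rational functions.** -/
theorem img_sa {σ τ : Type} [Finite σ] [Finite τ] {D : Set (σ → ℚ)} (hD : SA (closure (rl D)))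
    (p : τ → MvPolynomial σ ℚ) (q : MvPolynomial σ ℚ) :
    SA (closure {y : τ → ℝ | ∃ u ∈ D, eval u q ≠ 0 ∧ ∀ k, y k =
      ((eval u (p k) / eval u q : ℚ) : ℝ)}) := by
  have h1 := SA.image_rat hD p q
  have h2 : closure {y : τ → ℝ | ∃ u ∈ D, eval u q ≠ 0 ∧ ∀ k, y k =
      ((eval u (p k) / eval u q : ℚ) : ℝ)} = closure {y : τ → ℝ | ∃ x ∈ closure (rl D),
      MvPolynomial.aeval x q ≠ 0 ∧ ∀ k, y k = MvPolynomial.aeval x (p k) /
        MvPolynomial.aeval x q} := by
    apply Set.Subset.antisymm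
    · apply closure_mono
      rintro y ⟨u, hu, hq, hy⟩
      refine ⟨_, subset_closure ⟨u, hu, rfl⟩, ?_, fun k => ?_⟩
      · rw [Pool.Agent.TH729.SQ.aeval_cast]
        exact_mod_cast hq
      · rw [Pool.Agent.TH729.SQ.aeval_cast, Pool.Agent.TH729.SQ.aeval_cast, hy k]
        push_cast
        rfl
    · refine closure_minimal ?_ isClosed_closure
      rintro y ⟨x, hx, hq, hy⟩
      have hqo : IsOpen {w : σ → ℝ | (MvPolynomial.aeval w q : ℝ) ≠ 0} :=
        isOpen_ne_fun (PF.continuous (PF.aeval q)) continuous_const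
      have hx2 : x ∈ closure (rl D ∩ {w | (MvPolynomial.aeval w q : ℝ) ≠ 0}) := by
        rw [mem_closure_iff_nhds] at hx ⊢
        intro t ht
        obtain ⟨z, hz1, hz2⟩ := hx _ (inter_mem ht (hqo.mem_nhds hq))
        exact ⟨z, hz1.1, hz2, hz1.2⟩
      set φ : (σ → ℝ) → τ → ℝ := fun w k =>
        MvPolynomial.aeval w (p k) / MvPolynomial.aeval w q with hφ
      have hφc : ContinuousWithinAt φ (rl D ∩ {w | (MvPolynomial.aeval w q : ℝ) ≠ 0}) x := by
        refine ContinuousAt.continuousWithinAt (continuousAt_pi.2 fun k => ?_)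
        exact (PF.continuous (PF.aeval (p k))).continuousAt.div
          (PF.continuous (PF.aeval q)).continuousAt hq
      have hyφ : y = φ x := funext hy
      rw [hyφ]
      refine closure_mono ?_ (hφc.mem_closure_image hx2)
      rintro _ ⟨_, ⟨⟨u, hu, rfl⟩, hz⟩, rfl⟩
      refine ⟨u, hu, ?_, fun k => ?_⟩
      · intro h0
        apply hz
        rw [Pool.Agent.TH729.SQ.aeval_cast, h0, Rat.cast_zero]
      · simp only [hφ]
        rw [Pool.Agent.TH729.SQ.aeval_cast, Pool.Agent.TH729.SQ.aeval_cast]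
        push_cast
        rfl
  rw [h2]
  exact SA.closure h1

end sys

end Pool.Agent.D0H62.IT
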