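import Pool.Agent.D0H62.IT.Tors
import Pool.Agent.N890.DU.TOR

/-!
# Twists of one curve: finitely many degenerate abscissas
-/

set_option autoImplicit false
set_option linter.unusedSectionVars false
set_option linter.unusedVariables false

open WeierstrassCurve Pool.Agent.Y720.MZ Pool.Agent.Y718.X

namespace Pool.Agent.D0H62.IT

section inv

variable {R : Type*} [CommRing R]

/-- the invariants of the reduced form of the resolvent -/
def i3 (q : Polynomial R) : R := 3 * Bb q - Pool.Agent.Y718.X.Ab q ^ 2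
/-- the second invariant -/
def i6 (q : Polynomial R) : R := 27 * Cb q - 9 * Pool.Agent.Y718.X.Ab q * Bb q +
  2 * Pool.Agent.Y718.X.Ab q ^ 3

lemma Db_i (q : Polynomial R) : 27 * Db q = -(4 * i3 q ^ 3) - i6 q ^ 2 := by
  unfold Db dsc i3 i6
  ring

variable {g : Polynomial R} (hg : g.natDegree ≤ 4) (t : R)

include hg in
lemma tc (k : ℕ) : (Polynomial.taylor t g).coeff k = ∑ n ∈ Finset.range 5,
    ((n + k).choose k : R) * g.coeff (n + k) * t ^ n := by
  rw [Polynomial.taylor_coeff, Polynomial.eval_eq_sum_range' (n := 5)]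
  · refine Finset.sum_congr rfl fun n _ => ?_
    rw [Polynomial.hasseDeriv_coeff]
  · exact lt_of_le_of_lt (Polynomial.natDegree_hasseDeriv_le g k) (by omega)

include hg in
lemma tc0 : (Polynomial.taylor t g).coeff 0 = g.coeff 0 + g.coeff 1 * t + g.coeff 2 * t ^ 2 +
    g.coeff 3 * t ^ 3 + g.coeff 4 * t ^ 4 := by
  rw [tc hg]
  simp [Finset.sum_range_succ]

include hg in
lemma tc1 : (Polynomial.taylor t g).coeff 1 = g.coeff 1 + 2 * g.coeff 2 * t +
    3 * g.coeff 3 * t ^ 2 + 4 * g.coeff 4 * t ^ 3 := by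
  rw [tc hg]
  have h5 : g.coeff 5 = 0 := Polynomial.coeff_eq_zero_of_natDegree_lt (by omega)
  simp [Finset.sum_range_succ, h5]
  norm_num

include hg in
lemma tc2 : (Polynomial.taylor t g).coeff 2 = g.coeff 2 + 3 * g.coeff 3 * t +
    6 * g.coeff 4 * t ^ 2 := by
  rw [tc hg]
  have h5 : g.coeff 5 = 0 := Polynomial.coeff_eq_zero_of_natDegree_lt (by omega)
  have h6 : g.coeff 6 = 0 := Polynomial.coeff_eq_zero_of_natDegree_lt (by omega)
  have c1 : Nat.choose 3 2 = 3 := rfl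
  have c2 : Nat.choose 4 2 = 6 := rfl
  simp [Finset.sum_range_succ, h5, h6, c1, c2]

include hg in
lemma tc3 : (Polynomial.taylor t g).coeff 3 = g.coeff 3 + 4 * g.coeff 4 * t := by
  rw [tc hg]
  have h5 : g.coeff 5 = 0 := Polynomial.coeff_eq_zero_of_natDegree_lt (by omega)
  have h6 : g.coeff 6 = 0 := Polynomial.coeff_eq_zero_of_natDegree_lt (by omega)
  have h7 : g.coeff 7 = 0 := Polynomial.coeff_eq_zero_of_natDegree_lt (by omega)
  have c1 : Nat.choose 4 3 = 4 := rfl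
  simp [Finset.sum_range_succ, h5, h6, h7, c1]

include hg in
lemma tc4 : (Polynomial.taylor t g).coeff 4 = g.coeff 4 := by
  rw [tc hg]
  have h5 : g.coeff 5 = 0 := Polynomial.coeff_eq_zero_of_natDegree_lt (by omega)
  have h6 : g.coeff 6 = 0 := Polynomial.coeff_eq_zero_of_natDegree_lt (by omega)
  have h7 : g.coeff 7 = 0 := Polynomial.coeff_eq_zero_of_natDegree_lt (by omega)
  have h8 : g.coeff 8 = 0 := Polynomial.coeff_eq_zero_of_natDegree_lt (by omega)
  simp [Finset.sum_range_succ, h5, h6, h7, h8]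

include hg in
lemma i3_taylor : i3 (Polynomial.taylor t g) = i3 g := by
  unfold i3 Pool.Agent.Y718.X.Ab Bb
  rw [tc0 hg, tc1 hg, tc2 hg, tc3 hg, tc4 hg]
  ring

include hg in
lemma i6_taylor : i6 (Polynomial.taylor t g) = i6 g := by
  unfold i6 Pool.Agent.Y718.X.Ab Bb Cb
  rw [tc0 hg, tc1 hg, tc2 hg, tc3 hg, tc4 hg]
  ring

lemma i3_C (d : R) (q : Polynomial R) : i3 (Polynomial.C d * q) = d ^ 2 * i3 q := by
  unfold i3 Pool.Agent.Y718.X.Ab Bb
  simp only [Polynomial.coeff_C_mul]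
  ring

lemma i6_C (d : R) (q : Polynomial R) : i6 (Polynomial.C d * q) = d ^ 3 * i6 q := by
  unfold i6 Pool.Agent.Y718.X.Ab Bb Cb
  simp only [Polynomial.coeff_C_mul]
  ring

end inv

lemma i3_map {R S : Type*} [CommRing R] [CommRing S] (φ : R →+* S) (q : Polynomial R) :
    i3 (q.map φ) = φ (i3 q) := by
  unfold i3
  rw [map_Bb, map_Ab]
  simp only [map_sub, map_mul, map_pow, map_ofNat]

lemma i6_map {R S : Type*} [CommRing R] [CommRing S] (φ : R →+* S) (q : Polynomial R) :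
    i6 (q.map φ) = φ (i6 q) := by
  unfold i6
  rw [map_Bb, map_Ab, map_Cb]
  simp only [map_sub, map_add, map_mul, map_pow, map_ofNat]

/-- a multiple zero makes the discriminant vanish -/
lemma dbl_zero {K : Type*} [Field K] [CharZero K] {G : Polynomial K} (hG : G.natDegree ≤ 4)
    {θ : K} (h0 : G.eval θ = 0) (h1 : G.derivative.eval θ = 0) :
    4 * i3 G ^ 3 + i6 G ^ 2 = 0 := by
  have c0 : (Polynomial.taylor θ G).coeff 0 = 0 := by rw [Polynomial.taylor_coeff_zero, h0]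
  have c1 : (Polynomial.taylor θ G).coeff 1 = 0 := by rw [Polynomial.taylor_coeff_one, h1]
  rw [← i3_taylor hG θ, ← i6_taylor hG θ]
  unfold i3 i6 Pool.Agent.Y718.X.Ab Bb Cb
  rw [c0, c1]
  ring

lemma Db_q {g : Polynomial ℚ} (hg : g.natDegree ≤ 4) (d t : ℚ) :
    Db (Polynomial.C d * Polynomial.taylor t g) = d ^ 6 * Db g := by
  have h1 := Db_i (Polynomial.C d * Polynomial.taylor t g)
  have h2 := Db_i g
  rw [i3_C, i6_C, i3_taylor hg, i6_taylor hg] at h1
  linear_combination (1 / 27) * h1 - (d ^ 6 / 27) * h2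

lemma nat_ne_zero {g : Polynomial ℚ} (hD : Db g ≠ 0) : g.natDegree ≠ 0 := by
  intro h
  apply hD
  have c (k : ℕ) (hk : 0 < k) : g.coeff k = 0 := Polynomial.coeff_eq_zero_of_natDegree_lt (by omega)
  unfold Db dsc Pool.Agent.Y718.X.Ab Bb Cb
  rw [c 1 (by norm_num), c 2 (by norm_num), c 3 (by norm_num), c 4 (by norm_num)]
  ring

open scoped Classical in
/-- the abscissa -/
noncomputable def xc {K : Type*} [Field K] {A B : K} (P : Pt 0 A B) : K :=
  match P with
  | 0 => 0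
  | .some x _ _ => x

open scoped Classical in
/-- **Finitely many degenerate abscissas.** -/
theorem fin_bad {g : Polynomial ℚ} (hg : g.natDegree ≤ 4) (hD : Db g ≠ 0) :
    {t : ℚ | ∃ d w : ℚ, d ≠ 0 ∧ w ≠ 0 ∧ w ^ 2 = d * g.eval t ∧
      ¬ Inf (Polynomial.C d * Polynomial.taylor t g)}.Finite := by
  -- a prime number
  obtain ⟨M0, hM0⟩ := Pool.Agent.Y718.good_fin {Db g, i3 g}
  obtain ⟨r, hr, hrp⟩ := Nat.exists_infinite_primes (max M0 5 + 1)
  have : Fact r.Prime := ⟨hrp⟩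
  have hrM : M0 < r := lt_of_le_of_lt (le_max_left _ _) (Nat.lt_of_succ_le hr)
  have hr5 : 5 ≤ r := (le_max_right M0 5).trans (Nat.le_of_succ_le hr)
  have hgood := hM0 r hrM
  have g1 : vp r (Db g) = 1 := by
    rw [vp_eq]
    exact (hgood _ (by simp)).2 hD
  have g2 : vp r (i3 g) ≤ 1 := by
    rw [vp_eq]
    exact (hgood _ (by simp)).1
  obtain ⟨N, hN⟩ := torsion_bound r hr5
  -- the fixed curve
  set K := AlgebraicClosure ℚ with hK
  set ι := algebraMap ℚ K with hι
  set A := ι (i3 g / 3) with hA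
  set B := ι (i6 g / 27) with hB
  have hDisc : Pool.Agent.H901R3.MS.Disc A B := by
    unfold Pool.Agent.H901R3.MS.Disc
    have h1 : (2 : K) * (4 * A ^ 3 + 27 * B ^ 2) = ι (-(2 * Db g)) := by
      have h2 : -(2 * Db g) = 2 * (4 * (i3 g / 3) ^ 3 + 27 * (i6 g / 27) ^ 2) := by
        linear_combination (-2 / 27) * Db_i g
      rw [h2, hA, hB]
      simp only [map_add, map_mul, map_pow, map_ofNat]
    rw [h1, map_ne_zero]
    exact neg_ne_zero.2 (mul_ne_zero two_ne_zero hD)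
  have hfin : (⋃ M ∈ Finset.Icc 1 N, {P : Pt 0 A B | M • P = 0}).Finite := by
    refine Set.Finite.biUnion (Finset.finite_toSet _) fun M hM => ?_
    have := (Pool.Agent.N890.DU.TOR.card_torsion hDisc (Finset.mem_Icc.1 hM).1).1
    exact this
  have hX : {X0 : ℚ | ι X0 ∈ xc '' (⋃ M ∈ Finset.Icc 1 N, {P : Pt 0 A B | M • P = 0})}.Finite :=
    Set.Finite.preimage ι.injective.injOn (hfin.image _)
  -- the polynomials
  set Φ : ℚ → Polynomial ℚ := fun X0 => 3 * g.derivative ^ 2 -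
    8 * (g * Polynomial.hasseDeriv 2 g) - Polynomial.C (12 * X0) * g with hΦ
  have hΦ0 : ∀ X0, Φ X0 ≠ 0 := by
    intro X0 h0
    obtain ⟨θ, hθ⟩ := IsAlgClosed.exists_aeval_eq_zero K g (by
      intro h1
      exact nat_ne_zero hD (Polynomial.natDegree_eq_of_degree_eq_some (by rw [h1]; rfl)))
    have h1 : Polynomial.aeval θ (Φ X0) = 3 * (Polynomial.aeval θ g.derivative) ^ 2 := by
      rw [hΦ]
      simp only [map_sub, map_mul, map_pow, map_ofNat, hθ]
      ring
    rw [h0, map_zero] at h1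
    have h2 : Polynomial.aeval θ g.derivative = 0 := by
      have := (mul_eq_zero.1 h1.symm).resolve_left three_ne_zero
      exact pow_eq_zero_iff (two_ne_zero) |>.mp this
    have h3 := dbl_zero (G := g.map ι) (θ := θ) (by rw [Polynomial.natDegree_map]; exact hg)
      (by rw [Polynomial.eval_map]; exact hθ)
      (by rw [Polynomial.derivative_map, Polynomial.eval_map]; exact h2)
    rw [i3_map, i6_map] at h3
    have h4 : ι (4 * i3 g ^ 3 + i6 g ^ 2) = 0 := by
      rw [← h3]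
      simp only [map_add, map_mul, map_pow, map_ofNat]
    rw [map_eq_zero] at h4
    apply hD
    linear_combination (1 / 27) * Db_i g - (1 / 27) * h4
  refine ((hX.biUnion fun X0 _ => Polynomial.finite_setOf_isRoot (hΦ0 X0))).subset ?_
  rintro t ⟨d, w, hd, hw, hwd, hnd⟩
  set q := Polynomial.C d * Polynomial.taylor t g with hq
  have hDq : Db q ≠ 0 := by
    rw [hq, Db_q hg]
    exact mul_ne_zero (pow_ne_zero 6 hd) hD
  have q0 : q.coeff 0 = d * g.eval t := by
    rw [hq, Polynomial.coeff_C_mul, Polynomial.taylor_coeff_zero]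
  have q1 : q.coeff 1 = d * g.derivative.eval t := by
    rw [hq, Polynomial.coeff_C_mul, Polynomial.taylor_coeff_one]
  have q2 : q.coeff 2 = d * (Polynomial.hasseDeriv 2 g).eval t := by
    rw [hq, Polynomial.coeff_C_mul, Polynomial.taylor_coeff]
  have hw0 : w ^ 2 = q.coeff 0 := by rw [q0, hwd]
  have hgt : g.eval t ≠ 0 := by
    intro h0
    rw [h0, mul_zero] at hwd
    exact hw (pow_eq_zero_iff (two_ne_zero) |>.mp hwd)
  -- the torsion point
  have h1 : ∃ (h : (cv (Pool.Agent.Y718.X.Ab q) (Bb q) (Cb q)).toAffine.Nonsingular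
      (xs w (q.coeff 1) (q.coeff 2)) (ys w (q.coeff 1) (q.coeff 2) (q.coeff 3))) (n : ℕ), n ≠ 0 ∧
      n • (.some (xs w (q.coeff 1) (q.coeff 2)) (ys w (q.coeff 1) (q.coeff 2) (q.coeff 3)) h :
        Pt (Pool.Agent.Y718.X.Ab q) (Bb q) (Cb q)) = 0 := by
    by_contra hcon
    push Not at hcon
    exact hnd ⟨hDq, w, hw, hw0, fun h n hn => hcon h n hn⟩
  obtain ⟨h, n, hn, hn0⟩ := h1
  have hi3 : i3 q = d ^ 2 * i3 g := by rw [hq, i3_C, i3_taylor hg]
  have hi6 : i6 q = d ^ 3 * i6 g := by rw [hq, i6_C, i6_taylor hg]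
  obtain ⟨M, hM0, hMN, hM⟩ := hN (Pool.Agent.Y718.X.Ab q) (Bb q) (Cb q) hDq (by
    have e1 : Pool.Agent.Y718.X.Ab q ^ 2 - 3 * Bb q = -(d ^ 2 * i3 g) := by
      rw [← hi3]; unfold i3; ring
    have e2 : dsc (Pool.Agent.Y718.X.Ab q) (Bb q) (Cb q) = d ^ 6 * Db g := by
      rw [← Db_q hg d t]; rfl
    rw [e1, e2, (vp r).map_neg, map_mul, map_mul, g1, mul_one, mul_pow, map_pow, map_pow,
      ← pow_mul]
    calc vp r d ^ (2 * 3) * vp r (i3 g) ^ 3 ≤ vp r d ^ (2 * 3) * 1 := by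
          gcongr
          exact pow_le_one₀ ((vp r).nonneg _) g2
      _ = vp r d ^ 6 := by rw [mul_one]) _ n hn hn0
  -- the map to the fixed curve
  obtain ⟨u, hu⟩ := IsAlgClosed.exists_pow_nat_eq (ι d)⁻¹ (n := 2) (by norm_num)
  have hd' : ι d ≠ 0 := by rw [map_ne_zero]; exact hd
  have hu0 : u ≠ 0 := by
    rintro rfl
    rw [zero_pow (by norm_num)] at hu
    exact hd' (inv_eq_zero.1 hu.symm)
  have hdd : ι d * (ι d)⁻¹ = 1 := mul_inv_cancel₀ hd'
  have S : Red ι u (Pool.Agent.Y718.X.Ab q / 3) (Pool.Agent.Y718.X.Ab q) (Bb q) (Cb q) A B := by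
    refine ⟨hu0, by ring, ?_, ?_⟩
    · have e1 : Bb q - 3 * (Pool.Agent.Y718.X.Ab q / 3) ^ 2 = d ^ 2 * (i3 g / 3) := by
        have := hi3
        unfold i3 at this
        unfold i3
        linear_combination (1 / 3) * this
      have e2 : u ^ 4 = ((ι d)⁻¹) ^ 2 := by rw [← hu]; ring
      rw [e1, e2, hA, map_mul ι (d ^ 2), map_pow]
      linear_combination (-(ι (i3 g / 3)) * (ι d * (ι d)⁻¹ + 1)) * hdd
    · have e1 : Cb q - Bb q * (Pool.Agent.Y718.X.Ab q / 3) +
          2 * (Pool.Agent.Y718.X.Ab q / 3) ^ 3 = d ^ 3 * (i6 g / 27) := by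
        have := hi6
        unfold i6 at this
        unfold i6
        linear_combination (1 / 27) * this
      have e2 : u ^ 6 = ((ι d)⁻¹) ^ 3 := by rw [← hu]; ring
      rw [e1, e2, hB, map_mul ι (d ^ 3), map_pow]
      linear_combination (-(ι (i6 g / 27)) * ((ι d * (ι d)⁻¹) ^ 2 + ι d * (ι d)⁻¹ + 1)) * hdd
  set X0 := g.derivative.eval t ^ 2 / (4 * g.eval t) - 2 / 3 * (Polynomial.hasseDeriv 2 g).eval t
    with hX0
  have hval : ι (xs w (q.coeff 1) (q.coeff 2) + Pool.Agent.Y718.X.Ab q / 3) * u ^ 2 = ι X0 := by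
    have e1 : xs w (q.coeff 1) (q.coeff 2) + Pool.Agent.Y718.X.Ab q / 3 = d * X0 := by
      unfold xs Pool.Agent.Y718.X.Ab
      rw [q1, q2, hwd, hX0]
      field_simp
      ring
    rw [e1, hu, map_mul]
    linear_combination (ι X0) * hdd
  have hmem : ι X0 ∈ xc '' (⋃ M ∈ Finset.Icc 1 N, {P : Pt 0 A B | M • P = 0}) := by
    refine ⟨tH S (.some _ _ h), ?_, ?_⟩
    · rw [Set.mem_iUnion₂]
      refine ⟨M, Finset.mem_Icc.2 ⟨by omega, hMN⟩, ?_⟩
      change M • tH S (.some _ _ h) = 0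
      rw [← map_nsmul, hM, map_zero]
    · rw [tH_some, ← hval]
      rfl
  rw [Set.mem_iUnion₂]
  refine ⟨X0, hmem, ?_⟩
  change (Φ X0).eval t = 0
  rw [hΦ]
  simp only [Polynomial.eval_sub, Polynomial.eval_mul, Polynomial.eval_pow, Polynomial.eval_C,
    Polynomial.eval_ofNat]
  rw [hX0]
  field_simp
  ring

end Pool.Agent.D0H62.IT
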