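import Pool.Agent.Y720.MZ.EC

/-!
# The reduced form of `y² = x³ + a x² + b x + c` over a larger field
-/

set_option autoImplicit false
set_option linter.unusedSectionVars false
set_option linter.unusedVariables false

open WeierstrassCurve Pool.Agent.Y720.MZ

namespace Pool.Agent.D0H62.IT

variable {F1 F2 : Type*} [Field F1] [Field F2]

/-- `(x, y) ↦ ((x + e) u², y u³)` is a map from `y² = x³ + a x² + b x + c` to `y² = x³ + A x + B` -/
structure Red (ι : F1 →+* F2) (u : F2) (e a b c : F1) (A B : F2) : Prop where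
  hu : u ≠ 0
  ha : a = 3 * e
  hA : A = ι (b - 3 * e ^ 2) * u ^ 4
  hB : B = ι (c - b * e + 2 * e ^ 3) * u ^ 6

variable {ι : F1 →+* F2} {u : F2} {e a b c : F1} {A B : F2} (S : Red ι u e a b c A B)

include S in
lemma eqn_iff (x y : F1) : (cv 0 A B).toAffine.Equation (ι (x + e) * u ^ 2) (ι y * u ^ 3) ↔
    (cv a b c).toAffine.Equation x y := by
  have hu := S.hu
  rw [cv_eqn, cv_eqn, S.hA, S.hB, S.ha]
  have e1 : (ι y * u ^ 3) ^ 2 = ι (y ^ 2) * u ^ 6 := by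
    rw [map_pow]; ring
  have e2 : (ι (x + e) * u ^ 2) ^ 3 + 0 * (ι (x + e) * u ^ 2) ^ 2 +
      ι (b - 3 * e ^ 2) * u ^ 4 * (ι (x + e) * u ^ 2) + ι (c - b * e + 2 * e ^ 3) * u ^ 6 =
      ι (x ^ 3 + 3 * e * x ^ 2 + b * x + c) * u ^ 6 := by
    have : x ^ 3 + 3 * e * x ^ 2 + b * x + c = (x + e) ^ 3 + (b - 3 * e ^ 2) * (x + e) +
      (c - b * e + 2 * e ^ 3) := by ring
    rw [this]
    simp only [map_add, map_mul, map_pow, map_sub, map_ofNat]; ring
  rw [e1, e2]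
  constructor
  · intro h
    exact ι.injective (mul_right_cancel₀ (pow_ne_zero 6 hu) h)
  · intro h
    rw [h]

include S in
lemma negY_eq (x y : F1) : (cv 0 A B).toAffine.negY (ι (x + e) * u ^ 2) (ι y * u ^ 3) =
    ι ((cv a b c).toAffine.negY x y) * u ^ 3 := by
  simp only [Affine.negY, cv, map_sub, map_neg, map_mul, map_zero]
  ring

include S in
lemma ns_iff (x y : F1) : (cv 0 A B).toAffine.Nonsingular (ι (x + e) * u ^ 2) (ι y * u ^ 3) ↔
    (cv a b c).toAffine.Nonsingular x y := by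
  have hu := S.hu
  rw [cv_ns, cv_ns, ← cv_eqn, ← cv_eqn, eqn_iff S]
  have e1 : (3 * (ι (x + e) * u ^ 2) ^ 2 + 2 * 0 * (ι (x + e) * u ^ 2) + A ≠ 0) ↔
      (3 * x ^ 2 + 2 * a * x + b ≠ 0) := by
    have h1 : 3 * (ι (x + e) * u ^ 2) ^ 2 + 2 * 0 * (ι (x + e) * u ^ 2) + A =
        ι (3 * x ^ 2 + 2 * a * x + b) * u ^ 4 := by
      rw [S.hA, S.ha]
      simp only [map_add, map_mul, map_pow, map_sub, map_ofNat]; ring
    rw [h1]
    apply not_congr
    rw [mul_eq_zero, or_iff_left (pow_ne_zero 4 hu), map_eq_zero]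
  have e2 : (2 * (ι y * u ^ 3) ≠ 0) ↔ (2 * y ≠ 0) := by
    have h1 : 2 * (ι y * u ^ 3) = ι (2 * y) * u ^ 3 := by
      rw [map_mul, map_ofNat]; ring
    rw [h1]
    apply not_congr
    rw [mul_eq_zero, or_iff_left (pow_ne_zero 3 hu), map_eq_zero]
  rw [e1, e2]

variable [DecidableEq F1] [DecidableEq F2]

include S in
lemma slope_eq (x₁ x₂ y₁ y₂ : F1) :
    (cv 0 A B).toAffine.slope (ι (x₁ + e) * u ^ 2) (ι (x₂ + e) * u ^ 2) (ι y₁ * u ^ 3)
      (ι y₂ * u ^ 3) = ι ((cv a b c).toAffine.slope x₁ x₂ y₁ y₂) * u := by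
  have hu := S.hu
  have hu3 : u ^ 3 ≠ 0 := pow_ne_zero _ hu
  have hu2 : u ^ 2 ≠ 0 := pow_ne_zero _ hu
  by_cases hx : x₁ = x₂
  · by_cases hy : y₁ = (cv a b c).toAffine.negY x₂ y₂
    · rw [Affine.slope_of_Y_eq hx hy, Affine.slope_of_Y_eq (by rw [hx])
        (by rw [negY_eq S, hy]), map_zero, zero_mul]
    · have hy' : ι y₁ * u ^ 3 ≠ (cv 0 A B).toAffine.negY (ι (x₂ + e) * u ^ 2) (ι y₂ * u ^ 3) := by
        rw [negY_eq S]
        exact fun h => hy (ι.injective (mul_right_cancel₀ hu3 h))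
      rw [Affine.slope_of_Y_ne hx hy, Affine.slope_of_Y_ne (by rw [hx]) hy',
        negY_eq S, map_div₀]
      have e1 : 3 * (ι (x₁ + e) * u ^ 2) ^ 2 + 2 * (cv 0 A B).a₂ * (ι (x₁ + e) * u ^ 2) +
          (cv 0 A B).a₄ - (cv 0 A B).a₁ * (ι y₁ * u ^ 3) =
          ι (3 * x₁ ^ 2 + 2 * (cv a b c).a₂ * x₁ + (cv a b c).a₄ - (cv a b c).a₁ * y₁) * u *
            u ^ 3 := by
        simp only [cv]
        rw [S.hA, S.ha]
        simp only [map_add, map_sub, map_mul, map_pow, map_ofNat, map_zero]; ring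
      rw [e1, ← sub_mul, mul_div_mul_right _ _ hu3, ← map_sub]
      ring
  · have hx' : ι (x₁ + e) * u ^ 2 ≠ ι (x₂ + e) * u ^ 2 :=
      fun h => hx (add_right_cancel (ι.injective (mul_right_cancel₀ hu2 h)))
    rw [Affine.slope_of_X_ne hx, Affine.slope_of_X_ne hx', map_div₀, map_sub, map_sub]
    have e1 : ι y₁ * u ^ 3 - ι y₂ * u ^ 3 = ((ι y₁ - ι y₂) * u) * u ^ 2 := by ring
    have e2 : ι (x₁ + e) - ι (x₂ + e) = ι x₁ - ι x₂ := by rw [map_add, map_add]; ring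
    rw [e1, ← sub_mul, mul_div_mul_right _ _ hu2, e2]
    ring

include S in
omit [DecidableEq F1] [DecidableEq F2] in
lemma addX_eq (x₁ x₂ l : F1) :
    (cv 0 A B).toAffine.addX (ι (x₁ + e) * u ^ 2) (ι (x₂ + e) * u ^ 2) (ι l * u) =
      ι ((cv a b c).toAffine.addX x₁ x₂ l + e) * u ^ 2 := by
  simp only [Affine.addX, cv]
  rw [S.ha]
  simp only [map_add, map_sub, map_pow, map_mul, map_zero, map_ofNat]
  ring

include S in
omit [DecidableEq F1] [DecidableEq F2] in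
lemma addY_eq (x₁ x₂ y₁ l : F1) :
    (cv 0 A B).toAffine.addY (ι (x₁ + e) * u ^ 2) (ι (x₂ + e) * u ^ 2) (ι y₁ * u ^ 3) (ι l * u) =
      ι ((cv a b c).toAffine.addY x₁ x₂ y₁ l) * u ^ 3 := by
  simp only [Affine.addY, Affine.negAddY, Affine.negY, Affine.addX, cv]
  rw [S.ha]
  simp only [map_sub, map_pow, map_neg, map_add, map_mul, map_zero, map_ofNat]
  ring

/-- the map on points -/
def tF : Pt a b c → Pt 0 A B
  | 0 => 0
  | .some x y h => .some (ι (x + e) * u ^ 2) (ι y * u ^ 3) ((ns_iff S x y).2 h)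

omit [DecidableEq F1] [DecidableEq F2] in
lemma tF_zero : tF S 0 = 0 := rfl

omit [DecidableEq F1] [DecidableEq F2] in
lemma tF_some (x y : F1) (h : (cv a b c).toAffine.Nonsingular x y) :
    tF S (.some x y h) =
      .some (ι (x + e) * u ^ 2) (ι y * u ^ 3) ((ns_iff S x y).2 h) := rfl

lemma tF_add (P Q : Pt a b c) : tF S (P + Q) = tF S P + tF S Q := by
  have hu := S.hu
  have hu3 : u ^ 3 ≠ 0 := pow_ne_zero _ hu
  have hu2 : u ^ 2 ≠ 0 := pow_ne_zero _ hu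
  match P, Q with
  | 0, Q => rw [zero_add, tF_zero, zero_add]
  | .some x y h, 0 => rw [add_zero, tF_zero, add_zero]
  | .some x₁ y₁ h₁, .some x₂ y₂ h₂ =>
    rw [tF_some, tF_some]
    by_cases hxy : x₁ = x₂ ∧ y₁ = (cv a b c).toAffine.negY x₂ y₂
    · rw [Affine.Point.add_of_Y_eq hxy.1 hxy.2,
        Affine.Point.add_of_Y_eq (by rw [hxy.1]) (by rw [hxy.2, negY_eq S]),
        tF_zero]
    · have hxy' : ¬ (ι (x₁ + e) * u ^ 2 = ι (x₂ + e) * u ^ 2 ∧
          ι y₁ * u ^ 3 = (cv 0 A B).toAffine.negY (ι (x₂ + e) * u ^ 2) (ι y₂ * u ^ 3)) := by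
        rintro ⟨q1, q2⟩
        apply hxy
        refine ⟨add_right_cancel (ι.injective (mul_right_cancel₀ hu2 q1)), ?_⟩
        rw [negY_eq S] at q2
        exact ι.injective (mul_right_cancel₀ hu3 q2)
      rw [Affine.Point.add_some hxy, Affine.Point.add_some hxy', tF_some]
      rw [Affine.Point.some.injEq, slope_eq S, addX_eq S, addY_eq S]
      exact ⟨rfl, rfl⟩

/-- the homomorphism -/
def tH : Pt a b c →+ Pt 0 A B where
  toFun := tF S
  map_zero' := rfl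
  map_add' := tF_add S

lemma tH_some (x y : F1) (h : (cv a b c).toAffine.Nonsingular x y) :
    tH S (.some x y h) =
      .some (ι (x + e) * u ^ 2) (ι y * u ^ 3) ((ns_iff S x y).2 h) := rfl

lemma tH_inj {P : Pt a b c} (h : tH S P = 0) : P = 0 := by
  rcases P with _ | ⟨x, y, hn⟩
  · rfl
  · rw [tH_some] at h
    exact absurd h (Affine.Point.some_ne_zero _)

end Pool.Agent.D0H62.IT
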