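import Pool.Agent.D0H62.IT.Hom
import Pool.Agent.D0H62.IT.Ker
import Pool.Agent.Y718.FX
import Mathlib.NumberTheory.Padics.Complex

/-!
# The torsion of curves with potentially good reduction at `r ≥ 5`
-/

set_option autoImplicit false
set_option linter.unusedSectionVars false
set_option linter.unusedVariables false

open WeierstrassCurve Pool.Agent.Y720.MZ Pool.Agent.Y718.X

namespace Pool.Agent.D0H62.IT

/-- the absolute value of an algebraic closure of the field of the `r`-adic numbers -/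
noncomputable def vK (r : ℕ) [Fact r.Prime] : AbsoluteValue (PadicAlgCl r) ℝ :=
  NormedField.toAbsoluteValue (PadicAlgCl r)

/-- the embedding of the rational numbers -/
noncomputable abbrev io (r : ℕ) [Fact r.Prime] : ℚ →+* PadicAlgCl r := Rat.castHom (PadicAlgCl r)

section field

variable (r : ℕ) [hr : Fact r.Prime]

lemma vK_na : IsNonarchimedean (vK r) := PadicAlgCl.isNonarchimedean r

lemma vK_io (x : ℚ) : vK r (io r x) = vp r x := by
  rw [vp_eq, ← PadicAlgCl.norm_extends]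
  have : io r x = algebraMap ℚ_[r] (PadicAlgCl r) ((x : ℚ) : ℚ_[r]) := by
    rw [map_ratCast]
    rfl
  rw [this]
  rfl

lemma vK_nat (k : ℕ) : vK r (k : PadicAlgCl r) = vp r (k : ℚ) := by
  rw [← vK_io]
  congr 1

lemma res_scaled (h3 : 3 ≤ r) : ∃ (F : Type) (_ : Fintype F), ∀ R : ℝ, 0 < R → ∃ ρ : ℚ → F,
    ∀ x y, vp r x ≤ R → vp r y ≤ R → ρ x = ρ y → vp r (x - y) < R := by
  have hp := pl_padic r h3
  obtain ⟨F, hF, ρ, hρ⟩ := hp.res
  refine ⟨F, hF, fun R hR => ?_⟩
  by_cases hs : ∃ s : ℚ, vp r s = R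
  · obtain ⟨s, hs⟩ := hs
    have hs0 : s ≠ 0 := by
      rintro rfl
      rw [map_zero] at hs
      linarith
    refine ⟨fun x => ρ (x / s), fun x y hx hy hxy => ?_⟩
    have h1 := hρ (x / s) (y / s) (by rw [map_div₀, hs]; exact (div_le_one hR).2 hx)
      (by rw [map_div₀, hs]; exact (div_le_one hR).2 hy) hxy
    rw [← sub_div, map_div₀, hs, div_lt_one hR] at h1
    exact h1
  · push Not at hs
    refine ⟨fun _ => ρ 0, fun x y hx hy _ => ?_⟩
    exact lt_of_le_of_ne (na_sub hp.na hx hy) (hs _)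

end field

section main

variable {r : ℕ} [hr : Fact r.Prime] {u : PadicAlgCl r} {e a b c : ℚ} {A B : PadicAlgCl r}
  [DecidableEq (PadicAlgCl r)] (S : Red (io r) u e a b c A B)

/-- some small multiple is in the kernel of reduction -/
lemma exists_mult' (h2 : vK r (2 : PadicAlgCl r) = 1) (hA : vK r A ≤ 1) (hB : vK r B ≤ 1)
    (hd : vK r (dsc 0 A B) = 1) {F : Type} [Fintype F]
    (hF : ∀ R : ℝ, 0 < R → ∃ ρ : ℚ → F,
      ∀ x y, vp r x ≤ R → vp r y ≤ R → ρ x = ρ y → vp r (x - y) < R) (P : Pt a b c) :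
    ∃ M : ℕ, 1 ≤ M ∧ M ≤ Fintype.card F ^ 2 + 1 ∧ Fm (vK r) (tH S (M • P)) := by
  classical
  have hv := vK_na r
  have h0 : vK r (0 : PadicAlgCl r) ≤ 1 := by rw [map_zero]; exact zero_le_one
  have hu : 0 < vK r u := (vK r).pos S.hu
  obtain ⟨ρ2, hρ2⟩ := hF (1 / vK r u ^ 2) (by positivity)
  obtain ⟨ρ3, hρ3⟩ := hF (1 / vK r u ^ 3) (by positivity)
  by_contra hcon
  push Not at hcon
  set N := Fintype.card F ^ 2 + 1 with hN
  have h1 : ∀ k : Fin N, ∃ x y h, ((k : ℕ) + 1) • P = .some x y h ∧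
      vK r (io r (x + e) * u ^ 2) ≤ 1 := by
    intro k
    have h3 := hcon ((k : ℕ) + 1) (by omega) (by omega)
    rcases hq : ((k : ℕ) + 1) • P with _ | ⟨x, y, h⟩
    · exfalso
      apply h3
      rw [hq]
      exact fm_zero
    · refine ⟨x, y, h, rfl, ?_⟩
      rw [hq, tH_some, fm_some] at h3
      exact not_lt.1 h3
  choose x y h hxy hx using h1
  obtain ⟨i, j, hij, he⟩ := Fintype.exists_ne_map_eq_of_card_lt
    (fun k : Fin N => (ρ2 (x k + e), ρ3 (y k))) (by
      rw [Fintype.card_prod, Fintype.card_fin, hN]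
      nlinarith)
  wlog hlt : j < i generalizing i j with H
  · exact H j i hij.symm he.symm (lt_of_le_of_ne (not_lt.1 hlt) hij)
  rw [Prod.mk.injEq] at he
  have hy : ∀ k, vK r (io r (y k) * u ^ 3) ≤ 1 := fun k =>
    y_le hv h0 hA hB (hx k) (cv_ns.1 ((ns_iff S _ _).2 (h k))).1
  have hx2 : ∀ k, vp r (x k + e) ≤ 1 / vK r u ^ 2 := by
    intro k
    have := hx k
    rw [map_mul, vK_io, map_pow] at this
    rwa [le_div_iff₀ (by positivity)]
  have hy2 : ∀ k, vp r (y k) ≤ 1 / vK r u ^ 3 := by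
    intro k
    have := hy k
    rw [map_mul, vK_io, map_pow] at this
    rwa [le_div_iff₀ (by positivity)]
  have dx : vK r (io r (x i + e) * u ^ 2 - io r (x j + e) * u ^ 2) < 1 := by
    have h4 := hρ2 _ _ (hx2 i) (hx2 j) he.1
    rw [← sub_mul, ← map_sub, map_mul, vK_io, map_pow]
    rwa [lt_div_iff₀ (by positivity)] at h4
  have dy : vK r (io r (y i) * u ^ 3 - io r (y j) * u ^ 3) < 1 := by
    have h4 := hρ3 _ _ (hy2 i) (hy2 j) he.2
    rw [← sub_mul, ← map_sub, map_mul, vK_io, map_pow]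
    rwa [lt_div_iff₀ (by positivity)] at h4
  have hfm := fm_diff hv h0 hA hB h2 hd ((ns_iff S _ _).2 (h i)) ((ns_iff S _ _).2 (h j))
    (hx i) (hx j) dx dy
  rw [← tH_some S _ _ (h i), ← tH_some S _ _ (h j), ← hxy i, ← hxy j, ← map_sub] at hfm
  have hsub : ((i : ℕ) + 1) • P - ((j : ℕ) + 1) • P = ((i : ℕ) - (j : ℕ)) • P := by
    have hlt' : (j : ℕ) < (i : ℕ) := hlt
    rw [show (i : ℕ) + 1 = ((i : ℕ) - (j : ℕ)) + ((j : ℕ) + 1) by omega, add_smul,
      add_sub_cancel_right]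
  rw [hsub] at hfm
  have hlt' : (j : ℕ) < (i : ℕ) := hlt
  exact hcon _ (by omega) (by have := i.2; omega) hfm

/-- a torsion point in the kernel of reduction -/
lemma ker_tors (h3 : 3 ≤ r) (hA : vK r A ≤ 1) (hB : vK r B ≤ 1) {Q : Pt a b c}
    (hQ : Fm (vK r) (tH S Q)) {n : ℕ} (hn : n ≠ 0) (hnQ : n • Q = 0) : r • Q = 0 := by
  have hv := vK_na r
  have hpl := pl_padic r h3
  have h0 : vK r (0 : PadicAlgCl r) ≤ 1 := by rw [map_zero]; exact zero_le_one
  have hu : 0 < vK r u := (vK r).pos S.hu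
  have hunit : ∀ k : ℕ, 1 ≤ k → k < r → vK r (k : PadicAlgCl r) = 1 := by
    intro k hk1 hk2
    rw [vK_nat]
    exact hpl.unit k hk1 hk2
  have hrlt : vK r (r : PadicAlgCl r) < 1 := by
    rw [vK_nat]
    exact hpl.lt
  rcases Q with _ | ⟨x, y, h⟩
  · exact smul_zero _
  rw [tH_some, fm_some] at hQ
  have hmp := mult_p hv h0 hA hB h3 hunit ((ns_iff S _ _).2 h) hQ
  rw [← tH_some S _ _ h, ← map_nsmul] at hmp
  rcases hmp with hz | ⟨x', y', h', he, hx', ht'⟩
  · exact tH_inj S hz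
  exfalso
  rcases hq : r • (.some x y h : Pt a b c) with _ | ⟨X, Y, H⟩
  · rw [hq] at he
    exact Affine.Point.some_ne_zero h' he.symm
  rw [hq, tH_some, Affine.Point.some.injEq] at he
  obtain ⟨ex, ey⟩ := he
  obtain ⟨y1, q1, q2, q3, q4⟩ := val_ts hv h0 hA hB hQ (cv_ns.1 ((ns_iff S _ _).2 h)).1
  obtain ⟨y1', q1', q2', q3', q4'⟩ := val_ts hv h0 hA hB hx' (cv_ns.1 h').1
  have hrlt0 : 0 < vK r (r : PadicAlgCl r) := by
    refine (vK r).pos ?_
    exact_mod_cast hr.out.ne_zero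
  have hlt : vK r (x' / y') < vK r (io r (x + e) * u ^ 2 / (io r y * u ^ 3)) := by
    have e1 : x' / y' = (x' / y' - r * (io r (x + e) * u ^ 2 / (io r y * u ^ 3))) +
        r * (io r (x + e) * u ^ 2 / (io r y * u ^ 3)) := by ring
    rw [e1]
    refine na_lt hv (ht'.trans_lt ?_) ?_
    · have : vK r (io r (x + e) * u ^ 2 / (io r y * u ^ 3)) ^ 2 < 1 :=
        pow_lt_one₀ q3.le q2 two_ne_zero
      nlinarith
    · rw [map_mul]
      exact mul_lt_of_lt_one_left q3 hrlt
  -- the quotient is rational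
  have hu0 := S.hu
  have hY0 : Y ≠ 0 := by
    rintro rfl
    rw [map_zero, zero_mul] at ey
    exact y1' ey.symm
  have hy0 : y ≠ 0 := by
    rintro rfl
    rw [map_zero, zero_mul] at y1
    exact y1 rfl
  have hX0 : X + e ≠ 0 := by
    intro h4
    rw [h4, map_zero, zero_mul] at ex
    rw [← ex, map_zero] at hx'
    linarith
  have t1 : io r (x + e) * u ^ 2 / (io r y * u ^ 3) = io r ((x + e) / y) / u := by
    have : io r y ≠ 0 := by rw [map_ne_zero]; exact hy0
    rw [map_div₀]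
    field_simp
  have t2 : x' / y' = io r ((X + e) / Y) / u := by
    have : io r Y ≠ 0 := by rw [map_ne_zero]; exact hY0
    rw [← ex, ← ey, map_div₀]
    field_simp
  have hs2 : (X + e) / Y ≠ 0 := div_ne_zero hX0 hY0
  have g1 : vK r (io r (x + e) * u ^ 2 / (io r y * u ^ 3)) = vp r ((x + e) / y) / vK r u := by
    rw [t1]
    exact (map_div₀ (vK r) _ _).trans (by rw [vK_io])
  have g2 : vK r (x' / y') = vp r ((X + e) / Y) / vK r u := by
    rw [t2]
    exact (map_div₀ (vK r) _ _).trans (by rw [vK_io])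
  have hpos : 0 < vp r ((X + e) / Y) := (vp r).pos hs2
  have hw : 1 < vp r (((x + e) / y) / ((X + e) / Y)) := by
    have e1 : vp r (((x + e) / y) / ((X + e) / Y)) = vp r ((x + e) / y) / vp r ((X + e) / Y) :=
      map_div₀ (vp r) _ _
    rw [e1, one_lt_div hpos]
    rw [g1, g2, div_lt_div_iff_of_pos_right hu] at hlt
    exact hlt
  have hw2 := vp_one_lt hw
  have hfin : (r : ℝ) * vK r (x' / y') ≤ vK r (io r (x + e) * u ^ 2 / (io r y * u ^ 3)) := by
    have e1 : vp r (((x + e) / y) / ((X + e) / Y)) = vp r ((x + e) / y) / vp r ((X + e) / Y) :=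
      map_div₀ (vp r) _ _
    rw [e1, le_div_iff₀ hpos] at hw2
    rw [g1, g2, mul_div_assoc']
    gcongr
  have hr0 : (0 : ℝ) < r := by exact_mod_cast hr.out.pos
  have hvr : vK r (r : PadicAlgCl r) = (r : ℝ)⁻¹ := by
    rw [vK_nat, vp_eq, Rat.cast_natCast, Padic.norm_p]
  have hbig : 1 < vK r x' * vK r (r : PadicAlgCl r) := by
    rw [hvr]
    have h5 : (r : ℝ) * vK r (x' / y') < 1 := hfin.trans_lt q2
    have h6 : ((r : ℝ) * vK r (x' / y')) ^ 2 < 1 := pow_lt_one₀ (by positivity) h5 two_ne_zero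
    have h7 : (r : ℝ) ^ 2 < vK r x' := by
      by_contra h8
      push Not at h8
      have : vK r (x' / y') ^ 2 * vK r x' ≤ vK r (x' / y') ^ 2 * (r : ℝ) ^ 2 := by gcongr
      nlinarith
    rw [← div_eq_mul_inv, one_lt_div hr0]
    have h9 : (1 : ℝ) < r := by exact_mod_cast hr.out.one_lt
    nlinarith
  refine infinite_order hv h0 hA hB h3 hunit hrlt h' hbig n hn ?_
  have h10 : n • tH S (r • (.some x y h : Pt a b c)) = 0 := by
    rw [← map_nsmul, smul_smul, mul_comm, mul_smul, hnQ, smul_zero, map_zero]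
  have h11 : tH S (r • (.some x y h : Pt a b c)) = .some x' y' h' := by
    rw [hq, tH_some, Affine.Point.some.injEq]
    exact ⟨ex, ey⟩
  rw [h11] at h10
  exact h10

end main

/-- **The order of the torsion points of the curves over `ℚ` with potentially good reduction at the
prime number `r ≥ 5` is bounded.** -/
theorem torsion_bound (r : ℕ) [hr : Fact r.Prime] (h5 : 5 ≤ r) : ∃ N : ℕ, ∀ (a b c : ℚ),
    dsc a b c ≠ 0 → vp r (a ^ 2 - 3 * b) ^ 3 ≤ vp r (dsc a b c) → ∀ (P : Pt a b c) (n : ℕ),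
      n ≠ 0 → n • P = 0 → ∃ M : ℕ, M ≠ 0 ∧ M ≤ N ∧ M • P = 0 := by
  classical
  have h3 : 3 ≤ r := by omega
  have hpl := pl_padic r h3
  obtain ⟨F, hF, hρ⟩ := res_scaled r h3
  refine ⟨(Fintype.card F ^ 2 + 1) * r, fun a b c hD hj P n hn hnP => ?_⟩
  set D := dsc a b c with hDd
  have hD' : io r D ≠ 0 := by rw [map_ne_zero]; exact hD
  obtain ⟨u, hu⟩ := IsAlgClosed.exists_pow_nat_eq (io r D)⁻¹ (n := 12) (by norm_num)
  have hu0 : u ≠ 0 := by
    rintro rfl
    rw [zero_pow (by norm_num)] at hu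
    exact hD' (inv_eq_zero.1 hu.symm)
  set e := a / 3 with he
  have ha3 : a = 3 * e := by rw [he]; ring
  set A := io r (b - 3 * e ^ 2) * u ^ 4 with hAd
  set B := io r (c - b * e + 2 * e ^ 3) * u ^ 6 with hBd
  have S : Red (io r) u e a b c A B := ⟨hu0, ha3, hAd, hBd⟩
  have hvu : vK r u ^ 12 = (vp r D)⁻¹ := by
    rw [← map_pow, hu, map_inv₀, vK_io]
  have hvD : 0 < vp r D := (vp r).pos hD
  have u3 : vp r 3 = 1 := by exact_mod_cast hpl.unit 3 (by norm_num) (by omega)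
  have u2 : vp r 2 = 1 := by exact_mod_cast hpl.unit 2 (by norm_num) (by omega)
  have k2 : vK r (2 : PadicAlgCl r) = 1 := by
    have := vK_nat r 2
    push_cast at this
    rw [this, u2]
  have k3 : vK r (3 : PadicAlgCl r) = 1 := by
    have := vK_nat r 3
    push_cast at this
    rw [this, u3]
  have hA : vK r A ≤ 1 := by
    have h1 : vp r (b - 3 * e ^ 2) = vp r (a ^ 2 - 3 * b) := by
      have : a ^ 2 - 3 * b = (-3) * (b - 3 * e ^ 2) := by rw [ha3]; ring
      rw [this, map_mul, (vp r).map_neg, u3, one_mul]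
    have h2 : vK r A ^ 3 ≤ 1 := by
      rw [hAd, map_mul, vK_io, mul_pow, map_pow, ← pow_mul, hvu, h1, ← div_eq_mul_inv,
        div_le_one hvD]
      exact hj
    by_contra hc
    push Not at hc
    have := one_lt_pow₀ hc (n := 3) (by norm_num)
    linarith
  have hd : dsc 0 A B = 1 := by
    have h1 : dsc 0 A B = io r D * u ^ 12 := by
      have h2 : D = -4 * (b - 3 * e ^ 2) ^ 3 - 27 * (c - b * e + 2 * e ^ 3) ^ 2 := by
        rw [hDd, ha3]; unfold dsc; ring
      rw [h2, hAd, hBd]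
      unfold dsc
      simp only [map_sub, map_mul, map_pow, map_add, map_neg, map_ofNat]
      ring
    rw [h1, hu, mul_inv_cancel₀ hD']
  have hB : vK r B ≤ 1 := by
    have h1 : 27 * B ^ 2 = -(4 * A ^ 3) - 1 := by
      rw [← hd]; unfold dsc; ring
    have h2 : vK r (27 * B ^ 2) ≤ 1 := by
      rw [h1]
      refine na_sub (vK_na r) ?_ (by rw [map_one])
      rw [(vK r).map_neg]
      have h4 : vK r (4 : PadicAlgCl r) ≤ 1 := by exact_mod_cast na_nat (vK_na r) 4
      exact na_mul_le h4 (na_pow_le hA 3)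
    have h27 : vK r (27 : PadicAlgCl r) = 1 := by
      have : (27 : PadicAlgCl r) = 3 ^ 3 := by norm_num
      rw [this, map_pow, k3, one_pow]
    rw [map_mul, h27, one_mul, map_pow] at h2
    by_contra hc
    push Not at hc
    have := one_lt_pow₀ hc (n := 2) (by norm_num)
    linarith
  obtain ⟨M, hM1, hM2, hM⟩ := exists_mult' S k2 hA hB (by rw [hd, map_one]) hρ P
  refine ⟨r * M, Nat.mul_ne_zero hr.out.ne_zero (by omega), ?_, ?_⟩
  · rw [mul_comm]
    exact Nat.mul_le_mul_right r hM2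
  · rw [mul_smul]
    exact ker_tors S h3 hA hB hM hn (by rw [smul_smul, mul_comm, mul_smul, hnP, smul_zero])

end Pool.Agent.D0H62.IT
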