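import Pool.Agent.D0H62.EF.Pad
import Pool.Agent.D0H62.IT.Tors

/-!
# Families of curves of genus one with integral invariant at a prime number
-/

set_option autoImplicit false
set_option linter.unusedSectionVars false
set_option linter.unusedVariables false

open MvPolynomial Filter Topology Pool.Agent.Y718.X Pool.Agent.Y720.MZ
open Pool.Agent.H581R2 Pool.Agent.TH729.SQ Pool.Agent.D0H62.EF

namespace Pool.Agent.D0H62.IT

/-- the invariant is integral -/
def JInt (r : ℕ) [Fact r.Prime] (q : Polynomial ℚ) : Prop :=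
  vp r (Ab q ^ 2 - 3 * Bb q) ^ 3 ≤ vp r (Db q)

/-- **Nondegeneracy is a Zariski open condition.** -/
theorem inf_iff_tor (r : ℕ) [Fact r.Prime] (h5 : 5 ≤ r) : ∃ M : ℕ,
    ∀ (N c : ℕ) (p : Fin c → MvPolynomial (Fin N) ℚ) (g : MvPolynomial (Fin N) ℚ)
      (C : Curves p g) (x : Fin N → ℚ), RealPt p g (toR x) → eval x C.w ≠ 0 →
      (Db (C.quartic x) ≠ 0 → JInt r (C.quartic x)) →
      (Inf (C.quartic x) ↔ eval x (Db C.qq * C.tor M) ≠ 0) := by
  obtain ⟨M, hM⟩ := torsion_bound r h5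
  refine ⟨M, fun N c p g C x hx hw0 hj => ?_⟩
  have hDq : eval x (Db C.qq) = Db (C.quartic x) := by
    rw [← C.qq_map x, Curves.map_Db']
  rw [map_mul, hDq]
  constructor
  · intro h
    exact mul_ne_zero h.1 (C.tor_ne h M)
  · intro h
    have hD0 : Db (C.quartic x) ≠ 0 := left_ne_zero_of_mul h
    have ht : eval x (C.tor M) ≠ 0 := right_ne_zero_of_mul h
    have hw2 : (eval x C.w) ^ 2 = (C.quartic x).coeff 0 := by
      have h1 := C.base _ hx
      rw [aeval_toR, aeval_toR] at h1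
      have h2 := C.quartic_coeff x 0
      change (eval x C.w) ^ 2 = (C.quartic x).coeff ((0 : Fin 5) : ℕ)
      rw [h2]
      exact_mod_cast h1
    refine ⟨hD0, eval x C.w, hw0, hw2, fun hns m hm hm0 => ?_⟩
    obtain ⟨m', hm'0, hm'N, hm'⟩ := hM (Ab (C.quartic x)) (Bb (C.quartic x)) (Cb (C.quartic x)) hD0
      (hj hD0) _ m hm hm0
    apply ht
    rw [C.eval_tor]
    exact Gd_zero hns (xs_ZB _ _ hw0 hw2).1 (xs_ZB _ _ hw0 hw2).2 hm'0 hm'N hm'

lemma jint_iff (r : ℕ) [Fact r.Prime] (h5 : 5 ≤ r) (q : Polynomial ℚ) (hD : Db q ≠ 0) :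
    padicNorm r ((jac q).c₄ ^ 3 / (jac q).Δ) ≤ 1 ↔ JInt r q := by
  have h2 := (pl_padic r (by omega : 3 ≤ r)).two
  have h16 : vp r 16 = 1 := by
    have : (16 : ℚ) = 2 ^ 4 := by norm_num
    rw [this, map_pow, h2, one_pow]
  have hc4 : (jac q).c₄ = 16 * (Ab q ^ 2 - 3 * Bb q) := by
    rw [jac_eq]
    unfold WeierstrassCurve.c₄ WeierstrassCurve.b₂ WeierstrassCurve.b₄ cv
    ring
  have hΔ : (jac q).Δ = 16 * Db q := by
    rw [jac_eq, cv_Δ]
    rfl
  have hv : 0 < vp r (Db q) := (vp r).pos hD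
  rw [← vp_le, map_div₀, map_pow, hc4, hΔ, map_mul, map_mul, h16, one_mul, one_mul,
    div_le_one hv]
  exact Iff.rfl

end Pool.Agent.D0H62.IT
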