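import Pool.Agent.D0H62.IT.Fib

/-!
# Semialgebraic sets in spaces of arbitrary finite index sets
-/

set_option autoImplicit false
set_option linter.unusedSectionVars false
set_option linter.unusedVariables false

open MvPolynomial Set Filter Topology Pool.Agent.H581R2 Pool.Agent.TH729.SQ

namespace Pool.Agent.D0H62.IT

/-- semialgebraic sets over `ℚ`, the classical form -/
theorem frozen' {σ : Type} [Finite σ] {S : Set (σ → ℝ)} (h : SA S) :
    ∃ (m : ℕ) (P : Fin m → MvPolynomial σ ℚ) (G : Fin m → Finset (MvPolynomial σ ℚ)),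
      S = {x : σ → ℝ | ∃ j : Fin m, (MvPolynomial.aeval x (P j) : ℝ) = 0 ∧
        ∀ g ∈ G j, (0 : ℝ) < MvPolynomial.aeval x g} := by
  classical
  obtain ⟨n, ⟨e⟩⟩ := Finite.exists_equiv_fin σ
  have h1 : SA {y : Fin n → ℝ | (fun i => y (e i)) ∈ S} :=
    SAP.preimage (p := fun x => x ∈ S) h (fun i => PF.coord _)
  obtain ⟨m, P, G, hG⟩ := SA.frozen h1
  refine ⟨m, fun j => rename e.symm (P j), fun j => (G j).image (rename e.symm), ?_⟩
  ext x
  have h2 : x ∈ S ↔ (fun k => x (e.symm k)) ∈ {y : Fin n → ℝ | (fun i => y (e i)) ∈ S} := by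
    change x ∈ S ↔ (fun i => x (e.symm (e i))) ∈ S
    simp only [Equiv.symm_apply_apply]
  rw [h2, hG]
  simp only [Set.mem_ofPred_eq, Finset.mem_image, forall_exists_index, and_imp,
    forall_apply_eq_imp_iff₂, aeval_rename]
  rfl

theorem sa_frozen {σ : Type} [Finite σ] {S : Set (σ → ℝ)}
    (h : ∃ (m : ℕ) (P : Fin m → MvPolynomial σ ℚ) (G : Fin m → Finset (MvPolynomial σ ℚ)),
      S = {x : σ → ℝ | ∃ j : Fin m, (MvPolynomial.aeval x (P j) : ℝ) = 0 ∧
        ∀ g ∈ G j, (0 : ℝ) < MvPolynomial.aeval x g}) : SA S := by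
  obtain ⟨m, P, G, rfl⟩ := h
  refine SAP.exists_fin fun j => SAP.and (SAP.eq_zero (PF.aeval (P j))) ?_
  exact SAP.forall_mem (G j) fun g _ => SAP.pos (PF.aeval g)

/-- the blocks of polynomials in separate variables -/
lemma exists_blk {ι β : Type} {h : β → MvPolynomial ι ℚ}
    (hs : ∀ b b', b ≠ b' → ∀ i, (h b).degreeOf i = 0 ∨ (h b').degreeOf i = 0) :
    ∃ blk : ι → Option β, ∀ b i, blk i ≠ some b → (h b).degreeOf i = 0 := by
  classical
  refine ⟨fun i => if hi : ∃ b, (h b).degreeOf i ≠ 0 then some hi.choose else none, ?_⟩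
  intro b i hb
  by_contra h0
  have hi : ∃ b, (h b).degreeOf i ≠ 0 := ⟨b, h0⟩
  simp only [dif_pos hi] at hb
  have h1 : hi.choose ≠ b := fun h => hb (by rw [h])
  rcases hs _ _ h1 i with h2 | h2
  · exact hi.choose_spec h2
  · exact h0 h2

/-- zeros of polynomials of degree at most three -/
lemma zeros_SA {n : ℕ} {h : MvPolynomial (Fin n) ℚ} (h3 : h.totalDegree ≤ 3) :
    SA (closure (rl {z : Fin n → ℚ | eval z h = 0})) := by
  have h1 := Pool.Agent.TH729.CC.affine_SA (Rat.castHom ℝ) (fun r => by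
    have : (Rat.castHom ℝ) r = algebraMap ℚ ℝ r := rfl
    rw [this]
    exact isAlgebraic_algebraMap r) h h3
  have h2 : {x : Fin n → ℝ | ∃ r : Fin n → ℚ, MvPolynomial.eval r h = 0 ∧
      x = fun i => (Rat.castHom ℝ) (r i)} = rl {z : Fin n → ℚ | eval z h = 0} := by
    ext x
    constructor
    · rintro ⟨r, hr, rfl⟩
      exact ⟨r, hr, rfl⟩
    · rintro ⟨r, hr, rfl⟩
      exact ⟨r, hr, rfl⟩
  rw [h2] at h1
  exact h1

end Pool.Agent.D0H62.IT
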