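import Pool.Agent.D0H62.IT.Sq
import Pool.Agent.Y718.FinE

/-!
# Products of polynomials in one variable
-/

set_option autoImplicit false
set_option linter.unusedSectionVars false
set_option linter.unusedVariables false

open MvPolynomial Set Filter Topology Pool.Agent.H581R2 Pool.Agent.TH729.SQ Pool.Agent.Y718
  Pool.Agent.Y718.X

namespace Pool.Agent.D0H62.IT

variable {n : ℕ}

/-- `G(z) ∏ g_j(z_j)` -/
noncomputable def pf (G : MvPolynomial (Fin n) ℚ) (g : Fin n → Polynomial ℚ)
    (J : Finset (Fin n)) : MvPolynomial (Fin n) ℚ :=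
  G * ∏ j ∈ J, Polynomial.aeval (X j : MvPolynomial (Fin n) ℚ) (g j)

variable {G : MvPolynomial (Fin n) ℚ} {g : Fin n → Polynomial ℚ} {J : Finset (Fin n)}

lemma eval_pf (z : Fin n → ℚ) :
    eval z (pf G g J) = eval z G * ∏ j ∈ J, (g j).eval (z j) := by
  unfold pf
  rw [map_mul, map_prod]
  congr 1
  refine Finset.prod_congr rfl fun j _ => ?_
  have h := Polynomial.aeval_algHom_apply (aeval z : MvPolynomial (Fin n) ℚ →ₐ[ℚ] ℚ)
    (X j : MvPolynomial (Fin n) ℚ) (g j)
  rw [aeval_X, Polynomial.coe_aeval_eq_eval] at h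
  rw [h]
  rfl

lemma lk_pf (z u : Fin n → ℚ) : lk (pf G g J) z u =
    lk G z u * ∏ j ∈ J, (g j).comp (Polynomial.C (z j) + Polynomial.C (u j) * Polynomial.X) := by
  unfold pf lk
  rw [map_mul, map_prod]
  congr 1
  refine Finset.prod_congr rfl fun j _ => ?_
  rw [← Polynomial.aeval_algHom_apply, aeval_X]
  rfl

lemma lk_mem {i : Fin n} (hi : i ∈ J) (hG : Dg G i 0) (z : Fin n → ℚ) :
    lk (pf G g J) z (Pi.single i 1) =
      Polynomial.C (eval z G * ∏ j ∈ J.erase i, (g j).eval (z j)) *
        Polynomial.taylor (z i) (g i) := by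
  have h0 : lk G z (Pi.single i 1) = Polynomial.C (eval z G) := by
    have h1 := hG z
    rw [Polynomial.eq_C_of_natDegree_le_zero h1, lk_zero]
  rw [lk_pf, h0, ← Finset.mul_prod_erase J _ hi, map_mul, map_prod]
  have h1 : (g i).comp (Polynomial.C (z i) + Polynomial.C ((Pi.single i 1 : Fin n → ℚ) i) *
      Polynomial.X) = Polynomial.taylor (z i) (g i) := by
    rw [Pi.single_eq_same, map_one, one_mul, Polynomial.taylor_apply, add_comm]
  have h2 : ∏ j ∈ J.erase i, (g j).comp (Polynomial.C (z j) +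
      Polynomial.C ((Pi.single i 1 : Fin n → ℚ) j) * Polynomial.X) =
      ∏ j ∈ J.erase i, Polynomial.C ((g j).eval (z j)) := by
    refine Finset.prod_congr rfl fun j hj => ?_
    rw [Pi.single_eq_of_ne (Finset.ne_of_mem_erase hj), map_zero, zero_mul, add_zero,
      Polynomial.comp_C]
  rw [h1, h2]
  ring

lemma lk_nmem {i : Fin n} (hi : i ∉ J) (z : Fin n → ℚ) :
    lk (pf G g J) z (Pi.single i 1) =
      Polynomial.C (∏ j ∈ J, (g j).eval (z j)) * lk G z (Pi.single i 1) := by
  rw [lk_pf, map_prod, mul_comm]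
  congr 1
  refine Finset.prod_congr rfl fun j hj => ?_
  have : j ≠ i := by rintro rfl; exact hi hj
  rw [Pi.single_eq_of_ne this, map_zero, zero_mul, add_zero, Polynomial.comp_C]

lemma dg_mem {i : Fin n} (hi : i ∈ J) (hG : Dg G i 0) {d : ℕ} (hg : (g i).natDegree ≤ d) :
    Dg (pf G g J) i d := by
  intro z
  rw [lk_mem hi hG]
  refine (Polynomial.natDegree_C_mul_le _ _).trans ?_
  rwa [Polynomial.natDegree_taylor]

lemma dg_nmem {i : Fin n} (hi : i ∉ J) {d : ℕ} (hG : Dg G i d) : Dg (pf G g J) i d := by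
  intro z
  rw [lk_nmem hi]
  exact (Polynomial.natDegree_C_mul_le _ _).trans (hG z)

lemma eval_update {i : Fin n} (hG : Dg G i 0) (z : Fin n → ℚ) (s : ℚ) :
    eval (Function.update z i s) G = eval z G := by
  classical
  have h1 : Function.update z i s = z + (s - z i) • (Pi.single i 1 : Fin n → ℚ) := by
    funext j
    by_cases h : j = i
    · subst h
      simp
    · simp [Function.update_of_ne h, Pi.single_eq_of_ne h]
  rw [h1, ← lk_eval, Polynomial.eq_C_of_natDegree_le_zero (hG z), Polynomial.eval_C, lk_zero]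

lemma rl_union (A B : Set (Fin n → ℚ)) : rl (A ∪ B) = rl A ∪ rl B := by
  ext x
  constructor
  · rintro ⟨z, hz | hz, rfl⟩
    · exact Or.inl ⟨z, hz, rfl⟩
    · exact Or.inr ⟨z, hz, rfl⟩
  · rintro (⟨z, hz, rfl⟩ | ⟨z, hz, rfl⟩)
    · exact ⟨z, Or.inl hz, rfl⟩
    · exact ⟨z, Or.inr hz, rfl⟩

lemma union_SA {A B : Set (Fin n → ℚ)} (hA : SA (closure (rl A))) (hB : SA (closure (rl B))) :
    SA (closure (rl (A ∪ B))) := by
  rw [rl_union, closure_union]
  exact hA.union hB

lemma empty_SA : SA (closure (rl (∅ : Set (Fin n → ℚ)))) := by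
  have : rl (∅ : Set (Fin n → ℚ)) = ∅ := by
    ext x
    constructor
    · rintro ⟨z, hz, -⟩
      exact hz
    · exact fun h => h.elim
  rw [this, closure_empty]
  exact SA.empty

lemma fin_SA {α : Type} {s : Set α} (hs : s.Finite) {D : α → Set (Fin n → ℚ)}
    (h : ∀ a ∈ s, SA (closure (rl (D a)))) : SA (closure (rl (⋃ a ∈ s, D a))) := by
  induction s, hs using Set.Finite.induction_on with
  | empty => simpa using empty_SA
  | insert ha hs ih =>
    rw [Set.biUnion_insert]
    exact union_SA (h _ (Set.mem_insert _ _)) (ih fun a ha' => h a (Set.mem_insert_of_mem _ ha'))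

lemma slice_SA {S : Set (Fin n → ℚ)} {i : Fin n} {t : ℚ}
    (hcyl : ∀ z ∈ S, ∀ s, Function.update z i s ∈ S) (hS : SA (closure (rl S))) :
    SA (closure (rl {z | z ∈ S ∧ z i = t})) := by
  classical
  have heq : closure (rl {z | z ∈ S ∧ z i = t}) = closure (rl S) ∩ {x | x i = (t : ℝ)} := by
    apply Set.Subset.antisymm
    · refine Set.subset_inter (closure_mono ?_) (closure_minimal ?_ ?_)
      · rintro _ ⟨z, hz, rfl⟩
        exact ⟨z, hz.1, rfl⟩
      · rintro _ ⟨z, hz, rfl⟩
        have := hz.2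
        change ((z i : ℚ) : ℝ) = t
        rw [this]
      · exact isClosed_eq (continuous_apply i) continuous_const
    · rintro x ⟨hx, hxi⟩
      have hc : Continuous fun x : Fin n → ℝ => Function.update x i (t : ℝ) := by
        fun_prop
      have h1 : x = Function.update x i (t : ℝ) := by
        rw [← hxi, Function.update_eq_self]
      rw [h1]
      refine closure_mono ?_ (image_closure_subset_closure_image hc ⟨x, hx, rfl⟩)
      rintro _ ⟨_, ⟨z, hz, rfl⟩, rfl⟩
      refine ⟨Function.update z i t, ⟨hcyl z hz t, Function.update_self _ _ _⟩, ?_⟩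
      funext j
      by_cases h : j = i
      · subst h
        simp
      · simp [Function.update_of_ne h]
  rw [heq]
  exact hS.inter (SAP.eq (PF.coord i) (PF.const t))

lemma univ_SA : SA (closure (rl (Set.univ : Set (Fin n → ℚ)))) := by
  have h1 : rl (Set.univ : Set (Fin n → ℚ)) =
      Set.range (Pi.map fun (_ : Fin n) (q : ℚ) => (q : ℝ)) := by
    ext x
    constructor
    · rintro ⟨z, -, rfl⟩
      exact ⟨z, rfl⟩
    · rintro ⟨z, rfl⟩
      exact ⟨z, trivial, rfl⟩
  have h2 : DenseRange (Pi.map fun (_ : Fin n) (q : ℚ) => (q : ℝ)) :=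
    DenseRange.piMap fun _ => Rat.denseRange_cast
  rw [h1, h2.closure_range]
  exact SA.univ

/-- the points over which there are two rational points -/
def Bs (F : MvPolynomial (Fin n) ℚ) : Set (Fin n → ℚ) :=
  {z | ∃ w : ℚ, w ≠ 0 ∧ w ^ 2 = eval z F}

/-- the degenerate abscissas -/
def Tb (g : Polynomial ℚ) : Set ℚ :=
  {t : ℚ | Db g ≠ 0 ∧ ∃ d w : ℚ, d ≠ 0 ∧ w ≠ 0 ∧ w ^ 2 = d * g.eval t ∧
      ¬ Inf (Polynomial.C d * Polynomial.taylor t g)}

lemma Tb_fin {g : Polynomial ℚ} (hg : g.natDegree ≤ 4) : (Tb g).Finite := by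
  by_cases h : Db g = 0
  · have : Tb g = ∅ := by
      ext t
      constructor
      · rintro ⟨h1, -⟩
        exact (h1 h).elim
      · exact fun h => h.elim
    rw [this]
    exact Set.finite_empty
  · refine (fin_bad hg h).subset ?_
    rintro t ⟨-, h2⟩
    exact h2

theorem base_prod (g : Fin n → Polynomial ℚ) (J : Finset (Fin n)) :
    ∀ G : MvPolynomial (Fin n) ℚ, (∀ i ∈ J, Dg G i 0) → (∀ i, i ∉ J → Dg G i 2) →
    (∀ i ∈ J, (g i).natDegree ≤ 4 ∧ ((g i).natDegree ≤ 2 ∨ Db (g i) ≠ 0)) →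
    SA (closure (rl (Bs (pf G g J)))) := by
  classical
  induction J using Finset.strongInduction with
  | H J ih =>
    intro G hG0 hG2 hg
    have h4 : ∀ i, Dg (pf G g J) i 4 := by
      intro i
      by_cases hi : i ∈ J
      · exact dg_mem hi (hG0 i hi) (hg i hi).1
      · exact fun z => (dg_nmem hi (hG2 i hi) z).trans (by norm_num)
    have heq : Bs (pf G g J) = TX (pf G g J) ∪ ⋃ i ∈ (J : Set (Fin n)), ⋃ t ∈ Tb (g i),
        {z | z ∈ Bs (pf (C ((g i).eval t) * G) g (J.erase i)) ∧ z i = t} := by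
      have hev : ∀ i ∈ J, ∀ z : Fin n → ℚ,
          eval z (pf (C ((g i).eval (z i)) * G) g (J.erase i)) = eval z (pf G g J) := by
        intro i hi z
        rw [eval_pf, eval_pf, map_mul, eval_C, ← Finset.mul_prod_erase J _ hi]
        ring
      apply Set.Subset.antisymm
      · intro z hz
        by_cases hT : z ∈ TX (pf G g J)
        · exact Or.inl hT
        right
        have h1 : ∃ i, ¬ NDx (pf G g J) i z := by
          by_contra hcon
          push Not at hcon
          exact hT ⟨hz, hcon⟩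
        obtain ⟨i, hi⟩ := h1
        unfold NDx at hi
        push Not at hi
        obtain ⟨hi1, hi2⟩ := hi
        have hiJ : i ∈ J := by
          by_contra hiJ
          exact hi1 (dg_nmem hiJ (hG2 i hiJ))
        have hDb : Db (g i) ≠ 0 := by
          rcases (hg i hiJ).2 with h | h
          · exact absurd (dg_mem hiJ (hG0 i hiJ) h) hi1
          · exact h
        rw [lk_mem hiJ (hG0 i hiJ)] at hi2
        obtain ⟨w, hw, hwz⟩ := hz
        have hd : w ^ 2 = eval z G * (∏ j ∈ J.erase i, (g j).eval (z j)) * (g i).eval (z i) := by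
          rw [hwz, eval_pf, ← Finset.mul_prod_erase J _ hiJ]
          ring
        have hd0 : eval z G * (∏ j ∈ J.erase i, (g j).eval (z j)) ≠ 0 := by
          intro h0
          rw [h0, zero_mul] at hd
          exact hw (pow_eq_zero_iff (two_ne_zero) |>.mp hd)
        rw [Set.mem_iUnion₂]
        refine ⟨i, hiJ, ?_⟩
        rw [Set.mem_iUnion₂]
        refine ⟨z i, ⟨hDb, _, w, hd0, hw, hd, hi2⟩, ?_, rfl⟩
        exact ⟨w, hw, by rw [hev i hiJ, hwz]⟩
      · rintro z (hz | hz)
        · exact hz.1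
        · rw [Set.mem_iUnion₂] at hz
          obtain ⟨i, hiJ, hz⟩ := hz
          rw [Set.mem_iUnion₂] at hz
          obtain ⟨t, ht, hz, rfl⟩ := hz
          obtain ⟨w, hw, hwz⟩ := hz
          exact ⟨w, hw, by rw [hwz, hev i hiJ]⟩
    rw [heq]
    refine union_SA (TX_SA h4) (fin_SA J.finite_toSet fun i hi => fin_SA (Tb_fin (hg i hi).1)
      fun t ht => slice_SA ?_ (ih _ (Finset.erase_ssubset hi) _ ?_ ?_ ?_))
    · rintro z ⟨w, hw, hwz⟩ s
      refine ⟨w, hw, ?_⟩
      rw [hwz, eval_pf, eval_pf, map_mul, map_mul, eval_C, eval_C, eval_update (hG0 i hi)]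
      congr 1
      refine Finset.prod_congr rfl fun j hj => ?_
      rw [Function.update_of_ne (Finset.ne_of_mem_erase hj)]
    · intro j hj z
      have : lk (C ((g i).eval t) * G) z (Pi.single j 1) =
          Polynomial.C ((g i).eval t) * lk G z (Pi.single j 1) := by
        unfold lk
        rw [map_mul, aeval_C]
        rfl
      rw [this]
      exact (Polynomial.natDegree_C_mul_le _ _).trans (hG0 j (Finset.mem_of_mem_erase hj) z)
    · intro j hj z
      have : lk (C ((g i).eval t) * G) z (Pi.single j 1) =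
          Polynomial.C ((g i).eval t) * lk G z (Pi.single j 1) := by
        unfold lk
        rw [map_mul, aeval_C]
        rfl
      rw [this]
      refine (Polynomial.natDegree_C_mul_le _ _).trans ?_
      by_cases hji : j = i
      · subst hji
        exact (hG0 j hi z).trans (by norm_num)
      · exact hG2 j (fun hJ => hj (Finset.mem_erase.2 ⟨hji, hJ⟩)) z
    · intro j hj
      exact hg j (Finset.mem_of_mem_erase hj)

/-- **All the rational points of the base.** -/
theorem all_prod (f : Fin n → Polynomial ℚ) (J : Finset (Fin n)) (G : MvPolynomial (Fin n) ℚ)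
    (hG0 : ∀ i ∈ J, Dg G i 0) (hG2 : ∀ i, i ∉ J → Dg G i 2)
    (hf : ∀ i ∈ J, (f i).natDegree ≤ 4) (hZ : SA (closure (rl {z | eval z G = 0}))) :
    SA (closure (rl {z : Fin n → ℚ | ∃ w : ℚ, w ^ 2 = eval z (pf G f J)})) := by
  classical
  by_cases hzero : ∃ j ∈ J, f j = 0
  · obtain ⟨j, hj, hj0⟩ := hzero
    have : {z : Fin n → ℚ | ∃ w : ℚ, w ^ 2 = eval z (pf G f J)} = Set.univ := by
      ext z
      refine ⟨fun _ => trivial, fun _ => ⟨0, ?_⟩⟩
      rw [eval_pf, Finset.prod_eq_zero hj (by rw [hj0, Polynomial.eval_zero]), mul_zero,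
        zero_pow two_ne_zero]
    rw [this]
    exact univ_SA
  push Not at hzero
  have hdec : ∀ i : Fin n, ∃ h k : Polynomial ℚ, i ∈ J →
      f i = h ^ 2 * k ∧ k.natDegree ≤ 4 ∧ (k.natDegree ≤ 2 ∨ Db k ≠ 0) := by
    intro i
    by_cases hi : i ∈ J
    · obtain ⟨h, k, hk⟩ := sq_decomp (hzero i hi) (hf i hi)
      exact ⟨h, k, fun _ => hk⟩
    · exact ⟨0, 0, fun h => absurd h hi⟩
  choose h k hk using hdec
  have heq : {z : Fin n → ℚ | ∃ w : ℚ, w ^ 2 = eval z (pf G f J)} =
      Bs (pf G k J) ∪ ({z | eval z G = 0} ∪ ⋃ i ∈ (J : Set (Fin n)),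
        ⋃ t ∈ {t : ℚ | (f i).IsRoot t}, {z : Fin n → ℚ | z ∈ (Set.univ : Set (Fin n → ℚ)) ∧
          z i = t}) := by
    have hfk : ∀ z : Fin n → ℚ, eval z (pf G f J) =
        (∏ j ∈ J, (h j).eval (z j)) ^ 2 * eval z (pf G k J) := by
      intro z
      rw [eval_pf, eval_pf, ← Finset.prod_pow, mul_left_comm, ← Finset.prod_mul_distrib]
      congr 1
      refine Finset.prod_congr rfl fun j hj => ?_
      rw [(hk j hj).1, Polynomial.eval_mul, Polynomial.eval_pow]
    apply Set.Subset.antisymm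
    · rintro z ⟨w, hw⟩
      by_cases h0 : eval z G = 0
      · exact Or.inr (Or.inl h0)
      by_cases h1 : ∃ i ∈ J, (f i).eval (z i) = 0
      · obtain ⟨i, hi, hi0⟩ := h1
        right; right
        rw [Set.mem_iUnion₂]
        refine ⟨i, hi, ?_⟩
        rw [Set.mem_iUnion₂]
        exact ⟨z i, hi0, trivial, rfl⟩
      push Not at h1
      left
      have hh : ∏ j ∈ J, (h j).eval (z j) ≠ 0 := by
        refine Finset.prod_ne_zero_iff.2 fun j hj h2 => h1 j hj ?_
        rw [(hk j hj).1, Polynomial.eval_mul, Polynomial.eval_pow, h2]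
        ring
      have hw0 : w ≠ 0 := by
        rintro rfl
        rw [zero_pow two_ne_zero, eval_pf] at hw
        rcases mul_eq_zero.1 hw.symm with h2 | h2
        · exact h0 h2
        · obtain ⟨j, hj, hj0⟩ := Finset.prod_eq_zero_iff.1 h2
          exact h1 j hj hj0
      refine ⟨w / ∏ j ∈ J, (h j).eval (z j), div_ne_zero hw0 hh, ?_⟩
      rw [div_pow, hw, hfk]
      field_simp
    · rintro z (hz | hz | hz)
      · obtain ⟨w, hw, hwz⟩ := hz
        exact ⟨(∏ j ∈ J, (h j).eval (z j)) * w, by rw [mul_pow, hwz, hfk]⟩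
      · refine ⟨0, ?_⟩
        have hz' : eval z G = 0 := hz
        rw [eval_pf, hz', zero_mul, zero_pow two_ne_zero]
      · rw [Set.mem_iUnion₂] at hz
        obtain ⟨i, hi, hz⟩ := hz
        rw [Set.mem_iUnion₂] at hz
        obtain ⟨t, ht, -, rfl⟩ := hz
        refine ⟨0, ?_⟩
        have ht' : (f i).eval (z i) = 0 := ht
        rw [eval_pf, Finset.prod_eq_zero hi ht', mul_zero, zero_pow two_ne_zero]
  rw [heq]
  refine union_SA (base_prod k J G hG0 hG2 fun i hi => (hk i hi).2)
    (union_SA hZ (fin_SA J.finite_toSet fun i hi => fin_SA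
      (Polynomial.finite_setOfPred_isRoot (hzero i hi)) fun t ht => slice_SA (fun z _ s => trivial)
        univ_SA))

/-- **All the rational points of the double cover.** -/
theorem cov_prod (f : Fin n → Polynomial ℚ) (J : Finset (Fin n)) (G : MvPolynomial (Fin n) ℚ)
    (hG0 : ∀ i ∈ J, Dg G i 0) (hG2 : ∀ i, i ∉ J → Dg G i 2)
    (hf : ∀ i ∈ J, (f i).natDegree ≤ 4) (hZ : SA (closure (rl {z | eval z G = 0}))) :
    SA (closure (rl (dcov (pf G f J)))) := by
  set F := pf G f J with hF
  have h1 : rl {u : Option (Fin n) → ℚ | u none ^ 2 = eval (fun k => u (some k)) F} =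
      lift (fun z => eval z F) {z : Fin n → ℚ | ∃ w : ℚ, w ^ 2 = eval z F} := by
    apply Set.Subset.antisymm
    · rintro _ ⟨u, hu, rfl⟩
      refine ⟨fun k => u (some k), ⟨u none, hu⟩, u none, hu, ?_⟩
      funext o
      rcases o with _ | k <;> rfl
    · rintro _ ⟨z, -, w, hw, rfl⟩
      refine ⟨fun o => o.elim w z, hw, ?_⟩
      funext o
      rcases o with _ | k <;> rfl
  have h2 : SA (closure (rl {u : Option (Fin n) → ℚ | u none ^ 2 =
      eval (fun k => u (some k)) F})) := by
    rw [h1]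
    exact lift_SA (PF.aeval F) (fun z => Pool.Agent.TH729.SQ.aeval_cast z F)
      (fun z hz => hz) (all_prod f J G hG0 hG2 hf hZ)
  let e : Option (Fin n) ≃ Fin (n + 1) := (finSuccEquiv n).symm
  refine equiv_SA e h2 fun y => ?_
  have e0 : e none = 0 := finSuccEquiv_symm_none
  have e1 : ∀ k, e (some k) = k.succ := fun k => finSuccEquiv_symm_some k
  simp only [dcov, Set.mem_ofPred_eq, e0, e1]

end Pool.Agent.D0H62.IT
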