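import Pool.Agent.D0H62.IT.Box

/-!
# Rational points on real quadrics
-/

set_option autoImplicit false
set_option linter.unusedSectionVars false
set_option linter.unusedVariables false

open MvPolynomial Set Filter Topology Pool.Agent.H581R2 Pool.Agent.TH729.SQ

namespace Pool.Agent.D0H62.IT

variable {κ : Type} [Fintype κ]

/-- the quadratic form -/
def qf {S : Type*} [CommRing S] (δ y : κ → S) : S := ∑ s, δ s * y s ^ 2

/-- its bilinear form -/
def bf {S : Type*} [CommRing S] (δ y z : κ → S) : S := ∑ s, δ s * y s * z s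

lemma qf_add {S : Type*} [CommRing S] (δ y z : κ → S) (r : S) :
    qf δ (fun s => y s + r * z s) = qf δ y + 2 * r * bf δ y z + r ^ 2 * qf δ z := by
  unfold qf bf
  rw [Finset.mul_sum, Finset.mul_sum, ← Finset.sum_add_distrib, ← Finset.sum_add_distrib]
  exact Finset.sum_congr rfl fun s _ => by ring

lemma qf_cast (δ y : κ → ℚ) :
    qf (fun s => (δ s : ℝ)) (fun s => (y s : ℝ)) = ((qf δ y : ℚ) : ℝ) := by
  unfold qf
  push_cast
  rfl

lemma bf_cast (δ y z : κ → ℚ) :
    bf (fun s => (δ s : ℝ)) (fun s => (y s : ℝ)) (fun s => (z s : ℝ)) = ((bf δ y z : ℚ) : ℝ) := by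
  unfold bf
  push_cast
  rfl

lemma qf_cont (δ : κ → ℝ) : Continuous fun y : κ → ℝ => qf δ y := by
  unfold qf
  fun_prop

lemma bf_cont (δ y : κ → ℝ) : Continuous fun z : κ → ℝ => bf δ y z := by
  unfold bf
  fun_prop

lemma rat_dense : Dense (range fun (u : κ → ℚ) k => (u k : ℝ)) := by
  have h1 : DenseRange (Pi.map fun _ : κ => ((↑) : ℚ → ℝ)) :=
    DenseRange.piMap fun _ => Rat.denseRange_cast
  exact h1

/-- the lines through a rational point -/
lemma quad_lines {δ : κ → ℚ} {c : ℚ} {y1 : κ → ℚ} (h1 : qf δ y1 = c) {Y : κ → ℝ}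
    (hY : qf (fun s => (δ s : ℝ)) Y = c)
    (hne : qf (fun s => (δ s : ℝ)) (fun s => Y s - y1 s) ≠ 0) :
    Y ∈ closure (rl {y : κ → ℚ | qf δ y = c}) := by
  set Δ : κ → ℝ := fun s => (δ s : ℝ) with hΔ
  set y : κ → ℝ := fun s => (y1 s : ℝ) with hy
  set V : κ → ℝ := fun s => Y s - y1 s with hV
  set F : (κ → ℝ) → κ → ℝ := fun v s => y s + (-(2 * bf Δ y v) / qf Δ v) * v s with hF
  have hFc : ContinuousAt F V := by
    refine continuousAt_pi.2 fun s => ?_
    have h2 : ContinuousAt (fun v => (-(2 * bf Δ y v) / qf Δ v)) V := by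
      refine ContinuousAt.div ?_ (qf_cont Δ).continuousAt hne
      exact ((bf_cont Δ y).const_mul 2).neg.continuousAt
    exact continuousAt_const.add (h2.mul (continuous_apply s).continuousAt)
  have hFV : F V = Y := by
    have h3 : qf Δ (fun s => y s + 1 * V s) = qf Δ y + 2 * 1 * bf Δ y V + 1 ^ 2 * qf Δ V :=
      qf_add Δ y V 1
    have h4 : (fun s => y s + 1 * V s) = Y := by
      funext s
      simp only [hV, hy]
      ring
    have h5 : qf Δ y = (c : ℝ) := by
      rw [hΔ, hy, qf_cast, h1]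
    rw [h4, hY, h5] at h3
    have h6 : -(2 * bf Δ y V) / qf Δ V = 1 := by
      rw [div_eq_one_iff_eq hne]
      linarith
    funext s
    simp only [hF]
    rw [h6]
    simp only [hV, hy]
    ring
  have hVc : V ∈ closure (range (fun (u : κ → ℚ) k => (u k : ℝ)) ∩ {v | qf Δ v ≠ 0}) := by
    have h7 := rat_dense (κ := κ) V
    rw [mem_closure_iff_nhds] at h7 ⊢
    intro t ht
    have ho : IsOpen {v : κ → ℝ | qf Δ v ≠ 0} := isOpen_ne_fun (qf_cont Δ) continuous_const
    obtain ⟨z, hz1, hz2⟩ := h7 _ (inter_mem ht (ho.mem_nhds hne))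
    exact ⟨z, hz1.1, hz2, hz1.2⟩
  have h8 := (hFc.continuousWithinAt (s := range (fun (u : κ → ℚ) k => (u k : ℝ)) ∩
    {v | qf Δ v ≠ 0})).mem_closure_image hVc
  rw [hFV] at h8
  refine closure_mono ?_ h8
  rintro _ ⟨_, ⟨⟨u, rfl⟩, hu⟩, rfl⟩
  have hu' : qf δ u ≠ 0 := by
    intro h0
    apply hu
    change qf Δ (fun k => (u k : ℝ)) = 0
    rw [hΔ, qf_cast, h0, Rat.cast_zero]
  refine ⟨fun s => y1 s + (-(2 * bf δ y1 u) / qf δ u) * u s, ?_, ?_⟩
  · change qf δ (fun s => y1 s + (-(2 * bf δ y1 u) / qf δ u) * u s) = c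
    rw [qf_add, h1]
    field_simp
    ring
  · funext s
    simp only [hF, hΔ, hy]
    rw [qf_cast, bf_cast]
    push_cast
    ring

/-- **Rational points are dense in a real quadric with a nonsingular rational point.** -/
theorem quad_dense {δ : κ → ℚ} {c : ℚ} {y0 : κ → ℚ} (h0 : qf δ y0 = c)
    (hn0 : ∃ s, δ s * y0 s ≠ 0) {Y : κ → ℝ} (hY : qf (fun s => (δ s : ℝ)) Y = c)
    (hnY : ∃ s, (δ s : ℝ) * Y s ≠ 0) :
    Y ∈ closure (rl {y : κ → ℚ | qf δ y = c ∧ ∃ s, δ s * y s ≠ 0}) := by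
  classical
  set Δ : κ → ℝ := fun s => (δ s : ℝ) with hΔ
  have key : Y ∈ closure (rl {y : κ → ℚ | qf δ y = c}) := by
    by_cases hne : qf Δ (fun s => Y s - y0 s) ≠ 0
    · exact quad_lines h0 hY hne
    push Not at hne
    -- a suitable direction
    obtain ⟨s0, hs0⟩ := hn0
    obtain ⟨s1, hs1⟩ := hnY
    set P1 : MvPolynomial κ ℝ := ∑ s, C (Δ s) * X s ^ 2 with hP1
    set P2 : MvPolynomial κ ℝ := ∑ s, C (Δ s * y0 s) * X s with hP2
    set P3 : MvPolynomial κ ℝ := ∑ s, C (Δ s * Y s) * X s with hP3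
    have e1 : ∀ v : κ → ℝ, eval v P1 = qf Δ v := by
      intro v
      simp [hP1, qf]
    have e2 : ∀ v : κ → ℝ, eval v P2 = bf Δ (fun s => (y0 s : ℝ)) v := by
      intro v
      simp [hP2, bf]
    have e3 : ∀ v : κ → ℝ, eval v P3 = bf Δ Y v := by
      intro v
      simp [hP3, bf]
    have n1 : P1 ≠ 0 := by
      intro hP
      have h1 := e1 (Pi.single s0 1)
      rw [hP, map_zero] at h1
      unfold qf at h1
      rw [Finset.sum_eq_single s0 (fun s _ hs => by simp [Pi.single_eq_of_ne hs])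
        (fun h => absurd (Finset.mem_univ _) h)] at h1
      rw [Pi.single_eq_same] at h1
      have : δ s0 = 0 := by
        have h2 : (δ s0 : ℝ) = 0 := by
          simp only [hΔ] at h1
          linarith
        exact_mod_cast h2
      exact hs0 (by rw [this, zero_mul])
    have n2 : P2 ≠ 0 := by
      intro hP
      have h1 := e2 (Pi.single s0 1)
      rw [hP, map_zero] at h1
      unfold bf at h1
      rw [Finset.sum_eq_single s0 (fun s _ hs => by simp [Pi.single_eq_of_ne hs])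
        (fun h => absurd (Finset.mem_univ _) h)] at h1
      rw [Pi.single_eq_same, mul_one] at h1
      have h2 : ((δ s0 * y0 s0 : ℚ) : ℝ) = 0 := by
        push_cast
        exact h1.symm
      exact hs0 (by exact_mod_cast h2)
    have n3 : P3 ≠ 0 := by
      intro hP
      have h1 := e3 (Pi.single s1 1)
      rw [hP, map_zero] at h1
      unfold bf at h1
      rw [Finset.sum_eq_single s1 (fun s _ hs => by simp [Pi.single_eq_of_ne hs])
        (fun h => absurd (Finset.mem_univ _) h)] at h1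
      rw [Pi.single_eq_same, mul_one] at h1
      exact hs1 h1.symm
    have hP : P1 * P2 * P3 ≠ 0 := mul_ne_zero (mul_ne_zero n1 n2) n3
    obtain ⟨v0, hv0⟩ : ∃ v : κ → ℝ, eval v (P1 * P2 * P3) ≠ 0 := by
      by_contra hcon
      push Not at hcon
      exact hP (MvPolynomial.funext fun v => by rw [hcon v, map_zero])
    have ho : IsOpen {v : κ → ℝ | eval v (P1 * P2 * P3) ≠ 0} :=
      isOpen_ne_fun (MvPolynomial.continuous_eval _) continuous_const
    obtain ⟨_, hv, ⟨v, rfl⟩⟩ := (rat_dense (κ := κ)).inter_open_nonempty _ ho ⟨v0, hv0⟩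
    have hv' : eval (fun k => (v k : ℝ)) (P1 * P2 * P3) ≠ 0 := hv
    rw [map_mul, map_mul, e1, e2, e3] at hv'
    have m1 : qf Δ (fun k => (v k : ℝ)) ≠ 0 := left_ne_zero_of_mul (left_ne_zero_of_mul hv')
    have m2 : bf Δ (fun s => (y0 s : ℝ)) (fun k => (v k : ℝ)) ≠ 0 :=
      right_ne_zero_of_mul (left_ne_zero_of_mul hv')
    have m3 : bf Δ Y (fun k => (v k : ℝ)) ≠ 0 := right_ne_zero_of_mul hv'
    have m1' : qf δ v ≠ 0 := by
      intro h
      apply m1
      rw [hΔ, qf_cast, h, Rat.cast_zero]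
    set ρ : ℚ := -(2 * bf δ y0 v) / qf δ v with hρ
    have hy1 : qf δ (fun s => y0 s + ρ * v s) = c := by
      rw [qf_add, h0, hρ]
      field_simp
      ring
    refine quad_lines hy1 hY ?_
    have h9 : (fun s => Y s - ((y0 s + ρ * v s : ℚ) : ℝ)) =
        fun s => (Y s - y0 s) + (-(ρ : ℝ)) * (v s : ℝ) := by
      funext s
      push_cast
      ring
    have h10 := qf_add Δ (fun s => Y s - y0 s) (fun s => (v s : ℝ)) (-(ρ : ℝ))
    rw [h9, h10, hne]
    have h11 : bf Δ (fun s => Y s - y0 s) (fun s => (v s : ℝ)) =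
        bf Δ Y (fun s => (v s : ℝ)) - bf Δ (fun s => (y0 s : ℝ)) (fun s => (v s : ℝ)) := by
      unfold bf
      rw [← Finset.sum_sub_distrib]
      exact Finset.sum_congr rfl fun s _ => by ring
    have hρ' : (ρ : ℝ) * qf Δ (fun k => (v k : ℝ)) =
        -(2 * bf Δ (fun s => (y0 s : ℝ)) (fun k => (v k : ℝ))) := by
      rw [hΔ, qf_cast, bf_cast, hρ]
      have : ((qf δ v : ℚ) : ℝ) ≠ 0 := by exact_mod_cast m1'
      push_cast
      field_simp
    have hρ0 : (ρ : ℝ) ≠ 0 := by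
      intro h
      rw [h, zero_mul] at hρ'
      apply m2
      linarith
    have h12 : 0 + 2 * (-(ρ : ℝ)) * (bf Δ Y (fun s => (v s : ℝ)) -
        bf Δ (fun s => (y0 s : ℝ)) (fun s => (v s : ℝ))) +
        (-(ρ : ℝ)) ^ 2 * qf Δ (fun s => (v s : ℝ)) = -2 * ρ * bf Δ Y (fun s => (v s : ℝ)) := by
      linear_combination (ρ : ℝ) * hρ'
    rw [h11, h12]
    exact mul_ne_zero (mul_ne_zero (by norm_num) hρ0) m3
  obtain ⟨s1, hs1⟩ := hnY
  rw [mem_closure_iff_nhds] at key ⊢
  intro t ht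
  have ho : IsOpen {y : κ → ℝ | (δ s1 : ℝ) * y s1 ≠ 0} :=
    isOpen_ne_fun (by fun_prop) continuous_const
  obtain ⟨_, ⟨ht1, ht2⟩, y, hy, rfl⟩ := key _ (inter_mem ht (ho.mem_nhds hs1))
  refine ⟨_, ht1, y, ⟨hy, s1, ?_⟩, rfl⟩
  intro h
  apply ht2
  change (δ s1 : ℝ) * (y s1 : ℝ) = 0
  exact_mod_cast h

end Pool.Agent.D0H62.IT
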