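import Pool.Agent.D0H62.IT.Dich
import Pool.Agent.Y718.Quart

/-!
# Smooth quartic forms
-/

set_option autoImplicit false
set_option linter.unusedSectionVars false
set_option linter.unusedVariables false

open MvPolynomial Set Filter Topology Pool.Agent.H581R2 Pool.Agent.TH729.SQ Pool.Agent.Y718
  Pool.Agent.Y718.X

namespace Pool.Agent.D0H62.IT

variable {n : ℕ}

lemma lp_C (f : MvPolynomial (Fin n) ℚ) (d : ℚ) (z v : Fin n → ℚ) :
    Pool.Agent.Y718.lp (C d * f) z v = Polynomial.C d * Pool.Agent.Y718.lp f z v := by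
  unfold Pool.Agent.Y718.lp
  rw [map_mul, aeval_C]
  rfl

lemma ndp_C {f : MvPolynomial (Fin n) ℚ} {d : ℚ} (hd : d ≠ 0) {z v u : Fin n → ℚ}
    (h : NDP f z v u) : NDP (C d * f) z v u := by
  intro α β γ hs
  have h1 : ∀ s t : ℚ, (α * s + β * t) * covB (Pool.Agent.Y718.lp f z (s • v + t • u)) =
      (γ * d) * covT (Pool.Agent.Y718.lp f z (s • v + t • u)) := by
    intro s t
    have h2 := hs s t
    rw [lp_C] at h2
    have hB : covB (Polynomial.C d * Pool.Agent.Y718.lp f z (s • v + t • u)) =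
        d ^ 3 * covB (Pool.Agent.Y718.lp f z (s • v + t • u)) := by
      simp only [covB, cB, Polynomial.coeff_C_mul]
      ring
    have hT : covT (Polynomial.C d * Pool.Agent.Y718.lp f z (s • v + t • u)) =
        d ^ 4 * covT (Pool.Agent.Y718.lp f z (s • v + t • u)) := by
      simp only [covT, cT, Polynomial.coeff_C_mul]
      ring
    rw [hB, hT] at h2
    have h3 : d ^ 3 ≠ 0 := pow_ne_zero 3 hd
    apply mul_left_cancel₀ h3
    linear_combination h2
  obtain ⟨ha, hb, hc⟩ := h α β (γ * d) h1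
  exact ⟨ha, hb, (mul_eq_zero.1 hc).resolve_right hd⟩

lemma SG2_nonneg {f : MvPolynomial (Fin n) ℚ} {x : Fin n → ℝ} (hx : x ∈ closure (rl (SG2 f))) :
    (0 : ℝ) ≤ aeval x f := by
  have hc : Continuous fun x : Fin n → ℝ => (aeval x f : ℝ) := PF.continuous (PF.aeval f)
  have : closure (rl (SG2 f)) ⊆ {x | (0 : ℝ) ≤ aeval x f} := by
    refine closure_minimal ?_ (isClosed_le continuous_const hc)
    rintro _ ⟨z, hz, rfl⟩
    obtain ⟨-, w, -, hw⟩ := hz
    change (0 : ℝ) ≤ aeval (fun i => (z i : ℝ)) f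
    rw [Pool.Agent.TH729.SQ.aeval_cast z f, ← hw]
    positivity
  exact this hx

lemma SG2_near {h : MvPolynomial (Fin n) ℚ} {d : ℚ} (hd : d ≠ 0)
    (h4 : ∀ i, (C d * h).degreeOf i ≤ 4) {x : Fin n → ℝ}
    (hx : x ∈ closure (rl (SG2 (C d * h)))) (hx0 : (aeval x h : ℝ) ≠ 0) :
    closure (rl (SG2 (C d * h))) ∈ 𝓝 x := by
  refine SG2_open h4 hx (lt_of_le_of_ne (SG2_nonneg hx) ?_)
  rw [aeval_Cmul]
  exact (mul_ne_zero (by exact_mod_cast hd) hx0).symm

lemma SG2_mem {h : MvPolynomial (Fin n) ℚ} {d : ℚ} (hd : d ≠ 0)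
    (h4 : ∀ i, (C d * h).degreeOf i ≤ 4) :
    closure (rl (SG2 (C d * h))) ∈ fam1 h := by
  refine ⟨closure (rl (SG2 (C d * h))) ∩ Vh h, ⟨Set.inter_subset_right, ?_⟩, ?_⟩
  · refine LC.of_clopen (O := interior (closure (rl (SG2 (C d * h)))))
      (C := closure (rl (SG2 (C d * h)))) isOpen_interior isClosed_closure ?_ ?_
    · intro x hx
      constructor
      · rintro ⟨h1, -⟩
        rw [mem_interior_iff_mem_nhds]
        exact SG2_near hd h4 h1 hx
      · intro h1
        exact ⟨interior_subset h1, hx⟩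
    · intro x hx
      exact ⟨fun h => h.1, fun h => ⟨h, hx⟩⟩
  · apply Set.Subset.antisymm
    · exact closure_minimal Set.inter_subset_left isClosed_closure
    · apply closure_mono
      rintro x hx
      refine ⟨subset_closure hx, ?_⟩
      obtain ⟨z, ⟨-, w, hw0, hw⟩, rfl⟩ := hx
      intro h0
      change (aeval (fun i => (z i : ℝ)) h : ℝ) = 0 at h0
      rw [Pool.Agent.TH729.SQ.aeval_cast z h] at h0
      have h1 : eval z h = 0 := by exact_mod_cast h0
      rw [map_mul, h1, mul_zero] at hw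
      exact hw0 (pow_eq_zero_iff (two_ne_zero) |>.mp hw)

/-- polynomials with a finite set of degenerate points -/
theorem adm_fin {h : MvPolynomial (Fin n) ℚ} (h4 : ∀ i, h.degreeOf i ≤ 4) {E : Set (Fin n → ℚ)}
    (hE : E.Finite)
    (hN : ∀ d : ℚ, d ≠ 0 → ∀ z, eval z h ≠ 0 → z ∉ E → ∀ i, Nondeg2 (C d * h) i z)
    (hZ : SA (closure (rl {z | eval z h = 0}))) :
    Fam h ∧ Ex h ({x | (aeval x h : ℝ) = 0} ∪ rl E) := by
  have h4' : ∀ d : ℚ, ∀ i, (C d * h).degreeOf i ≤ 4 := fun d i =>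
    (degreeOf_C_mul_le h i d).trans (h4 i)
  have hR : ∀ d : ℚ, d ≠ 0 → Rd h d = SG2 (C d * h) ∪ {z | z ∈ E ∧ z ∈ Rd h d} := by
    intro d hd
    ext z
    constructor
    · rintro ⟨w, hw, hwz⟩
      by_cases hz : z ∈ E
      · exact Or.inr ⟨hz, w, hw, hwz⟩
      · left
        refine ⟨hN d hd z ?_ hz, d * w, mul_ne_zero hd hw, ?_⟩
        · rw [hwz]
          exact mul_ne_zero hd (pow_ne_zero 2 hw)
        · rw [map_mul, eval_C, hwz]
          ring
    · rintro (⟨-, w, hw, hwz⟩ | ⟨-, h⟩)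
      · refine ⟨w / d, div_ne_zero hw hd, ?_⟩
        rw [map_mul, eval_C] at hwz
        field_simp
        linear_combination -hwz
      · exact h
  have hfin : ∀ B : Set (Fin n → ℚ), B ⊆ E → (rl B).Finite := by
    intro B hB
    exact rl_finite (hE.subset hB)
  have hclo : ∀ d : ℚ, d ≠ 0 → closure (rl (Rd h d)) =
      closure (rl (SG2 (C d * h))) ∪ rl {z | z ∈ E ∧ z ∈ Rd h d} := by
    intro d hd
    conv_lhs => rw [hR d hd]
    rw [rl_union, closure_union, (hfin {z | z ∈ E ∧ z ∈ Rd h d} fun z hz => hz.1).isClosed.closure_eq]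
  refine ⟨⟨?_, ?_⟩, ?_, ?_⟩
  · refine (((((fam1_fin h).prod hE.finite_subsets).image
      fun q : Set (Fin n → ℝ) × Set (Fin n → ℚ) => q.1 ∪ rl q.2)).union
        (Set.finite_singleton (closure (rl (Rd h 0))))).subset ?_
    rintro _ ⟨d, rfl⟩
    by_cases hd : d = 0
    · subst hd
      exact Or.inr rfl
    · left
      exact ⟨(_, _), ⟨SG2_mem hd (h4' d), fun t ht => ht.1⟩, (hclo d hd).symm⟩
  · intro d
    change SA (closure (rl (Rd h d)))
    by_cases hd : d = 0
    · subst hd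
      rw [Rd_zero]
      exact hZ
    · rw [hR d hd]
      exact union_SA (SG2_SA (h4' d)) (Pool.Agent.Y718.fin_SA (hE.subset fun z hz => hz.1))
  · intro x hx
    exact Or.inl hx
  · intro d x hx hxZ
    change x ∈ closure (rl (Rd h d)) at hx
    change closure (rl (Rd h d)) ∈ 𝓝 x
    have hx0 : (aeval x h : ℝ) ≠ 0 := fun h => hxZ (Or.inl h)
    have hxE : x ∉ rl E := fun h => hxZ (Or.inr h)
    by_cases hd : d = 0
    · exfalso
      apply hx0
      have hc : Continuous fun x : Fin n → ℝ => (aeval x h : ℝ) := PF.continuous (PF.aeval h)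
      have hcl : closure (rl (Rd h 0)) ⊆ {x | (aeval x h : ℝ) = 0} := by
        refine closure_minimal ?_ (isClosed_eq hc continuous_const)
        rintro _ ⟨z, hz, rfl⟩
        rw [Rd_zero] at hz
        change (aeval (fun i => (z i : ℝ)) h : ℝ) = 0
        rw [Pool.Agent.TH729.SQ.aeval_cast z h]
        have h1 : eval z h = 0 := hz
        rw [h1, Rat.cast_zero]
      subst hd
      exact hcl hx
    · rw [hclo d hd] at hx ⊢
      rcases hx with hx | ⟨z, hz, rfl⟩
      · exact mem_of_superset (SG2_near hd (h4' d) hx hx0) Set.subset_union_left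
      · exact absurd ⟨z, hz.1, rfl⟩ hxE

lemma smooth_form {F : MvPolynomial (Fin (n + 1)) ℚ}
    (h : ∀ y : Fin (n + 1) → ℂ, (∀ i, MvPolynomial.aeval y (MvPolynomial.pderiv i F) = 0) → y = 0) :
    SF.Smooth (FC F) := by
  intro y hy
  apply h y
  intro i
  have h1 := hy i
  unfold Pool.Agent.Y718.FC at h1
  rw [MvPolynomial.pderiv_map, MvPolynomial.eval_map] at h1
  rw [MvPolynomial.aeval_def]
  exact h1

/-- **Smooth quartic forms.** -/
theorem adm_quartic {F : MvPolynomial (Fin (n + 1)) ℚ} (hF : F.IsHomogeneous 4)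
    (hsm : SF.Smooth (FC F)) (hn : 2 ≤ n) (p : Fin (n + 1))
    (hZ : SA (closure (rl {z | eval z (deh F p) = 0}))) :
    Fam (deh F p) ∧ ∃ T : Set (Fin n → ℝ), T.Finite ∧
      Ex (deh F p) {x | (aeval x (deh F p) : ℝ) = 0 ∨ x ∈ T} := by
  obtain ⟨h1, h2⟩ := adm_fin (deh_degree hF p) (Exc_finite hF hsm hn p) (by
    intro d hd z hz hzE i
    have he : MvPolynomial.eval (ic p 1 z) F ≠ 0 := by
      rw [← deh_eval]
      exact hz
    by_cases hN : ∀ v u, ¬ NDP (deh F p) z v u
    · exact absurd (exceptional hF p he hN) hzE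
    · push Not at hN
      obtain ⟨v, u, hN⟩ := hN
      refine Or.inr ⟨⊤, trivial, ?_, v, trivial, u, trivial, ndp_C hd hN⟩
      intro z' v' hv'
      rw [lp_C]
      exact (Polynomial.natDegree_C_mul_le _ _).trans (deh_quartic hF p z' v' hv')) hZ
  exact ⟨h1, rl (Exc F p), rl_finite (Exc_finite hF hsm hn p), h2⟩

end Pool.Agent.D0H62.IT
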