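import Pool.Agent.D0H62.IT.Fin

/-!
# Polynomials of degree at most four: squares and the discriminant of the resolvent
-/

set_option autoImplicit false
set_option linter.unusedSectionVars false
set_option linter.unusedVariables false

open WeierstrassCurve Pool.Agent.Y720.MZ Pool.Agent.Y718.X

namespace Pool.Agent.D0H62.IT

section roots

variable {K : Type*} [Field K]

lemma dsc_roots (a b c : K) : dsc (-(a + b + c)) (a * b + a * c + b * c) (-(a * b * c)) =
    ((a - b) * (a - c) * (b - c)) ^ 2 := by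
  unfold dsc; ring

lemma cf4 (q₀ q₁ q₂ q₃ q₄ : K) (G : Polynomial K) (h : G = Polynomial.C q₄ * Polynomial.X ^ 4 +
    Polynomial.C q₃ * Polynomial.X ^ 3 + Polynomial.C q₂ * Polynomial.X ^ 2 +
    Polynomial.C q₁ * Polynomial.X + Polynomial.C q₀) : G.coeff 0 = q₀ ∧ G.coeff 1 = q₁ ∧
    G.coeff 2 = q₂ ∧ G.coeff 3 = q₃ ∧ G.coeff 4 = q₄ := by
  subst h
  refine ⟨?_, ?_, ?_, ?_, ?_⟩ <;> simp [Polynomial.coeff_X, Polynomial.coeff_C]

lemma Db_four (a r₁ r₂ r₃ r₄ : K) (G : Polynomial K)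
    (hG : G = Polynomial.C a * ((Polynomial.X - Polynomial.C r₁) *
      ((Polynomial.X - Polynomial.C r₂) * ((Polynomial.X - Polynomial.C r₃) *
        (Polynomial.X - Polynomial.C r₄))))) :
    Db G = (a ^ 3 * ((r₁ - r₂) * (r₁ - r₃) * (r₁ - r₄) * (r₂ - r₃) * (r₂ - r₄) * (r₃ - r₄))) ^ 2
      := by
  have h1 : G = Polynomial.C a * Polynomial.X ^ 4 +
      Polynomial.C (-(a * (r₁ + r₂ + r₃ + r₄))) * Polynomial.X ^ 3 +
      Polynomial.C (a * (r₁ * r₂ + r₁ * r₃ + r₁ * r₄ + r₂ * r₃ + r₂ * r₄ + r₃ * r₄)) *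
        Polynomial.X ^ 2 +
      Polynomial.C (-(a * (r₁ * r₂ * r₃ + r₁ * r₂ * r₄ + r₁ * r₃ * r₄ + r₂ * r₃ * r₄))) *
        Polynomial.X + Polynomial.C (a * (r₁ * r₂ * r₃ * r₄)) := by
    rw [hG]
    simp only [map_mul, map_add, map_neg]
    ring
  obtain ⟨c0, c1, c2, c3, c4⟩ := cf4 _ _ _ _ _ G h1
  unfold Db Pool.Agent.Y718.X.Ab Bb Cb
  rw [c0, c1, c2, c3, c4]
  have h2 := dsc_roots (-(a * (r₁ * r₂ + r₃ * r₄))) (-(a * (r₁ * r₃ + r₂ * r₄)))
    (-(a * (r₁ * r₄ + r₂ * r₃)))
  convert h2 using 1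
  · congr 1 <;> ring
  · ring

lemma Db_three (a r₁ r₂ r₃ : K) (G : Polynomial K)
    (hG : G = Polynomial.C a * ((Polynomial.X - Polynomial.C r₁) *
      ((Polynomial.X - Polynomial.C r₂) * (Polynomial.X - Polynomial.C r₃)))) :
    Db G = (a ^ 3 * ((r₁ - r₂) * (r₁ - r₃) * (r₂ - r₃))) ^ 2
      := by
  have h1 : G = Polynomial.C 0 * Polynomial.X ^ 4 + Polynomial.C a * Polynomial.X ^ 3 +
      Polynomial.C (-(a * (r₁ + r₂ + r₃))) * Polynomial.X ^ 2 +
      Polynomial.C (a * (r₁ * r₂ + r₁ * r₃ + r₂ * r₃)) *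
        Polynomial.X + Polynomial.C (-(a * (r₁ * r₂ * r₃))) := by
    rw [hG]
    simp only [map_mul, map_add, map_neg, map_zero]
    ring
  obtain ⟨c0, c1, c2, c3, c4⟩ := cf4 _ _ _ _ _ G h1
  unfold Db Pool.Agent.Y718.X.Ab Bb Cb
  rw [c0, c1, c2, c3, c4]
  have h2 := dsc_roots (a * r₁) (a * r₂) (a * r₃)
  convert h2 using 1
  · congr 1 <;> ring
  · ring

end roots

/-- a squarefree polynomial of degree three or four has a nonzero discriminant -/
lemma Db_ne {g : Polynomial ℚ} (hg : Squarefree g) (h3 : g.natDegree = 3 ∨ g.natDegree = 4) :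
    Db g ≠ 0 := by
  classical
  set K := AlgebraicClosure ℚ
  set ι := algebraMap ℚ K with hι
  have hsep : (g.map ι).Separable := (PerfectField.separable_iff_squarefree.2 hg).map
  have hsp : (g.map ι).Splits := IsAlgClosed.splits _
  have hnd := Polynomial.nodup_roots hsep
  have hcard : Multiset.card (g.map ι).roots = g.natDegree := by
    rw [← hsp.natDegree_eq_card_roots, Polynomial.natDegree_map]
  have hprod := hsp.eq_prod_roots
  have h0 : (g.map ι).leadingCoeff ≠ 0 := by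
    rw [Polynomial.leadingCoeff_ne_zero]
    exact hsep.ne_zero
  have hmap : Db (g.map ι) = ι (Db g) := by
    unfold Db
    rw [map_Ab, map_Bb, map_Cb]
    unfold dsc
    simp only [map_sub, map_add, map_mul, map_pow, map_ofNat]
  have key : Db (g.map ι) ≠ 0 := by
    generalize (g.map ι).leadingCoeff = a at hprod h0
    obtain ⟨l, hl⟩ := Quot.exists_rep (g.map ι).roots
    have hl' : (l : Multiset K) = (g.map ι).roots := hl
    rw [← hl'] at hnd hcard hprod
    rw [Multiset.coe_card] at hcard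
    rw [Multiset.coe_nodup] at hnd
    rw [Multiset.map_coe, Multiset.prod_coe] at hprod
    rcases h3 with h3 | h3
    · rw [h3] at hcard
      match l, hcard with
      | [r₁, r₂, r₃], _ =>
        simp only [List.map_cons, List.map_nil, List.prod_cons, List.prod_nil, mul_one] at hprod
        simp only [List.nodup_cons, List.mem_cons, List.not_mem_nil, or_false, not_or,
          not_false_eq_true, List.nodup_nil, and_true] at hnd
        obtain ⟨⟨h12, h13⟩, h23⟩ := hnd
        rw [Db_three a r₁ r₂ r₃ _ hprod]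
        exact pow_ne_zero _ (mul_ne_zero (pow_ne_zero _ h0) (mul_ne_zero (mul_ne_zero
          (sub_ne_zero.2 h12) (sub_ne_zero.2 h13)) (sub_ne_zero.2 h23)))
    · rw [h3] at hcard
      match l, hcard with
      | [r₁, r₂, r₃, r₄], _ =>
        simp only [List.map_cons, List.map_nil, List.prod_cons, List.prod_nil, mul_one] at hprod
        simp only [List.nodup_cons, List.mem_cons, List.not_mem_nil, or_false, not_or,
          not_false_eq_true, List.nodup_nil, and_true] at hnd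
        obtain ⟨⟨h12, h13, h14⟩, ⟨h23, h24⟩, h34⟩ := hnd
        rw [Db_four a r₁ r₂ r₃ r₄ _ hprod]
        exact pow_ne_zero _ (mul_ne_zero (pow_ne_zero _ h0) (mul_ne_zero (mul_ne_zero (mul_ne_zero
          (mul_ne_zero (mul_ne_zero (sub_ne_zero.2 h12) (sub_ne_zero.2 h13)) (sub_ne_zero.2 h14))
          (sub_ne_zero.2 h23)) (sub_ne_zero.2 h24)) (sub_ne_zero.2 h34)))
  intro h
  rw [hmap, h, map_zero] at key
  exact key rfl

/-- the squarefree part -/
lemma sq_decomp {g : Polynomial ℚ} (h0 : g ≠ 0) (hg : g.natDegree ≤ 4) :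
    ∃ h k : Polynomial ℚ, g = h ^ 2 * k ∧ k.natDegree ≤ 4 ∧ (k.natDegree ≤ 2 ∨ Db k ≠ 0) := by
  by_cases h2 : g.natDegree ≤ 2
  · exact ⟨1, g, by ring, hg, Or.inl h2⟩
  by_cases hD : Db g = 0
  · have hsq : ¬ Squarefree g := fun hs => Db_ne hs (by omega) hD
    unfold Squarefree at hsq
    push Not at hsq
    obtain ⟨p, ⟨k, hk⟩, hpu⟩ := hsq
    have hp0 : p ≠ 0 := by
      rintro rfl
      rw [hk] at h0
      simp at h0
    have hk0 : k ≠ 0 := by
      rintro rfl
      rw [hk] at h0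
      simp at h0
    have hpd : 1 ≤ p.natDegree := by
      by_contra hc
      apply hpu
      rw [Polynomial.isUnit_iff_degree_eq_zero, Polynomial.degree_eq_natDegree hp0]
      have : p.natDegree = 0 := by omega
      rw [this]
      rfl
    have hdeg : g.natDegree = p.natDegree + p.natDegree + k.natDegree := by
      rw [hk, Polynomial.natDegree_mul (mul_ne_zero hp0 hp0) hk0, Polynomial.natDegree_mul hp0 hp0]
    exact ⟨p, k, by rw [hk]; ring, by omega, Or.inl (by omega)⟩
  · exact ⟨1, g, by ring, hg, Or.inr hD⟩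

end Pool.Agent.D0H62.IT
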